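import Pool.Agent.Helper69.VU.Spec

/-!
# Project VU: one batch at the level of histories (section 6)
-/

set_option autoImplicit false

namespace Pool.Agent.Helper69.VU

open Finset

section

variable {V : Type} [Fintype V] [DecidableEq V]

/-- the open neighbourhood -/
def opn (Nb : V → Finset V) (v : V) : Finset V := (Nb v).erase v

/-- the bad event at `v` -/
def BadP (Nb : V → Finset V) (D' κ : ℝ) (v : V) (H : List (List (Finset V))) : Prop :=
  D' < ((opn Nb v \ cover Nb H).card : ℝ) ∨
    ∃ w ∈ (ball Nb 2 v).erase v, κ * D' < (((opn Nb v ∩ opn Nb w) \ cover Nb H).card : ℝ)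

/-- its indicator, evaluated on a restricted batch -/
noncomputable def badI (Nb : V → Finset V) (D' κ : ℝ) (n : ℕ) (v : V)
    (H : List (List (Finset V))) : ℝ := by
  classical
  exact if BadP Nb D' κ v (H.map (rs (ball Nb n v))) then 1 else 0

omit [Fintype V] in
lemma rs_rs {C C' : Finset V} (h : C ⊆ C') (x : List (Finset V)) : rs C (rs C' x) = rs C x := by
  unfold rs
  rw [List.map_map]
  apply List.map_congr_left
  intro B _
  show (B ∩ C') ∩ C = B ∩ C
  rw [Finset.inter_assoc, Finset.inter_eq_right.2 h]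

omit [Fintype V] in
lemma map_rs_rs {C C' : Finset V} (h : C ⊆ C') (H : List (List (Finset V))) :
    (H.map (rs C')).map (rs C) = H.map (rs C) := by
  rw [List.map_map]
  apply List.map_congr_left
  intro x _
  exact rs_rs h x

lemma mem_cover_iff (Nb : V → Finset V) (u : V) (H : List (List (Finset V))) :
    u ∈ cover Nb H ↔ ∃ h ∈ H, u ∈ ind Nb h := by
  induction H with
  | nil => simp [cover]
  | cons h H ih => simp [cover, ih]

omit [Fintype V] in
lemma ball_mono_center (Nb : V → Finset V) {u v : V} (huv : u ∈ Nb v) (n : ℕ) :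
    ball Nb n u ⊆ ball Nb (n + 1) v := by
  induction n with
  | zero =>
    intro w hw
    simp only [ball, mem_singleton] at hw
    subst hw
    simp only [ball, mem_biUnion, mem_singleton, exists_eq_left]
    exact huv
  | succ n ih =>
    intro w hw
    have hw' : w ∈ (ball Nb n u).biUnion Nb := hw
    obtain ⟨z, hz, hzw⟩ := mem_biUnion.1 hw'
    show w ∈ (ball Nb (n + 1) v).biUnion Nb
    exact mem_biUnion.2 ⟨z, ih hz, hzw⟩

omit [Fintype V] in
lemma mem_ball_two (Nb : V → Finset V) {v w z : V} (h1 : z ∈ Nb v) (h2 : w ∈ Nb z) :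
    w ∈ ball Nb 2 v := by
  simp only [ball, mem_biUnion, mem_singleton, exists_eq_left]
  exact ⟨z, h1, h2⟩

end

theorem batchHAsm : StBatchHAsm := by
  classical
  intro hStar hChern hLLL hLocal hNum κ ε hκ hκ1 hε hε4
  obtain ⟨K, lam, Ds, hlam, hDs1, hStar'⟩ := hStar κ ε hκ hκ1 hε hε4
  set c : ℝ := 2 * (K : ℝ) * lam + (2 * (K : ℝ) * lam) ^ 2 with hc
  have hc0 : 0 ≤ c := by positivity
  obtain ⟨a, s, Dn, ha, hs, hDn1, hNum'⟩ := hNum κ ε c (2 * K + 2) hκ hκ1 hε hε4 hc0
  refine ⟨Ds + Dn + lam, by linarith, ?_⟩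
  intro V _ _ Nb D hG hcod hD
  have hDDs : Ds ≤ D := by linarith
  have hDDn : Dn ≤ D := by linarith
  have hlamD : lam ≤ D := by linarith
  have hD1 : 1 ≤ D := hG.one_le
  obtain ⟨L, hLlen, hLadm, hLind⟩ := hStar' V Nb D hG hDDs
  obtain ⟨m, hm1, hρ0, hρ1, hm3, hm4, hm5⟩ := hNum' D hDDn
  set ρ : ℝ := (1 - 2 * ε) / (κ * D) with hρ
  set q : ℝ := (1 - ρ) ^ m with hq
  have hq0 : 0 ≤ q := pow_nonneg (by linarith) m
  set D' : ℝ := q * D + a * D with hD'
  have hD'0 : 0 ≤ D' := by positivity
  have hlamD1 : lam / D ≤ 1 := (div_le_one (by linarith)).2 hlamD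
  have hL1 : AdmL L 1 := fun θ hθ v =>
    ⟨(hLadm θ hθ v).1, (hLadm θ hθ v).2.trans hlamD1⟩
  obtain ⟨loc, bcard, bint, bind⟩ := hLocal V Nb hG.self hG.symm
  have hch := hChern V Nb D lam ρ L hD1 hlam hlamD hLadm hρ0 hρ1 hLind
  rw [hLlen, ← hc] at hch
  -- sizes
  have hopn : ∀ v, ((opn Nb v).card : ℝ) ≤ D := by
    intro v
    have h1 := hG.deg v
    have h2 : (opn Nb v).card + 1 = (Nb v).card := Finset.card_erase_add_one (hG.self v)
    have h3 : ((opn Nb v).card : ℝ) + 1 = ((Nb v).card : ℝ) := by exact_mod_cast h2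
    linarith
  -- tail bounds
  set q0 : ℝ := Real.exp (-(s * κ * a * D) + m * c * s ^ 2) with hq0d
  have hq0pos : 0 < q0 := Real.exp_pos _
  have tail : ∀ (R : Finset V) (t : ℝ), 0 ≤ t → t ≤ 1 → κ ≤ t → (R.card : ℝ) ≤ t * D →
      EM L m (fun H => Real.exp (s * ((R \ cover Nb H).card - t * D'))) ≤ q0 := by
    intro R t ht0 ht1 htκ hR
    have h1 := hch R m s (by nlinarith) hs.le
    have h2 : (fun H : List (List (Finset V)) =>
        Real.exp (s * ((R \ cover Nb H).card - t * D'))) =
        (fun H => Real.exp (-(s * (t * D'))) * Real.exp (s * ((R \ cover Nb H).card : ℝ))) := by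
      funext H
      rw [← Real.exp_add]
      congr 1
      ring
    rw [h2, EM_mul_left]
    calc Real.exp (-(s * (t * D'))) * EM L m (fun H => Real.exp (s * ((R \ cover Nb H).card : ℝ)))
        ≤ Real.exp (-(s * (t * D'))) *
          Real.exp (s * ((1 - ρ) ^ m * R.card) + m * c * s ^ 2) :=
          mul_le_mul_of_nonneg_left h1 (Real.exp_pos _).le
      _ = Real.exp (-(s * (t * D')) + (s * (q * R.card) + m * c * s ^ 2)) := by
          rw [← Real.exp_add]
      _ ≤ q0 := by
          apply Real.exp_le_exp.2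
          have h3 : q * R.card ≤ q * (t * D) := mul_le_mul_of_nonneg_left hR hq0
          have h4 : s * (q * R.card) ≤ s * (q * (t * D)) := mul_le_mul_of_nonneg_left h3 hs.le
          have h5 : s * a * D * κ ≤ s * a * D * t :=
            mul_le_mul_of_nonneg_left htκ (by positivity)
          rw [hD']
          nlinarith
  -- the bad events
  set n : ℕ := K + 1 with hn
  have hbad : ∀ (v : V) (H : List (List (Finset V))), (∀ x ∈ H, x.length = K) →
      (BadP Nb D' κ v (H.map (rs (ball Nb n v))) ↔ BadP Nb D' κ v H) := by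
    intro v H hH
    have hcov : ∀ u ∈ opn Nb v, (u ∈ cover Nb (H.map (rs (ball Nb n v))) ↔ u ∈ cover Nb H) := by
      intro u hu
      have huv : u ∈ Nb v := Finset.mem_of_mem_erase hu
      rw [mem_cover_iff, mem_cover_iff]
      constructor
      · rintro ⟨h, hh, hu2⟩
        obtain ⟨x, hx, rfl⟩ := List.mem_map.1 hh
        refine ⟨x, hx, (loc x (ball Nb n v) u ?_).2 hu2⟩
        rw [hH x hx]
        exact ball_mono_center Nb huv K
      · rintro ⟨x, hx, hu2⟩
        refine ⟨rs (ball Nb n v) x, List.mem_map.2 ⟨x, hx, rfl⟩, (loc x (ball Nb n v) u ?_).1 hu2⟩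
        rw [hH x hx]
        exact ball_mono_center Nb huv K
    have e1 : ∀ R : Finset V, R ⊆ opn Nb v →
        R \ cover Nb (H.map (rs (ball Nb n v))) = R \ cover Nb H := by
      intro R hR
      ext u
      rw [mem_sdiff, mem_sdiff]
      constructor
      · rintro ⟨h1, h2⟩
        exact ⟨h1, fun h3 => h2 ((hcov u (hR h1)).2 h3)⟩
      · rintro ⟨h1, h2⟩
        exact ⟨h1, fun h3 => h2 ((hcov u (hR h1)).1 h3)⟩
    unfold BadP
    rw [e1 _ (Finset.Subset.refl _)]
    have e2 : ∀ w, (opn Nb v ∩ opn Nb w) \ cover Nb (H.map (rs (ball Nb n v))) =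
        (opn Nb v ∩ opn Nb w) \ cover Nb H := fun w => e1 _ Finset.inter_subset_left
    simp only [e2]
  -- probability of a bad event
  have hball2 : ∀ v, (((ball Nb 2 v).erase v).card : ℝ) ≤ (D + 1) ^ 2 := by
    intro v
    have h1 := bcard 2 (D + 1) v hG.deg
    have h2 : (((ball Nb 2 v).erase v).card : ℝ) ≤ ((ball Nb 2 v).card : ℝ) := by
      exact_mod_cast Finset.card_erase_le
    exact h2.trans h1
  have hprob : ∀ v, EM L m (badI Nb D' κ n v) ≤ 2 * (D + 1) ^ 2 * q0 := by
    intro v
    have h1 : EM L m (badI Nb D' κ n v) ≤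
        EM L m (fun H => Real.exp (s * ((opn Nb v \ cover Nb H).card - 1 * D')) +
          ∑ w ∈ (ball Nb 2 v).erase v,
            Real.exp (s * (((opn Nb v ∩ opn Nb w) \ cover Nb H).card - κ * D'))) := by
      apply EM_mono L hL1
      intro H hHm hHl
      have hHK : ∀ x ∈ H, x.length = K := fun x hx => (hHl x hx).trans hLlen
      have hsum0 : ∀ w ∈ (ball Nb 2 v).erase v,
          0 ≤ Real.exp (s * (((opn Nb v ∩ opn Nb w) \ cover Nb H).card - κ * D')) :=
        fun w _ => (Real.exp_pos _).le
      have he0 := Real.exp_pos (s * ((opn Nb v \ cover Nb H).card - 1 * D'))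
      unfold badI
      split_ifs with hb
      · rcases (hbad v H hHK).1 hb with hb | ⟨w, hw, hb⟩
        · have h2 : 1 ≤ Real.exp (s * ((opn Nb v \ cover Nb H).card - 1 * D')) := by
            apply Real.one_le_exp
            apply mul_nonneg hs.le
            linarith
          have h3 := Finset.sum_nonneg hsum0
          linarith
        · have h2 : 1 ≤ Real.exp (s * (((opn Nb v ∩ opn Nb w) \ cover Nb H).card - κ * D')) := by
            apply Real.one_le_exp
            apply mul_nonneg hs.le
            linarith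
          have h3 := Finset.single_le_sum hsum0 hw
          linarith
      · have h3 := Finset.sum_nonneg hsum0
        linarith
    refine h1.trans ?_
    rw [EM_add, EM_sum]
    have t1 := tail (opn Nb v) 1 zero_le_one le_rfl hκ1 (by rw [one_mul]; exact hopn v)
    have t2 : ∑ w ∈ (ball Nb 2 v).erase v, EM L m (fun H =>
        Real.exp (s * (((opn Nb v ∩ opn Nb w) \ cover Nb H).card - κ * D'))) ≤
        ∑ w ∈ (ball Nb 2 v).erase v, q0 := by
      apply Finset.sum_le_sum
      intro w hw
      apply tail _ κ hκ.le hκ1 le_rfl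
      exact hcod v w (fun h => (Finset.ne_of_mem_erase hw) h.symm)
    rw [Finset.sum_const, nsmul_eq_mul] at t2
    have t3 := mul_le_mul_of_nonneg_right (hball2 v) hq0pos.le
    have t4 : 1 ≤ (D + 1) ^ 2 := by nlinarith
    have t5 := mul_le_mul_of_nonneg_right t4 hq0pos.le
    linarith
  -- the local lemma
  set nb : V → Finset V := fun i =>
    univ.filter (fun j => ¬ Disjoint (ball Nb n j) (ball Nb n i)) with hnb
  set d : ℕ := ⌈(D + 1) ^ (2 * K + 2)⌉₊ with hd
  have hpow1 : 1 ≤ (D + 1) ^ (2 * K + 2) := one_le_pow₀ (by linarith)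
  have hd1 : 1 ≤ d := Nat.one_le_iff_ne_zero.2 (by
    intro h0
    rw [hd, Nat.ceil_eq_zero] at h0
    linarith)
  have hdge : (D + 1) ^ (2 * K + 2) ≤ (d : ℝ) := Nat.le_ceil _
  have hdle : (d : ℝ) ≤ 2 * (D + 1) ^ (2 * K + 2) := by
    have := Nat.ceil_lt_add_one (le_trans zero_le_one hpow1)
    rw [← hd] at this
    linarith
  have hpos := hLLL (List (List (Finset V))) (EM L m) (EM_add L m)
    (fun c f => EM_mul_left L m c f)
    (fun f g h => EM_mono L hL1 m f g (fun H _ _ => h H)) (EM_const L m 1)
    V (badI Nb D' κ n) nb d ?_ ?_ hd1 ?_ ?_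
  · obtain ⟨H, hHm, hHl, hHpos⟩ := EM_exists_pos L hL1 m _ hpos
    have hHK : ∀ x ∈ H, x.length = K := fun x hx => (hHl x hx).trans hLlen
    have hnot : ∀ v, ¬ BadP Nb D' κ v H := by
      intro v hv
      have h1 : badI Nb D' κ n v H = 1 := by
        unfold badI
        rw [if_pos ((hbad v H hHK).2 hv)]
      have h2 : ∏ i, (1 - badI Nb D' κ n i H) = 0 := by
        apply Finset.prod_eq_zero (mem_univ v)
        rw [h1, sub_self]
      rw [h2] at hHpos
      exact lt_irrefl _ hHpos
    refine ⟨D', H, by omega, hD'0, hm3, ?_, ?_, ?_⟩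
    · rw [hHm]; exact hm4
    · intro v
      by_contra hcon
      exact hnot v (Or.inl (not_le.1 hcon))
    · intro u v huv
      by_cases hv : v ∈ ball Nb 2 u
      · by_contra hcon
        exact hnot u (Or.inr ⟨v, Finset.mem_erase.2 ⟨huv.symm, hv⟩, not_le.1 hcon⟩)
      · have hemp : ((Nb u).erase u) ∩ ((Nb v).erase v) = ∅ := by
          rw [Finset.eq_empty_iff_forall_notMem]
          intro z hz
          rw [mem_inter] at hz
          apply hv
          exact mem_ball_two Nb (Finset.mem_of_mem_erase hz.1)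
            (hG.symm v z (Finset.mem_of_mem_erase hz.2))
        rw [hemp, Finset.empty_sdiff, Finset.card_empty, Nat.cast_zero]
        positivity
  · intro i x
    unfold badI
    split_ifs
    · right; rfl
    · left; rfl
  · -- independence
    intro i J hJ
    set C : Finset V := ball Nb n i with hC
    set C' : Finset V := J.biUnion (fun j => ball Nb n j) with hC'
    have hdis : Disjoint C C' := by
      rw [hC', Finset.disjoint_biUnion_right]
      intro j hj
      have h1 := hJ j hj
      rw [hnb] at h1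
      simp only [mem_filter, mem_univ, true_and, not_not] at h1
      exact h1.symm
    have e1 : ∀ H : List (List (Finset V)),
        badI Nb D' κ n i H = badI Nb D' κ n i (H.map (rs C)) := by
      intro H
      unfold badI
      rw [map_rs_rs (Finset.Subset.refl _)]
    have e2 : ∀ H : List (List (Finset V)),
        ∏ j ∈ J, (1 - badI Nb D' κ n j H) = ∏ j ∈ J, (1 - badI Nb D' κ n j (H.map (rs C'))) := by
      intro H
      apply Finset.prod_congr rfl
      intro j hj
      unfold badI
      rw [map_rs_rs (C := ball Nb n j) (C' := C')]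
      rw [hC']
      exact Finset.subset_biUnion_of_mem (fun j => ball Nb n j) hj
    have h1 := bind L m C C' hdis (badI Nb D' κ n i)
      (fun H => ∏ j ∈ J, (1 - badI Nb D' κ n j H))
    simp only [← e1, ← e2] at h1
    exact h1
  · intro i
    have h1 : nb i ⊆ ball Nb (n + n) i := by
      intro j hj
      rw [hnb] at hj
      simp only [mem_filter, mem_univ, true_and] at hj
      exact bint n n j i hj
    have h2 := bcard (n + n) (D + 1) i hG.deg
    have h3 : n + n = 2 * K + 2 := by omega
    rw [h3] at h2 h1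
    have h4 : ((nb i).card : ℝ) ≤ d := by
      have : ((nb i).card : ℝ) ≤ ((ball Nb (2 * K + 2) i).card : ℝ) := by
        exact_mod_cast Finset.card_le_card h1
      exact this.trans (h2.trans hdge)
    exact_mod_cast h4
  · intro i
    have h1 := hprob i
    have h0 : 0 ≤ EM L m (badI Nb D' κ n i) := by
      have := EM_mono L hL1 m (fun _ => 0) (badI Nb D' κ n i) (by
        intro H _ _
        unfold badI
        split_ifs <;> norm_num)
      rwa [EM_const] at this
    have hd0 : (0 : ℝ) ≤ d := Nat.cast_nonneg d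
    calc 4 * (d : ℝ) * EM L m (badI Nb D' κ n i)
        ≤ 4 * (2 * (D + 1) ^ (2 * K + 2)) * (2 * (D + 1) ^ 2 * q0) := by
          apply mul_le_mul _ h1 h0 (by positivity)
          linarith
      _ = 16 * (D + 1) ^ (2 * K + 2 + 2) * q0 := by
          rw [pow_add (D + 1) (2 * K + 2) 2]; ring
      _ ≤ 1 := hm5

end Pool.Agent.Helper69.VU
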