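import Pool.Agent.Helper69.VU.Spec

/-!
# Project VU, module CHERN: exponential moment of the uncovered part of a set
-/

set_option autoImplicit false

namespace Pool.Agent.Helper69.VU

open Finset

variable {V : Type} [Fintype V] [DecidableEq V]

omit [Fintype V] in
private lemma ch_ind_sub_act [Fintype V] (Nb : V → Finset V) (h : List (Finset V)) :
    ind Nb h ⊆ act h := by
  induction h with
  | nil => simp [ind, act]
  | cons B h ih =>
    intro v hv
    rw [ind, mem_union, mem_filter, mem_inter] at hv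
    rw [act, mem_union]
    rcases hv with hv | hv
    · exact Or.inl hv.1.1
    · exact Or.inr (ih hv)

/-- probability of being ever included -/
private lemma ch_act1 (L : List (V → ℝ)) (b : ℝ) (hb : b ≤ 1) (hL : AdmL L b) (v : V) :
    EL L (fun h => if v ∈ act h then (1 : ℝ) else 0) ≤ L.length * b := by
  have h := EL_act_indep L b hb hL v (fun _ => 1) (fun _ => zero_le_one)
  simp only [mul_one] at h
  rw [EL_const, mul_one] at h
  exact h

private lemma ch_act2 (L : List (V → ℝ)) (b : ℝ) (hb0 : 0 ≤ b) (hb : b ≤ 1) (hL : AdmL L b)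
    (v w : V) (hvw : v ≠ w) :
    EL L (fun h => (if v ∈ act h then (1 : ℝ) else 0) * (if w ∈ act h then (1 : ℝ) else 0)) ≤
      (L.length * b) ^ 2 := by
  have h := EL_act_indep L b hb hL v (fun S => if w ∈ S then (1 : ℝ) else 0)
    (fun S => by split_ifs <;> norm_num)
  have e : ∀ S : Finset V, (if w ∈ S.erase v then (1 : ℝ) else 0) = if w ∈ S then 1 else 0 := by
    intro S
    simp [Ne.symm hvw]
  simp only [e] at h
  refine h.trans ?_
  rw [sq]
  exact mul_le_mul_of_nonneg_left (ch_act1 L b hb hL w) (by positivity)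

omit [Fintype V] in
private lemma ch_card (R A : Finset V) :
    ((R ∩ A).card : ℝ) = ∑ v ∈ R, if v ∈ A then (1 : ℝ) else 0 := by
  rw [← Finset.filter_mem_eq_inter, Finset.card_filter]
  push_cast
  rfl

/-- second moment -/
private lemma ch_second (L : List (V → ℝ)) (b : ℝ) (hb0 : 0 ≤ b) (hb : b ≤ 1) (hL : AdmL L b)
    (R : Finset V) :
    EL L (fun h => ((R ∩ act h).card : ℝ) ^ 2) ≤
      R.card * (L.length * b) + (R.card * (L.length * b)) ^ 2 := by
  have h0 : (fun h : List (Finset V) => ((R ∩ act h).card : ℝ) ^ 2) =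
      (fun h => ∑ v ∈ R, ∑ w ∈ R,
        (if v ∈ act h then (1 : ℝ) else 0) * (if w ∈ act h then (1 : ℝ) else 0)) := by
    funext h
    rw [ch_card, sq, Finset.sum_mul_sum]
  rw [h0, EL_sum]
  have h1 : ∀ v ∈ R, EL L (fun h => ∑ w ∈ R,
      (if v ∈ act h then (1 : ℝ) else 0) * (if w ∈ act h then (1 : ℝ) else 0)) ≤
      L.length * b + R.card * (L.length * b) ^ 2 := by
    intro v hv
    rw [EL_sum, ← Finset.add_sum_erase R _ hv]
    refine add_le_add ?_ ?_
    · have : (fun h : List (Finset V) =>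
          (if v ∈ act h then (1 : ℝ) else 0) * (if v ∈ act h then (1 : ℝ) else 0)) =
          (fun h => if v ∈ act h then (1 : ℝ) else 0) := by
        funext h
        split_ifs <;> simp
      rw [this]
      exact ch_act1 L b hb hL v
    · calc ∑ w ∈ R.erase v, EL L (fun h =>
            (if v ∈ act h then (1 : ℝ) else 0) * (if w ∈ act h then (1 : ℝ) else 0))
          ≤ ∑ w ∈ R.erase v, (L.length * b) ^ 2 := by
            refine Finset.sum_le_sum ?_
            intro w hw
            exact ch_act2 L b hb0 hb hL v w (Ne.symm (Finset.ne_of_mem_erase hw))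
        _ = (R.erase v).card * (L.length * b) ^ 2 := by rw [Finset.sum_const, nsmul_eq_mul]
        _ ≤ R.card * (L.length * b) ^ 2 := by
            refine mul_le_mul_of_nonneg_right ?_ (by positivity)
            exact_mod_cast Finset.card_le_card (Finset.erase_subset v R)
  refine (Finset.sum_le_sum h1).trans (le_of_eq ?_)
  rw [Finset.sum_const, nsmul_eq_mul]
  ring

private lemma ch_exp_neg {x : ℝ} (hx : 0 ≤ x) : Real.exp (-x) ≤ 1 - x + x ^ 2 := by
  by_cases h : x ≤ 1
  · have h1 := Real.abs_exp_sub_one_sub_id_le (x := -x) (by rw [abs_neg, abs_of_nonneg hx]; exact h)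
    have h2 := (abs_le.1 h1).2
    nlinarith
  · push Not at h
    have h1 : Real.exp (-x) ≤ 1 := Real.exp_le_one_iff.2 (by linarith)
    nlinarith

/-- one run -/
private lemma ch_step (Nb : V → Finset V) (D lam ρ : ℝ) (L : List (V → ℝ)) (hD : 1 ≤ D)
    (hlam : 0 ≤ lam) (hlamD : lam ≤ D) (hL : AdmL L (lam / D))
    (hind : ∀ v, ρ ≤ EL L (fun h => chi (ind Nb h) v)) (R : Finset V) (s : ℝ)
    (hR : (R.card : ℝ) ≤ D + 1) (hs : 0 ≤ s) :
    EL L (fun h => Real.exp (s * ((R \ ind Nb h).card : ℝ))) ≤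
      Real.exp (s * ((1 - ρ) * R.card) +
        (2 * L.length * lam + (2 * L.length * lam) ^ 2) * s ^ 2) := by
  have hD0 : 0 < D := by linarith
  have hb0 : 0 ≤ lam / D := by positivity
  have hb1 : lam / D ≤ 1 := by rw [div_le_one hD0]; exact hlamD
  have hL1 : AdmL L 1 := fun θ hθ w => ⟨(hL θ hθ w).1, ((hL θ hθ w).2).trans hb1⟩
  set c : ℝ := 2 * L.length * lam + (2 * L.length * lam) ^ 2 with hc
  have hc0 : 0 ≤ c := by positivity
  -- first moment
  have hfirst : ρ * R.card ≤ EL L (fun h => ((R ∩ ind Nb h).card : ℝ)) := by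
    have h0 : (fun h : List (Finset V) => ((R ∩ ind Nb h).card : ℝ)) =
        (fun h => ∑ v ∈ R, chi (ind Nb h) v) := by
      funext h
      rw [ch_card]
      rfl
    rw [h0, EL_sum]
    calc ρ * R.card = ∑ v ∈ R, ρ := by rw [Finset.sum_const, nsmul_eq_mul]; ring
      _ ≤ _ := Finset.sum_le_sum (fun v _ => hind v)
  -- second moment
  have hsecond : EL L (fun h => ((R ∩ ind Nb h).card : ℝ) ^ 2) ≤ c := by
    have h1 : EL L (fun h => ((R ∩ ind Nb h).card : ℝ) ^ 2) ≤
        EL L (fun h => ((R ∩ act h).card : ℝ) ^ 2) := by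
      refine EL_mono L hL1 _ _ ?_
      intro x _
      refine pow_le_pow_left₀ (Nat.cast_nonneg _) ?_ 2
      exact_mod_cast Finset.card_le_card (Finset.inter_subset_inter_left (ch_ind_sub_act Nb x))
    refine h1.trans ((ch_second L (lam / D) hb0 hb1 hL R).trans ?_)
    have h2 : (R.card : ℝ) * (L.length * (lam / D)) ≤ 2 * L.length * lam := by
      have h3 : (R.card : ℝ) ≤ 2 * D := by linarith
      calc (R.card : ℝ) * (L.length * (lam / D)) ≤ 2 * D * (L.length * (lam / D)) :=
            mul_le_mul_of_nonneg_right h3 (by positivity)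
        _ = 2 * L.length * lam := by field_simp
    have h4 : (0 : ℝ) ≤ (R.card : ℝ) * (L.length * (lam / D)) := by positivity
    rw [hc]
    exact add_le_add h2 (pow_le_pow_left₀ h4 h2 2)
  -- pointwise bound
  have hpt : ∀ h : List (Finset V), Real.exp (s * ((R \ ind Nb h).card : ℝ)) ≤
      Real.exp (s * R.card) * ((1 - s * ((R ∩ ind Nb h).card : ℝ)) +
        s ^ 2 * ((R ∩ ind Nb h).card : ℝ) ^ 2) := by
    intro h
    have h1 : ((R \ ind Nb h).card : ℝ) = R.card - ((R ∩ ind Nb h).card : ℝ) := by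
      have := Finset.card_sdiff_add_card_inter R (ind Nb h)
      have h2 : ((R \ ind Nb h).card : ℝ) + ((R ∩ ind Nb h).card : ℝ) = R.card := by
        exact_mod_cast this
      linarith
    rw [h1, mul_sub, sub_eq_add_neg, Real.exp_add]
    refine mul_le_mul_of_nonneg_left ?_ (Real.exp_pos _).le
    have h3 := ch_exp_neg (x := s * ((R ∩ ind Nb h).card : ℝ)) (by positivity)
    rw [mul_pow] at h3
    exact h3
  calc EL L (fun h => Real.exp (s * ((R \ ind Nb h).card : ℝ)))
      ≤ EL L (fun h => Real.exp (s * R.card) * ((1 - s * ((R ∩ ind Nb h).card : ℝ)) +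
        s ^ 2 * ((R ∩ ind Nb h).card : ℝ) ^ 2)) := EL_mono L hL1 _ _ (fun x _ => hpt x)
    _ = Real.exp (s * R.card) * ((1 - s * EL L (fun h => ((R ∩ ind Nb h).card : ℝ))) +
        s ^ 2 * EL L (fun h => ((R ∩ ind Nb h).card : ℝ) ^ 2)) := by
        rw [EL_mul_left, EL_add, EL_sub, EL_const, EL_mul_left, EL_mul_left]
    _ ≤ Real.exp (s * R.card) * ((-(s * (ρ * R.card)) + s ^ 2 * c) + 1) := by
        refine mul_le_mul_of_nonneg_left ?_ (Real.exp_pos _).le
        have h5 := mul_le_mul_of_nonneg_left hfirst hs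
        have h6 := mul_le_mul_of_nonneg_left hsecond (sq_nonneg s)
        linarith
    _ ≤ Real.exp (s * R.card) * Real.exp (-(s * (ρ * R.card)) + s ^ 2 * c) :=
        mul_le_mul_of_nonneg_left (Real.add_one_le_exp _) (Real.exp_pos _).le
    _ = Real.exp (s * ((1 - ρ) * R.card) + c * s ^ 2) := by
        rw [← Real.exp_add]
        congr 1
        ring

theorem chern : StChern := by
  intro V _ _ Nb D lam ρ L hD hlam hlamD hL hρ0 hρ1 hind R m s hR hs
  have hD0 : 0 < D := by linarith
  have hb1 : lam / D ≤ 1 := by rw [div_le_one hD0]; exact hlamD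
  have hL1 : AdmL L 1 := fun θ hθ w => ⟨(hL θ hθ w).1, ((hL θ hθ w).2).trans hb1⟩
  have hρ : 0 ≤ 1 - ρ := by linarith
  induction m generalizing s with
  | zero =>
    show Real.exp (s * ((R \ cover Nb []).card : ℝ)) ≤ _
    simp [cover]
  | succ m ih =>
    show EM L m (fun H => EL L (fun h => Real.exp (s * ((R \ cover Nb (h :: H)).card : ℝ)))) ≤ _
    set c : ℝ := 2 * L.length * lam + (2 * L.length * lam) ^ 2 with hc
    have hc0 : 0 ≤ c := by positivity
    have h1 : ∀ H : List (List (Finset V)),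
        EL L (fun h => Real.exp (s * ((R \ cover Nb (h :: H)).card : ℝ))) ≤
        Real.exp (c * s ^ 2) * Real.exp ((s * (1 - ρ)) * ((R \ cover Nb H).card : ℝ)) := by
      intro H
      have h2 : ∀ h : List (Finset V), R \ cover Nb (h :: H) = (R \ cover Nb H) \ ind Nb h := by
        intro h
        ext v
        simp only [cover, mem_sdiff, mem_union]
        tauto
      simp only [h2]
      have h3 : (((R \ cover Nb H).card : ℕ) : ℝ) ≤ D + 1 := by
        refine le_trans ?_ hR
        exact_mod_cast Finset.card_le_card Finset.sdiff_subset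
      have h4 := ch_step Nb D lam ρ L hD hlam hlamD hL hind (R \ cover Nb H) s h3 hs
      refine h4.trans (le_of_eq ?_)
      rw [← Real.exp_add]
      congr 1
      ring
    refine (EM_mono L hL1 m _ _ (fun H _ _ => h1 H)).trans ?_
    rw [EM_mul_left]
    have h5 := ih (s * (1 - ρ)) (mul_nonneg hs hρ)
    refine (mul_le_mul_of_nonneg_left h5 (Real.exp_pos _).le).trans ?_
    rw [← Real.exp_add]
    refine Real.exp_le_exp.2 ?_
    have h6 : (1 - ρ) ^ 2 ≤ 1 := by
      rw [sq]
      nlinarith
    have h7 : (m : ℝ) * c * (s * (1 - ρ)) ^ 2 ≤ m * c * s ^ 2 := by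
      rw [mul_pow]
      refine mul_le_mul_of_nonneg_left ?_ (by positivity)
      nlinarith [sq_nonneg s]
    push_cast
    have h8 : s * (1 - ρ) * ((1 - ρ) ^ m * (R.card : ℝ)) = s * ((1 - ρ) ^ (m + 1) * R.card) := by
      ring
    rw [h8]
    have h9 : ((m : ℝ) + 1) * c * s ^ 2 = m * c * s ^ 2 + c * s ^ 2 := by ring
    rw [h9]
    linarith

end Pool.Agent.Helper69.VU
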