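import Pool.Agent.Helper69.VU.Spec

/-!
# Project VU: the iteration (section 7)
-/

set_option autoImplicit false

namespace Pool.Agent.Helper69.VU

open Finset

/-- greedy colouring of a finite set of vertices -/
theorem greedy_aux {V : Type} [Fintype V] [DecidableEq V] (G : SimpleGraph V) [DecidableRel G.Adj]
    (d : ℕ) (hd : ∀ v, (G.neighborFinset v).card ≤ d) (A : Finset V) :
    ∃ c : V → Fin (d + 1), ∀ u ∈ A, ∀ v ∈ A, G.Adj u v → c u ≠ c v := by
  induction A using Finset.induction_on with
  | empty => exact ⟨fun _ => 0, by simp⟩
  | insert a A ha ih =>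
    obtain ⟨c, hc⟩ := ih
    obtain ⟨x, hx⟩ : ∃ x : Fin (d + 1), x ∉ (G.neighborFinset a).image c := by
      by_contra hcon
      push Not at hcon
      have h1 : (univ : Finset (Fin (d + 1))) ⊆ (G.neighborFinset a).image c := fun x _ => hcon x
      have h2 := (card_le_card h1).trans card_image_le
      rw [card_univ, Fintype.card_fin] at h2
      have := hd a
      omega
    have hx' : ∀ v, G.Adj a v → c v ≠ x := by
      intro v hv h
      apply hx
      rw [mem_image]
      exact ⟨v, by simpa using hv, h⟩
    refine ⟨Function.update c a x, ?_⟩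
    intro u hu v hv huv
    have hne : u ≠ v := G.ne_of_adj huv
    by_cases hua : u = a
    · subst hua
      have hva : v ≠ u := hne.symm
      rw [Function.update_self, Function.update_of_ne hva]
      exact (hx' v huv).symm
    · by_cases hva : v = a
      · subst hva
        rw [Function.update_self, Function.update_of_ne hua]
        exact hx' u huv.symm
      · rw [Function.update_of_ne hua, Function.update_of_ne hva]
        exact hc u (mem_of_mem_insert_of_ne hu hua) v (mem_of_mem_insert_of_ne hv hva) huv

theorem greedy {V : Type} [Fintype V] [DecidableEq V] (G : SimpleGraph V) [DecidableRel G.Adj]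
    (d : ℕ) (hd : ∀ v, (G.neighborFinset v).card ≤ d) : G.Colorable (d + 1) := by
  obtain ⟨c, hc⟩ := greedy_aux G d hd univ
  exact ⟨SimpleGraph.Coloring.mk c fun {u v} h => hc u (mem_univ _) v (mem_univ _) h⟩

/-- the neighbourhoods of the graph induced outside `A` -/
theorem map_neighborFinset {V : Type} [Fintype V] [DecidableEq V] (G : SimpleGraph V)
    [DecidableRel G.Adj] (A : Finset V)
    [DecidableRel (G.induce {v | v ∉ A}).Adj] (v : {v | v ∉ A}) :
    ((G.induce {v | v ∉ A}).neighborFinset v).map (Function.Embedding.subtype _) =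
      G.neighborFinset v \ A := by
  ext w
  simp only [mem_map, SimpleGraph.mem_neighborFinset, SimpleGraph.comap_adj,
    Function.Embedding.subtype_apply, mem_sdiff]
  constructor
  · rintro ⟨w', h, rfl⟩
    exact ⟨h, w'.2⟩
  · rintro ⟨h1, h2⟩
    exact ⟨⟨w, h2⟩, h1, rfl⟩

theorem colour : StColourAsm := by
  intro hB κ ε hκ hκ1 hε
  set ε' : ℝ := min (ε / 16) (1 / 8) with hε'
  have h1 : 0 < ε' := lt_min (by positivity) (by norm_num)
  have h2 : ε' < 1 / 4 := (min_le_right _ _).trans_lt (by norm_num)
  have h3 : 16 * ε' ≤ ε := by
    have := min_le_left (ε / 16) (1 / 8 : ℝ)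
    linarith
  obtain ⟨D0, hD0, hbatch⟩ := hB κ ε' hκ hκ1 h1 h2
  refine ⟨D0 + 1, by linarith, ?_⟩
  have key : ∀ n : ℕ, ∀ (V : Type) [Fintype V] [DecidableEq V] (G : SimpleGraph V)
      [DecidableRel G.Adj] (D : ℝ), ⌈D⌉₊ = n →
      0 ≤ D → (∀ v, ((G.neighborFinset v).card : ℝ) ≤ D) →
      (∀ u v, u ≠ v → ((G.neighborFinset u ∩ G.neighborFinset v).card : ℝ) ≤ κ * D) →
      ∃ k : ℕ, G.Colorable k ∧ (k : ℝ) ≤ (1 + ε) * κ * D + (D0 + 1) := by
    intro n
    induction n using Nat.strong_induction_on with
    | _ n ih =>
      intro V _ _ G _ D hn hD hdeg hcod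
      by_cases hlt : D < D0
      · refine ⟨⌊D⌋₊ + 1, greedy G ⌊D⌋₊ fun v => Nat.le_floor (hdeg v), ?_⟩
        have h4 := Nat.floor_le hD
        have h5 : 0 ≤ (1 + ε) * κ * D := by positivity
        push_cast
        linarith
      · push Not at hlt
        obtain ⟨m, D', A, c, hD'0, hD'1, hm, hc, hdeg', hcod'⟩ := hbatch V G D hlt hdeg hcod
        classical
        have hlt' : ⌈D'⌉₊ < n := by
          have h6 : (⌈D'⌉₊ : ℝ) < D' + 1 := Nat.ceil_lt_add_one hD'0
          have h7 : D ≤ (⌈D⌉₊ : ℝ) := Nat.le_ceil D
          rw [hn] at h7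
          have h8 : (⌈D'⌉₊ : ℝ) < n := by linarith
          exact_mod_cast h8
        have hemb := map_neighborFinset G A
        obtain ⟨k', hk', hk'le⟩ := ih ⌈D'⌉₊ hlt' {v | v ∉ A} (G.induce {v | v ∉ A}) D' rfl hD'0
          (by
            intro v
            rw [← card_map (Function.Embedding.subtype _), hemb v]
            exact hdeg' v)
          (by
            intro u v huv
            have e : (G.neighborFinset (u : V) \ A) ∩ (G.neighborFinset (v : V) \ A) =
                (G.neighborFinset (u : V) ∩ G.neighborFinset (v : V)) \ A := by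
              ext w
              simp only [mem_inter, mem_sdiff]
              tauto
            rw [← card_map (Function.Embedding.subtype _), map_inter, hemb u, hemb v, e]
            exact hcod' u v fun h => huv (Subtype.ext h))
        refine ⟨m + k', ?_, ?_⟩
        · obtain ⟨C'⟩ := hk'
          have C : G.Coloring (Fin m ⊕ Fin k') := by
            refine SimpleGraph.Coloring.mk
              (fun v => if h : v ∈ A then Sum.inl (c v) else Sum.inr (C' ⟨v, h⟩)) ?_
            intro u v huv
            by_cases hu : u ∈ A
            · by_cases hv : v ∈ A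
              · rw [dif_pos hu, dif_pos hv]
                intro h
                exact hc u hu v hv huv (Sum.inl_injective h)
              · rw [dif_pos hu, dif_neg hv]
                exact Sum.inl_ne_inr
            · by_cases hv : v ∈ A
              · rw [dif_neg hu, dif_pos hv]
                exact Sum.inr_ne_inl
              · rw [dif_neg hu, dif_neg hv]
                intro h
                exact C'.valid (v := ⟨u, hu⟩) (w := ⟨v, hv⟩) huv (Sum.inr_injective h)
          have := C.colorable
          simpa using this
        · push_cast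
          have h9 : (1 + 16 * ε') * κ * (D - D') ≤ (1 + ε) * κ * (D - D') := by
            apply mul_le_mul_of_nonneg_right _ (by linarith)
            apply mul_le_mul_of_nonneg_right _ hκ.le
            linarith
          nlinarith
  intro V _ _ G _ D hD hdeg hcod
  exact key _ V G D rfl hD hdeg hcod

end Pool.Agent.Helper69.VU
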