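import Pool.Agent.Helper69.VU.Spec

/-!
# Project VU: module CovA

Covariance of functions of overlapping parts of one random set; expected pair sums.
-/

set_option autoImplicit false

namespace Pool.Agent.Helper69.VU

open Finset

/-- indicator of the event that `B` meets `I` -/
noncomputable def CovA.hit {V : Type} [DecidableEq V] (I B : Finset V) : ℝ :=
  if Disjoint B I then 0 else 1

section
variable {V : Type} [Fintype V] [DecidableEq V]

omit [Fintype V] in
theorem CovA.hit_nonneg (I B : Finset V) : 0 ≤ CovA.hit I B := by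
  unfold CovA.hit
  split_ifs <;> norm_num

theorem CovA.EB_hit (θ : V → ℝ) (hθ : ∀ v, 0 ≤ θ v ∧ θ v ≤ 1) (I : Finset V) :
    EB θ (CovA.hit I) ≤ ∑ v ∈ I, θ v := by
  have h1 : EB θ (CovA.hit I) ≤ EB θ (fun B => ∑ v ∈ I, if v ∈ B then (1 : ℝ) else 0) := by
    apply EB_mono θ hθ
    intro B
    unfold CovA.hit
    split_ifs with hd
    · exact Finset.sum_nonneg (fun v _ => by split_ifs <;> norm_num)
    · rw [Finset.not_disjoint_iff] at hd
      obtain ⟨a, haB, haI⟩ := hd
      calc (1 : ℝ) = (if a ∈ B then (1 : ℝ) else 0) := by rw [if_pos haB]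
        _ ≤ _ := Finset.single_le_sum (f := fun v => if v ∈ B then (1 : ℝ) else 0)
            (fun v _ => by split_ifs <;> norm_num) haI
  refine h1.trans (le_of_eq ?_)
  rw [EB_sum]
  exact Finset.sum_congr rfl (fun v _ => EB_mem θ v)

theorem CovA.half (θ : V → ℝ) (hθ : ∀ v, 0 ≤ θ v ∧ θ v ≤ 1) (I : Finset V)
    (u w : Finset V → ℝ) (hu : ∀ B, |u B| ≤ CovA.hit I B) (hw : ∀ B, 0 ≤ w B ∧ w B ≤ 1) :
    |EB θ (fun B => u B * w B) - EB θ u * EB θ w| ≤ ∑ v ∈ I, θ v := by
  set m := EB θ w with hm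
  have hm0 : 0 ≤ m := EB_nonneg θ hθ w (fun B => (hw B).1)
  have hm1 : m ≤ 1 := EB_le_const θ hθ w 1 (fun B => (hw B).2)
  have e : EB θ (fun B => u B * w B) - EB θ u * m = EB θ (fun B => u B * (w B - m)) := by
    have : (fun B => u B * (w B - m)) = (fun B => u B * w B - u B * m) := by
      funext B
      ring
    rw [this, EB_sub, EB_mul_right]
  rw [e]
  refine (EB_abs_le θ hθ _).trans ((EB_mono θ hθ _ (CovA.hit I) ?_).trans (CovA.EB_hit θ hθ I))
  intro B
  rw [abs_mul]
  have h1 : |w B - m| ≤ 1 := by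
    rw [abs_le]
    constructor <;> linarith [(hw B).1, (hw B).2]
  calc |u B| * |w B - m| ≤ CovA.hit I B * 1 :=
        mul_le_mul (hu B) h1 (abs_nonneg _) (CovA.hit_nonneg I B)
    _ = CovA.hit I B := mul_one _

omit [Fintype V] in
theorem CovA.inter_eq {B C C' : Finset V} (h : Disjoint B (C ∩ C')) : B ∩ C = B ∩ (C \ C') := by
  ext v
  simp only [mem_inter, mem_sdiff]
  constructor
  · rintro ⟨h1, h2⟩
    exact ⟨h1, h2, fun h3 => Finset.disjoint_left.mp h h1 (Finset.mem_inter.mpr ⟨h2, h3⟩)⟩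
  · rintro ⟨h1, h2, _⟩
    exact ⟨h1, h2⟩

omit [Fintype V] in
theorem CovA.sub_le {C C' : Finset V} (f : Finset V → ℝ) (hf : ∀ S, 0 ≤ f S ∧ f S ≤ 1)
    (B : Finset V) : |f (B ∩ C) - f (B ∩ (C \ C'))| ≤ CovA.hit (C ∩ C') B := by
  unfold CovA.hit
  split_ifs with h
  · rw [CovA.inter_eq h, sub_self, abs_zero]
  · rw [abs_le]
    constructor <;> linarith [(hf (B ∩ C)).1, (hf (B ∩ C)).2, (hf (B ∩ (C \ C'))).1,
      (hf (B ∩ (C \ C'))).2]

end

theorem covA : StCovA := by
  intro V _ _ θ hθ C C' f g hf hg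
  set F := fun B : Finset V => f (B ∩ C) with hF
  set G := fun B : Finset V => g (B ∩ C') with hG
  set F0 := fun B : Finset V => f (B ∩ (C \ C')) with hF0
  set G0 := fun B : Finset V => g (B ∩ (C' \ C)) with hG0
  have h1 := CovA.half θ hθ (C ∩ C') (fun B => F B - F0 B) G
    (fun B => CovA.sub_le f hf B) (fun B => hg _)
  have h2 := CovA.half θ hθ (C' ∩ C) (fun B => G B - G0 B) F0
    (fun B => CovA.sub_le g hg B) (fun B => hf _)
  have h3 : EB θ (fun B => F0 B * G0 B) = EB θ F0 * EB θ G0 := by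
    apply EB_indep θ (C \ C') (C' \ C)
    rw [Finset.disjoint_left]
    intro v hv hv'
    exact (Finset.mem_sdiff.mp hv').2 (Finset.mem_sdiff.mp hv).1
  have e1 : EB θ (fun B => (F B - F0 B) * G B) =
      EB θ (fun B => F B * G B) - EB θ (fun B => F0 B * G B) := by
    rw [← EB_sub]
    congr 1
    funext B
    ring
  have e2 : EB θ (fun B => (G B - G0 B) * F0 B) =
      EB θ (fun B => F0 B * G B) - EB θ (fun B => F0 B * G0 B) := by
    rw [← EB_sub]
    congr 1
    funext B
    ring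
  rw [e1, EB_sub] at h1
  rw [e2, EB_sub, h3, Finset.inter_comm C' C] at h2
  show |EB θ (fun B => F B * G B) - EB θ F * EB θ G| ≤ _
  rw [abs_le] at h1 h2 ⊢
  constructor
  · nlinarith [h1.1, h2.1]
  · nlinarith [h1.2, h2.2]

theorem covA2 : StCovA2 := by
  intro V _ _ θ b hb hθ C C' c hc
  have hθ1 : ∀ v, 0 ≤ θ v ∧ θ v ≤ 1 := fun v => ⟨(hθ v).1, (hθ v).2.trans hb⟩
  have e1 : ∀ B : Finset V, (∑ v ∈ B ∩ C, ∑ w ∈ B ∩ C', c v w) =
      ∑ v ∈ C, ∑ w ∈ C', c v w * ((if v ∈ B then 1 else 0) * (if w ∈ B then 1 else 0)) := by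
    intro B
    rw [Finset.inter_comm B C, Finset.inter_comm B C', ← Finset.filter_mem_eq_inter,
      ← Finset.filter_mem_eq_inter, Finset.sum_filter]
    apply Finset.sum_congr rfl
    intro v _
    rw [Finset.sum_filter]
    split_ifs with h
    · apply Finset.sum_congr rfl
      intro w _
      split_ifs <;> simp
    · simp
  have e2 : EB θ (fun B => ∑ v ∈ B ∩ C, ∑ w ∈ B ∩ C', c v w) =
      ∑ v ∈ C, ∑ w ∈ C', c v w *
        EB θ (fun B => (if v ∈ B then 1 else 0) * (if w ∈ B then 1 else 0)) := by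
    simp only [e1]
    rw [EB_sum]
    apply Finset.sum_congr rfl
    intro v _
    rw [EB_sum]
    apply Finset.sum_congr rfl
    intro w _
    rw [EB_mul_left]
  rw [e2]
  have h3 : ∀ v w, c v w * EB θ (fun B => (if v ∈ B then 1 else 0) * (if w ∈ B then 1 else 0)) ≤
      b ^ 2 * c v w + (if v = w then b * c v w else 0) := by
    intro v w
    have hb0 : 0 ≤ b := (hθ v).1.trans (hθ v).2
    have hcv := hc v w
    split_ifs with h
    · subst h
      have e : EB θ (fun B => (if v ∈ B then 1 else 0) * (if v ∈ B then 1 else 0)) = θ v := by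
        rw [← EB_mem θ v]
        congr 1
        funext B
        split_ifs <;> simp
      rw [e]
      have := (hθ v).2
      have h4 : c v v * θ v ≤ c v v * b := mul_le_mul_of_nonneg_left this hcv
      have h5 : 0 ≤ b ^ 2 * c v v := by positivity
      linarith
    · rw [EB_mem2 θ v w h]
      have h4 : θ v * θ w ≤ b * b := mul_le_mul (hθ v).2 (hθ w).2 (hθ w).1 hb0
      have h5 : c v w * (θ v * θ w) ≤ c v w * (b * b) := mul_le_mul_of_nonneg_left h4 hcv
      have h6 : c v w * (b * b) = b ^ 2 * c v w + 0 := by ring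
      linarith
  calc _ ≤ ∑ v ∈ C, ∑ w ∈ C', (b ^ 2 * c v w + (if v = w then b * c v w else 0)) :=
        Finset.sum_le_sum (fun v _ => Finset.sum_le_sum (fun w _ => h3 v w))
    _ = b ^ 2 * ∑ v ∈ C, ∑ w ∈ C', c v w + b * ∑ v ∈ C ∩ C', c v v := by
        have e3 : ∀ v ∈ C, ∑ w ∈ C', (b ^ 2 * c v w + (if v = w then b * c v w else 0)) =
            b ^ 2 * ∑ w ∈ C', c v w + (if v ∈ C' then b * c v v else 0) := by
          intro v _
          rw [Finset.sum_add_distrib, ← Finset.mul_sum, Finset.sum_ite_eq]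
        rw [Finset.sum_congr rfl e3, Finset.sum_add_distrib, ← Finset.mul_sum, Finset.mul_sum (s := C ∩ C'),
          ← Finset.sum_filter, Finset.filter_mem_eq_inter]

end Pool.Agent.Helper69.VU
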