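import Pool.Agent.Helper69.VU.Spec

/-!
# Project VU, module CovB: the recursive inequality for the covariance majorant
-/

set_option autoImplicit false
set_option linter.unusedSectionVars false

namespace Pool.Agent.Helper69.VU

open Finset

section CovB87

variable {V : Type} [Fintype V] [DecidableEq V]

omit [DecidableEq V] in
lemma cb_T_mono {Nb : V → Finset V} {D : ℝ} (hD : 1 ≤ D) {f g : V → ℝ} (h : ∀ v, f v ≤ g v) (v : V) :
    T Nb D f v ≤ T Nb D g v := by
  unfold T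
  exact div_le_div_of_nonneg_right (Finset.sum_le_sum fun w _ => h w) (by linarith)

omit [DecidableEq V] in
lemma cb_iter_mono {Nb : V → Finset V} {D : ℝ} (hD : 1 ≤ D) (j : ℕ) :
    ∀ {f g : V → ℝ}, (∀ v, f v ≤ g v) → ∀ v, ((T Nb D)^[j] f) v ≤ ((T Nb D)^[j] g) v := by
  induction j with
  | zero => intro f g h v; exact h v
  | succ j ih =>
    intro f g h v
    rw [Function.iterate_succ_apply, Function.iterate_succ_apply]
    exact ih (fun v => cb_T_mono hD h v) v

omit [DecidableEq V] in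
lemma cb_T_zero (Nb : V → Finset V) (D : ℝ) : T Nb D (fun _ => 0) = fun _ => 0 := by
  funext v
  unfold T
  simp

omit [DecidableEq V] in
lemma cb_iter_zero (Nb : V → Finset V) (D : ℝ) (j : ℕ) :
    (T Nb D)^[j] (fun _ => 0) = fun _ => 0 := by
  induction j with
  | zero => rfl
  | succ j ih => rw [Function.iterate_succ_apply, cb_T_zero, ih]

omit [DecidableEq V] in
lemma cb_iter_nonneg {Nb : V → Finset V} {D : ℝ} (hD : 1 ≤ D) (j : ℕ) {f : V → ℝ}
    (h : ∀ v, 0 ≤ f v) (v : V) : 0 ≤ ((T Nb D)^[j] f) v := by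
  have := cb_iter_mono (Nb := Nb) hD j (f := fun _ => 0) (g := f) h v
  rwa [cb_iter_zero] at this

omit [DecidableEq V] in
lemma cb_T_sum {ι : Type} (Nb : V → Finset V) (D : ℝ) (s : Finset ι) (F : ι → V → ℝ) :
    T Nb D (fun u => ∑ i ∈ s, F i u) = fun u => ∑ i ∈ s, T Nb D (F i) u := by
  funext v
  unfold T
  rw [Finset.sum_comm, Finset.sum_div]

omit [DecidableEq V] in
lemma cb_iter_sum {ι : Type} (Nb : V → Finset V) (D : ℝ) (s : Finset ι) (j : ℕ) :
    ∀ (F : ι → V → ℝ), (T Nb D)^[j] (fun u => ∑ i ∈ s, F i u) =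
      fun u => ∑ i ∈ s, ((T Nb D)^[j] (F i)) u := by
  induction j with
  | zero => intro F; rfl
  | succ j ih =>
    intro F
    rw [Function.iterate_succ_apply, cb_T_sum, ih]
    rfl

omit [DecidableEq V] in
lemma cb_T_smul (Nb : V → Finset V) (D c : ℝ) (f : V → ℝ) :
    T Nb D (fun u => c * f u) = fun u => c * T Nb D f u := by
  funext v
  unfold T
  rw [← Finset.mul_sum, mul_div_assoc]

omit [DecidableEq V] in
lemma cb_iter_smul (Nb : V → Finset V) (D c : ℝ) (j : ℕ) :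
    ∀ f : V → ℝ, (T Nb D)^[j] (fun u => c * f u) = fun u => c * ((T Nb D)^[j] f) u := by
  induction j with
  | zero => intro f; rfl
  | succ j ih =>
    intro f
    rw [Function.iterate_succ_apply, cb_T_smul, ih]
    rfl

omit [DecidableEq V] in
lemma cb_iter_one {Nb : V → Finset V} {D : ℝ} (h : Nbd Nb D) (j : ℕ) :
    ∀ v, ((T Nb D)^[j] (fun _ => 1)) v ≤ 2 ^ j := by
  have hD : 0 < D := lt_of_lt_of_le one_pos h.one_le
  induction j with
  | zero => intro v; simp
  | succ j ih =>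
    intro v
    rw [Function.iterate_succ_apply']
    have h1 : T Nb D ((T Nb D)^[j] (fun _ => 1)) v ≤ T Nb D (fun _ => (2 : ℝ) ^ j) v :=
      cb_T_mono h.one_le ih v
    refine h1.trans ?_
    unfold T
    rw [Finset.sum_const, nsmul_eq_mul, div_le_iff₀ hD]
    have h2 := h.deg v
    have h3 : ((Nb v).card : ℝ) ≤ 2 * D := by linarith [h.one_le]
    have h4 : (0 : ℝ) < 2 ^ j := by positivity
    calc ((Nb v).card : ℝ) * 2 ^ j ≤ 2 * D * 2 ^ j := mul_le_mul_of_nonneg_right h3 h4.le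
      _ = 2 ^ (j + 1) * D := by rw [pow_succ]; ring

lemma cb_chi_nonneg (S : Finset V) (v : V) : 0 ≤ chi S v := by
  unfold chi; split_ifs <;> norm_num

lemma cb_chi_le (S : Finset V) (v : V) : chi S v ≤ 1 := by
  unfold chi; split_ifs <;> norm_num

/-- the `j`-th term -/
noncomputable def cbA (Nb : V → Finset V) (D : ℝ) (S S' : Finset V) (j : ℕ) : ℝ :=
  ∑ v ∈ S, ((T Nb D)^[j] (chi S')) v

lemma cbA_nonneg {Nb : V → Finset V} {D : ℝ} (hD : 1 ≤ D) (S S' : Finset V) (j : ℕ) :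
    0 ≤ cbA Nb D S S' j :=
  Finset.sum_nonneg fun v _ => cb_iter_nonneg hD j (cb_chi_nonneg S') v

lemma cb_Gam (Nb : V → Finset V) (D C : ℝ) (k : ℕ) (S S' : Finset V) :
    Gam Nb D C k S S' = C / D * ∑ j ∈ range (2 * k + 1), cbA Nb D S S' j := rfl

/-- symmetry -/
lemma cb_sum_chi {Nb : V → Finset V} {D : ℝ} (h : Nbd Nb D) (S' : Finset V) (u : V) :
    ∑ w ∈ S', chi (Nb w) u = D * T Nb D (chi S') u := by
  have hD : D ≠ 0 := (lt_of_lt_of_le one_pos h.one_le).ne'
  unfold T chi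
  rw [mul_div_cancel₀ _ hD, Finset.sum_ite_mem, Finset.sum_boole, Finset.sum_const, nsmul_eq_mul,
    mul_one]
  congr 2
  ext w
  simp only [Finset.mem_filter, Finset.mem_inter]
  constructor
  · rintro ⟨h1, h2⟩
    exact ⟨h.symm _ _ h2, h1⟩
  · rintro ⟨h1, h2⟩
    exact ⟨h2, h.symm _ _ h1⟩

lemma cb_right {Nb : V → Finset V} {D : ℝ} (h : Nbd Nb D) (S S' : Finset V) (j : ℕ) :
    ∑ w ∈ S', cbA Nb D S (Nb w) j = D * cbA Nb D S S' (j + 1) := by
  unfold cbA
  rw [Finset.sum_comm, Finset.mul_sum]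
  refine Finset.sum_congr rfl fun v _ => ?_
  have h1 := congrFun (cb_iter_sum Nb D S' j (fun w => chi (Nb w))) v
  rw [← h1]
  have h2 : (fun u => ∑ w ∈ S', chi (Nb w) u) = fun u => D * T Nb D (chi S') u := by
    funext u; exact cb_sum_chi h S' u
  rw [h2, cb_iter_smul, Function.iterate_succ_apply]

lemma cb_left {Nb : V → Finset V} {D : ℝ} (h : Nbd Nb D) (S S' : Finset V) (j : ℕ) :
    ∑ v ∈ S, cbA Nb D (Nb v) S' j = D * cbA Nb D S S' (j + 1) := by
  have hD : D ≠ 0 := (lt_of_lt_of_le one_pos h.one_le).ne'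
  unfold cbA
  rw [Finset.mul_sum]
  refine Finset.sum_congr rfl fun v _ => ?_
  rw [Function.iterate_succ_apply']
  unfold T
  rw [mul_div_cancel₀ _ hD]

end CovB87

theorem covB : StCovB := by
  intro lam C k hlam hC
  refine ⟨C * (1 + lam) ^ 2 + lam * C * (2 * k + 1) * 2 ^ (2 * k + 1) + 2 * lam, by positivity, ?_⟩
  intro V _ _ Nb D h S S'
  have hD1 := h.one_le
  have hD : 0 < D := lt_of_lt_of_le one_pos hD1
  have hA := fun j => cbA_nonneg (Nb := Nb) hD1 S S' j
  obtain ⟨R, hR⟩ : ∃ R : ℝ, R = ∑ j ∈ range (2 * (k + 1) + 1), cbA Nb D S S' j := ⟨_, rfl⟩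
  have hR0 : 0 ≤ R := by rw [hR]; exact Finset.sum_nonneg fun j _ => hA j
  -- the shifted sums
  have hs : ∀ i, i ≤ 2 → ∑ j ∈ range (2 * k + 1), cbA Nb D S S' (j + i) ≤ R := by
    intro i hi
    rw [hR, Finset.range_eq_Ico, Finset.sum_Ico_add' (fun j => cbA Nb D S S' j)]
    refine Finset.sum_le_sum_of_subset_of_nonneg (fun j hj => ?_) fun j _ _ => hA j
    rw [Finset.mem_Ico] at hj
    rw [Finset.mem_range]
    omega
  have h0 : ∑ j ∈ range (2 * k + 1), cbA Nb D S S' j ≤ R := hs 0 (by omega)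
  have h1 := hs 1 (by omega)
  have h2 := hs 2 le_rfl
  -- term 2
  have t2 : lam / D * ∑ w ∈ S', Gam Nb D C k S (Nb w) ≤ lam * C / D * R := by
    have e1 : ∑ w ∈ S', Gam Nb D C k S (Nb w) =
        C * ∑ j ∈ range (2 * k + 1), cbA Nb D S S' (j + 1) := by
      simp only [cb_Gam]
      rw [← Finset.mul_sum, Finset.sum_comm]
      rw [Finset.sum_congr rfl fun j _ => cb_right h S S' j, ← Finset.mul_sum]
      field_simp
    rw [e1]
    calc lam / D * (C * ∑ j ∈ range (2 * k + 1), cbA Nb D S S' (j + 1))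
        = lam * C / D * ∑ j ∈ range (2 * k + 1), cbA Nb D S S' (j + 1) := by ring
      _ ≤ lam * C / D * R := mul_le_mul_of_nonneg_left h1 (by positivity)
  have t3 : lam / D * ∑ v ∈ S, Gam Nb D C k (Nb v) S' ≤ lam * C / D * R := by
    have e1 : ∑ v ∈ S, Gam Nb D C k (Nb v) S' =
        C * ∑ j ∈ range (2 * k + 1), cbA Nb D S S' (j + 1) := by
      simp only [cb_Gam]
      rw [← Finset.mul_sum, Finset.sum_comm]
      rw [Finset.sum_congr rfl fun j _ => cb_left h S S' j, ← Finset.mul_sum]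
      field_simp
    rw [e1]
    calc lam / D * (C * ∑ j ∈ range (2 * k + 1), cbA Nb D S S' (j + 1))
        = lam * C / D * ∑ j ∈ range (2 * k + 1), cbA Nb D S S' (j + 1) := by ring
      _ ≤ lam * C / D * R := mul_le_mul_of_nonneg_left h1 (by positivity)
  have t4 : (lam / D) ^ 2 * ∑ v ∈ S, ∑ w ∈ S', Gam Nb D C k (Nb v) (Nb w) ≤
      lam ^ 2 * C / D * R := by
    have e1 : ∑ v ∈ S, ∑ w ∈ S', Gam Nb D C k (Nb v) (Nb w) =
        C * D * ∑ j ∈ range (2 * k + 1), cbA Nb D S S' (j + 2) := by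
      have e2 : ∀ v ∈ S, ∑ w ∈ S', Gam Nb D C k (Nb v) (Nb w) =
          C * ∑ j ∈ range (2 * k + 1), cbA Nb D (Nb v) S' (j + 1) := by
        intro v _
        simp only [cb_Gam]
        rw [← Finset.mul_sum, Finset.sum_comm]
        rw [Finset.sum_congr rfl fun j _ => cb_right h (Nb v) S' j, ← Finset.mul_sum]
        field_simp
      rw [Finset.sum_congr rfl e2, ← Finset.mul_sum, Finset.sum_comm]
      rw [Finset.sum_congr rfl fun j _ => cb_left h S S' (j + 1), ← Finset.mul_sum]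
      ring
    rw [e1]
    calc (lam / D) ^ 2 * (C * D * ∑ j ∈ range (2 * k + 1), cbA Nb D S S' (j + 2))
        = lam ^ 2 * C / D * ∑ j ∈ range (2 * k + 1), cbA Nb D S S' (j + 2) := by
          field_simp
      _ ≤ lam ^ 2 * C / D * R := mul_le_mul_of_nonneg_left h2 (by positivity)
  -- the diagonal
  have hcard : ((S ∩ S').card : ℝ) ≤ R := by
    have e1 : ((S ∩ S').card : ℝ) = cbA Nb D S S' 0 := by
      unfold cbA chi
      simp
    rw [e1, hR]
    exact Finset.single_le_sum (f := fun j => cbA Nb D S S' j) (fun j _ => hA j)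
      (Finset.mem_range.mpr (by omega))
  have hdiag : ∀ v, Gam Nb D C k (Nb v) (Nb v) ≤ C * (2 * k + 1) * 2 ^ (2 * k + 1) := by
    intro v
    rw [cb_Gam]
    have e1 : ∀ j ∈ range (2 * k + 1), cbA Nb D (Nb v) (Nb v) j ≤ 2 * D * 2 ^ (2 * k) := by
      intro j hj
      rw [Finset.mem_range] at hj
      have e2 : ∀ u, ((T Nb D)^[j] (chi (Nb v))) u ≤ 2 ^ (2 * k) := by
        intro u
        calc ((T Nb D)^[j] (chi (Nb v))) u ≤ ((T Nb D)^[j] (fun _ => 1)) u :=
              cb_iter_mono hD1 j (fun w => cb_chi_le (Nb v) w) u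
          _ ≤ 2 ^ j := cb_iter_one h j u
          _ ≤ 2 ^ (2 * k) := pow_le_pow_right₀ (by norm_num) (by omega)
      unfold cbA
      calc ∑ u ∈ Nb v, ((T Nb D)^[j] (chi (Nb v))) u ≤ ∑ u ∈ Nb v, (2 : ℝ) ^ (2 * k) :=
            Finset.sum_le_sum fun u _ => e2 u
        _ = (Nb v).card * 2 ^ (2 * k) := by rw [Finset.sum_const, nsmul_eq_mul]
        _ ≤ 2 * D * 2 ^ (2 * k) := by
            apply mul_le_mul_of_nonneg_right _ (by positivity)
            linarith [h.deg v]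
    have e3 := Finset.sum_le_sum e1
    rw [Finset.sum_const, card_range, nsmul_eq_mul] at e3
    calc C / D * ∑ j ∈ range (2 * k + 1), cbA Nb D (Nb v) (Nb v) j
        ≤ C / D * (((2 * k + 1 : ℕ) : ℝ) * (2 * D * 2 ^ (2 * k))) :=
          mul_le_mul_of_nonneg_left e3 (by positivity)
      _ = C * (2 * k + 1) * 2 ^ (2 * k + 1) := by
          rw [pow_succ]
          push_cast
          field_simp
  have t5 : lam / D * ∑ v ∈ S ∩ S', Gam Nb D C k (Nb v) (Nb v) ≤
      lam * C * (2 * k + 1) * 2 ^ (2 * k + 1) / D * R := by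
    calc lam / D * ∑ v ∈ S ∩ S', Gam Nb D C k (Nb v) (Nb v)
        ≤ lam / D * ∑ v ∈ S ∩ S', (C * (2 * k + 1) * 2 ^ (2 * k + 1)) :=
          mul_le_mul_of_nonneg_left (Finset.sum_le_sum fun v _ => hdiag v) (by positivity)
      _ = lam * C * (2 * k + 1) * 2 ^ (2 * k + 1) / D * ((S ∩ S').card : ℝ) := by
          rw [Finset.sum_const, nsmul_eq_mul]; ring
      _ ≤ lam * C * (2 * k + 1) * 2 ^ (2 * k + 1) / D * R :=
          mul_le_mul_of_nonneg_left hcard (by positivity)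
  have t6 : 2 * (lam / D) * ((S ∩ S').card : ℝ) ≤ 2 * lam / D * R := by
    calc 2 * (lam / D) * ((S ∩ S').card : ℝ) = 2 * lam / D * ((S ∩ S').card : ℝ) := by ring
      _ ≤ 2 * lam / D * R := mul_le_mul_of_nonneg_left hcard (by positivity)
  have t1 : Gam Nb D C k S S' ≤ C / D * R := by
    rw [cb_Gam]
    exact mul_le_mul_of_nonneg_left h0 (by positivity)
  have e : Gam Nb D (C * (1 + lam) ^ 2 + lam * C * (2 * k + 1) * 2 ^ (2 * k + 1) + 2 * lam)
      (k + 1) S S' = C / D * R + lam * C / D * R + lam * C / D * R + lam ^ 2 * C / D * R +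
      lam * C * (2 * k + 1) * 2 ^ (2 * k + 1) / D * R + 2 * lam / D * R := by
    rw [cb_Gam, ← hR]
    ring
  rw [e]
  linarith

end Pool.Agent.Helper69.VU
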