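import Pool.Agent.Helper69.VU.Spec

/-!
# Project VU, module COV-c: decorrelation by induction on the number of steps
-/

set_option autoImplicit false

namespace Pool.Agent.Helper69.VU

open Finset

namespace CovCm

variable {V : Type} [Fintype V] [DecidableEq V]

/-! ## Exchanging the two expectations -/

lemma covc_swap (L : List (V → ℝ)) (θ : V → ℝ) (f : Finset V → List (Finset V) → ℝ) :
    EL L (fun h => EB θ (fun B => f B h)) = EB θ (fun B => EL L (fun h => f B h)) := by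
  unfold EB
  rw [EL_sum]
  exact Finset.sum_congr rfl (fun B _ => EL_mul_left L (wt θ B) (fun h => f B h))

lemma covc_cons (L : List (V → ℝ)) (θ : V → ℝ) (f : List (Finset V) → ℝ) :
    EL (θ :: L) f = EB θ (fun B => EL L (fun h => f (B :: h))) :=
  covc_swap L θ (fun B h => f (B :: h))

/-! ## Statuses -/

/-- the statuses of all sets -/
def stt (Nb : V → Finset V) (h : List (Finset V)) (S : Finset V) : Bool :=
  decide (Disjoint S (fired Nb h))

/-- the update of the statuses in one step -/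
def upd (Nb : V → Finset V) (B : Finset V) (a : Finset V → Bool) (S : Finset V) : Bool :=
  a S && decide (∀ v ∈ B ∩ S, a (Nb v) = false)

lemma covc_alive (Nb : V → Finset V) (h : List (Finset V)) (v : V) :
    v ∈ alive Nb h ↔ Disjoint (Nb v) (fired Nb h) := by
  induction h with
  | nil => simp [alive, fired]
  | cons B h ih =>
    rw [alive, mem_filter, ih, fired, Finset.disjoint_union_right]
    tauto

lemma stt_cons (Nb : V → Finset V) (B : Finset V) (h : List (Finset V)) :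
    stt Nb (B :: h) = upd Nb B (stt Nb h) := by
  funext S
  rw [Bool.eq_iff_iff]
  unfold upd
  rw [Bool.and_eq_true]
  unfold stt
  simp only [decide_eq_true_eq, decide_eq_false_iff_not]
  rw [fired, Finset.disjoint_union_right]
  constructor
  · rintro ⟨h1, h2⟩
    refine ⟨h2, ?_⟩
    intro v hv
    rw [← covc_alive]
    intro ha
    rw [mem_inter] at hv
    exact Finset.disjoint_left.mp h1 hv.2 (mem_inter.mpr ⟨hv.1, ha⟩)
  · rintro ⟨h1, h2⟩
    refine ⟨?_, h1⟩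
    rw [Finset.disjoint_left]
    intro v hv hv'
    rw [mem_inter] at hv'
    have := h2 v (mem_inter.mpr ⟨hv'.1, hv⟩)
    rw [← covc_alive] at this
    exact this hv'.2

/-! ## Sums over unions -/

omit [Fintype V] in
lemma sum_biUnion_le_sum {ι : Type} [DecidableEq ι] (F : Finset ι) (g : ι → Finset V)
    (c : V → ℝ) (hc : ∀ v, 0 ≤ c v) :
    ∑ v ∈ F.biUnion g, c v ≤ ∑ S ∈ F, ∑ v ∈ g S, c v := by
  induction F using Finset.induction_on with
  | empty => simp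
  | insert S F hS ih =>
    rw [Finset.biUnion_insert, Finset.sum_insert hS]
    have h1 := Finset.sum_union_inter (s₁ := g S) (s₂ := F.biUnion g) (f := c)
    have h2 : 0 ≤ ∑ v ∈ g S ∩ F.biUnion g, c v := Finset.sum_nonneg (fun v _ => hc v)
    linarith

omit [Fintype V] in
lemma sum_inter_biUnion_le (F F' : Finset (Finset V)) (c : V → ℝ) (hc : ∀ v, 0 ≤ c v) :
    ∑ v ∈ F.biUnion id ∩ F'.biUnion id, c v ≤ ∑ S ∈ F, ∑ S' ∈ F', ∑ v ∈ S ∩ S', c v := by
  have e1 : F.biUnion id ∩ F'.biUnion id =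
      F.biUnion (fun S => F'.biUnion (fun S' => S ∩ S')) := by
    ext v
    simp only [mem_inter, mem_biUnion, id]
    constructor
    · rintro ⟨⟨S, hS, hv⟩, ⟨S', hS', hv'⟩⟩
      exact ⟨S, hS, S', hS', hv, hv'⟩
    · rintro ⟨S, hS, S', hS', hv, hv'⟩
      exact ⟨⟨S, hS, hv⟩, ⟨S', hS', hv'⟩⟩
  rw [e1]
  refine (sum_biUnion_le_sum F _ c hc).trans ?_
  apply Finset.sum_le_sum
  intro S _
  exact sum_biUnion_le_sum F' _ c hc

omit [Fintype V] in
lemma sum_biUnion2_le (F F' : Finset (Finset V)) (c : V → V → ℝ) (hc : ∀ v w, 0 ≤ c v w) :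
    ∑ v ∈ F.biUnion id, ∑ w ∈ F'.biUnion id, c v w ≤
      ∑ S ∈ F, ∑ S' ∈ F', ∑ v ∈ S, ∑ w ∈ S', c v w := by
  refine (sum_biUnion_le_sum F id (fun v => ∑ w ∈ F'.biUnion id, c v w)
    (fun v => Finset.sum_nonneg (fun w _ => hc v w))).trans ?_
  apply Finset.sum_le_sum
  intro S _
  rw [Finset.sum_comm (s := F') (t := S)]
  exact Finset.sum_le_sum (fun v _ => sum_biUnion_le_sum F' id (c v) (hc v))

omit [Fintype V] in
/-- sums over a union of a family and an image -/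
lemma sum_union_image_le (F : Finset (Finset V)) (A : Finset V) (Nb : V → Finset V)
    (c : Finset V → ℝ) (hc : ∀ S, 0 ≤ c S) :
    ∑ S ∈ F ∪ A.image Nb, c S ≤ ∑ S ∈ F, c S + ∑ v ∈ A, c (Nb v) := by
  have h1 := Finset.sum_union_inter (s₁ := F) (s₂ := A.image Nb) (f := c)
  have h2 : 0 ≤ ∑ S ∈ F ∩ A.image Nb, c S := Finset.sum_nonneg (fun S _ => hc S)
  have h3 : ∑ S ∈ A.image Nb, c S ≤ ∑ v ∈ A, c (Nb v) := by
    classical
    rw [← Finset.sum_fiberwise_of_maps_to (s := A) (t := A.image Nb) (g := Nb)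
      (fun v hv => mem_image_of_mem Nb hv)]
    apply Finset.sum_le_sum
    intro S hS
    rw [mem_image] at hS
    obtain ⟨v, hv, rfl⟩ := hS
    refine Finset.single_le_sum (f := fun w => c (Nb w)) (s := A.filter (fun w => Nb w = Nb v))
      (fun w _ => hc (Nb w)) ?_
    rw [mem_filter]
    exact ⟨hv, rfl⟩
  linarith

/-! ## Positivity of the majorant -/

omit [Fintype V] [DecidableEq V] in
lemma T_nonneg (Nb : V → Finset V) (D : ℝ) (hD : 0 ≤ D) (f : V → ℝ) (hf : ∀ v, 0 ≤ f v) (v : V) :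
    0 ≤ T Nb D f v :=
  div_nonneg (Finset.sum_nonneg (fun w _ => hf w)) hD

omit [Fintype V] [DecidableEq V] in
lemma T_iter_nonneg (Nb : V → Finset V) (D : ℝ) (hD : 0 ≤ D) (j : ℕ) (f : V → ℝ)
    (hf : ∀ v, 0 ≤ f v) (v : V) : 0 ≤ ((T Nb D)^[j] f) v := by
  induction j generalizing f with
  | zero => exact hf v
  | succ j ih =>
    rw [Function.iterate_succ_apply]
    exact ih _ (T_nonneg Nb D hD f hf)

lemma Gam_nonneg (Nb : V → Finset V) (D C : ℝ) (hD : 0 ≤ D) (hC : 0 ≤ C) (k : ℕ)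
    (S S' : Finset V) : 0 ≤ Gam Nb D C k S S' := by
  unfold Gam W
  apply mul_nonneg (div_nonneg hC hD)
  apply Finset.sum_nonneg
  intro j _
  apply Finset.sum_nonneg
  intro v _
  apply T_iter_nonneg Nb D hD
  intro w
  unfold chi
  split_ifs <;> norm_num

/-! ## One random set -/

lemma EB_sum_inter_le (θ : V → ℝ) (b : ℝ) (hb : ∀ v, θ v ≤ b) (C : Finset V) (c : V → ℝ)
    (hc : ∀ v, 0 ≤ c v) :
    EB θ (fun B => ∑ v ∈ B ∩ C, c v) ≤ b * ∑ v ∈ C, c v := by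
  have e : (fun B : Finset V => ∑ v ∈ B ∩ C, c v) =
      (fun B => ∑ v ∈ C, (if v ∈ B then 1 else 0) * c v) := by
    funext B
    rw [Finset.inter_comm, ← Finset.filter_mem_eq_inter, Finset.sum_filter]
    exact Finset.sum_congr rfl (fun v _ => by split_ifs <;> simp)
  rw [e, EB_sum, Finset.mul_sum]
  apply Finset.sum_le_sum
  intro v _
  rw [EB_mul_right, EB_mem]
  exact mul_le_mul_of_nonneg_right (hb v) (hc v)

/-! ## The general statement -/

/-- `φ` depends only on the values on the family `F` -/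
def Dep (F : Finset (Finset V)) (φ : (Finset V → Bool) → ℝ) : Prop :=
  ∀ a b : Finset V → Bool, (∀ S ∈ F, a S = b S) → φ a = φ b

/-- covariance bound for functions of the statuses of two families -/
def CovGen (lam : ℝ) (k : ℕ) (C : ℝ) : Prop :=
  ∀ (V : Type) [Fintype V] [DecidableEq V] (Nb : V → Finset V) (D : ℝ), Nbd Nb D →
    lam ≤ D → ∀ L : List (V → ℝ), L.length = k → AdmL L (lam / D) →
    ∀ (F F' : Finset (Finset V)) (φ ψ : (Finset V → Bool) → ℝ),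
      (∀ a, 0 ≤ φ a ∧ φ a ≤ 1) → (∀ a, 0 ≤ ψ a ∧ ψ a ≤ 1) → Dep F φ → Dep F' ψ →
      |EL L (fun h => φ (stt Nb h) * ψ (stt Nb h)) -
        EL L (fun h => φ (stt Nb h)) * EL L (fun h => ψ (stt Nb h))| ≤
        ∑ S ∈ F, ∑ S' ∈ F', Gam Nb D C k S S'

lemma upd_dep (Nb : V → Finset V) (B : Finset V) (F : Finset (Finset V))
    (φ : (Finset V → Bool) → ℝ) (hφ : Dep F φ) :
    Dep (F ∪ (B ∩ F.biUnion id).image Nb) (fun a => φ (upd Nb B a)) := by
  intro a b hab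
  apply hφ
  intro S hS
  have h1 : a S = b S := hab S (mem_union_left _ hS)
  have h2 : ∀ v ∈ B ∩ S, a (Nb v) = b (Nb v) := by
    intro v hv
    rw [mem_inter] at hv
    apply hab
    apply mem_union_right
    apply mem_image_of_mem
    rw [mem_inter, mem_biUnion]
    exact ⟨hv.1, S, hS, hv.2⟩
  unfold upd
  rw [h1]
  congr 1
  apply decide_eq_decide.mpr
  constructor
  · intro h v hv
    rw [← h2 v hv]
    exact h v hv
  · intro h v hv
    rw [h2 v hv]
    exact h v hv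

lemma upd_inter (Nb : V → Finset V) (B : Finset V) (F : Finset (Finset V))
    (φ : (Finset V → Bool) → ℝ) (hφ : Dep F φ) (a : Finset V → Bool) :
    φ (upd Nb B a) = φ (upd Nb (B ∩ F.biUnion id) a) := by
  apply hφ
  intro S hS
  have e : B ∩ F.biUnion id ∩ S = B ∩ S := by
    ext v
    simp only [mem_inter, mem_biUnion, id]
    constructor
    · rintro ⟨⟨h1, _⟩, h2⟩
      exact ⟨h1, h2⟩
    · rintro ⟨h1, h2⟩
      exact ⟨⟨h1, S, hS, h2⟩, h2⟩
  unfold upd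
  rw [e]

lemma covGen_step (hA : StCovA) (hA2 : StCovA2) (lam C C' : ℝ) (k : ℕ) (hlam : 0 ≤ lam)
    (hC : 0 ≤ C)
    (hB : ∀ (V : Type) [Fintype V] [DecidableEq V] (Nb : V → Finset V) (D : ℝ), Nbd Nb D →
      ∀ S S' : Finset V,
        Gam Nb D C k S S' + lam / D * ∑ w ∈ S', Gam Nb D C k S (Nb w) +
          lam / D * ∑ v ∈ S, Gam Nb D C k (Nb v) S' +
          (lam / D) ^ 2 * ∑ v ∈ S, ∑ w ∈ S', Gam Nb D C k (Nb v) (Nb w) +
          lam / D * ∑ v ∈ S ∩ S', Gam Nb D C k (Nb v) (Nb v) +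
          2 * (lam / D) * ((S ∩ S').card : ℝ) ≤ Gam Nb D C' (k + 1) S S')
    (ih : CovGen lam k C) : CovGen lam (k + 1) C' := by
  intro V _ _ Nb D hNb hlD L hL hAdm F F' φ ψ hφ hψ hF hF'
  cases L with
  | nil => simp at hL
  | cons θ L =>
  have hL' : L.length = k := by simpa using hL
  have hD : 0 < D := lt_of_lt_of_le one_pos hNb.one_le
  have hb0 : 0 ≤ lam / D := div_nonneg hlam hD.le
  have hb1 : lam / D ≤ 1 := by rw [div_le_one hD]; exact hlD
  have hθ : ∀ v, 0 ≤ θ v ∧ θ v ≤ lam / D := hAdm θ List.mem_cons_self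
  have hθ1 : ∀ v, 0 ≤ θ v ∧ θ v ≤ 1 := fun v => ⟨(hθ v).1, (hθ v).2.trans hb1⟩
  have hAdm' : AdmL L (lam / D) := fun θ' h' => hAdm θ' (List.mem_cons_of_mem _ h')
  have hAdm1 : AdmL L 1 := fun θ' h' v => ⟨(hAdm' θ' h' v).1, (hAdm' θ' h' v).2.trans hb1⟩
  set UF := F.biUnion id with hUF
  set UF' := F'.biUnion id with hUF'
  -- rewriting the expectations
  have e1 : EL (θ :: L) (fun h => φ (stt Nb h) * ψ (stt Nb h)) =
      EB θ (fun B => EL L (fun h => φ (upd Nb B (stt Nb h)) * ψ (upd Nb B (stt Nb h)))) := by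
    rw [covc_cons]
    simp only [stt_cons]
  have e2 : EL (θ :: L) (fun h => φ (stt Nb h)) =
      EB θ (fun B => EL L (fun h => φ (upd Nb B (stt Nb h)))) := by
    rw [covc_cons]
    simp only [stt_cons]
  have e3 : EL (θ :: L) (fun h => ψ (stt Nb h)) =
      EB θ (fun B => EL L (fun h => ψ (upd Nb B (stt Nb h)))) := by
    rw [covc_cons]
    simp only [stt_cons]
  set f : Finset V → ℝ := fun B => EL L (fun h => φ (upd Nb B (stt Nb h))) with hf
  set g : Finset V → ℝ := fun B => EL L (fun h => ψ (upd Nb B (stt Nb h))) with hg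
  have hf01 : ∀ B, 0 ≤ f B ∧ f B ≤ 1 := fun B =>
    ⟨EL_nonneg L hAdm1 _ (fun x _ => (hφ _).1), EL_le_const L hAdm1 _ 1 (fun x _ => (hφ _).2)⟩
  have hg01 : ∀ B, 0 ≤ g B ∧ g B ≤ 1 := fun B =>
    ⟨EL_nonneg L hAdm1 _ (fun x _ => (hψ _).1), EL_le_const L hAdm1 _ 1 (fun x _ => (hψ _).2)⟩
  have hfU : ∀ B, f B = f (B ∩ UF) := by
    intro B
    simp only [hf]
    congr 1
    funext h
    exact upd_inter Nb B F φ hF _
  have hgU : ∀ B, g B = g (B ∩ UF') := by
    intro B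
    simp only [hg]
    congr 1
    funext h
    exact upd_inter Nb B F' ψ hF' _
  -- the second term
  have hsecond : |EB θ (fun B => f B * g B) - EB θ f * EB θ g| ≤
      2 * ∑ v ∈ UF ∩ UF', θ v := by
    have h := hA V θ hθ1 UF UF' f g hf01 hg01
    have r1 : (fun B : Finset V => f (B ∩ UF) * g (B ∩ UF')) = (fun B => f B * g B) := by
      funext B
      rw [← hfU, ← hgU]
    have r2 : (fun B : Finset V => f (B ∩ UF)) = f := by
      funext B
      rw [← hfU]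
    have r3 : (fun B : Finset V => g (B ∩ UF')) = g := by
      funext B
      rw [← hgU]
    rw [r1, r2, r3] at h
    exact h
  have hsecond' : 2 * ∑ v ∈ UF ∩ UF', θ v ≤
      ∑ S ∈ F, ∑ S' ∈ F', 2 * (lam / D) * ((S ∩ S').card : ℝ) := by
    have h1 : ∑ v ∈ UF ∩ UF', θ v ≤ ∑ v ∈ UF ∩ UF', lam / D :=
      Finset.sum_le_sum (fun v _ => (hθ v).2)
    have h2 := sum_inter_biUnion_le F F' (fun _ => lam / D) (fun _ => hb0)
    have h3 : ∑ S ∈ F, ∑ S' ∈ F', 2 * (lam / D) * ((S ∩ S').card : ℝ) =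
        2 * ∑ S ∈ F, ∑ S' ∈ F', ∑ v ∈ S ∩ S', lam / D := by
      rw [Finset.mul_sum]
      apply Finset.sum_congr rfl
      intro S _
      rw [Finset.mul_sum]
      apply Finset.sum_congr rfl
      intro S' _
      rw [Finset.sum_const, nsmul_eq_mul]
      ring
    rw [h3]
    have h4 := h1.trans h2
    linarith
  -- the first term
  have hG0 : ∀ S S', 0 ≤ Gam Nb D C k S S' := fun S S' => Gam_nonneg Nb D C hD.le hC k S S'
  have hfirst : |EB θ (fun B => EL L (fun h => φ (upd Nb B (stt Nb h)) * ψ (upd Nb B (stt Nb h)))) -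
      EB θ (fun B => f B * g B)| ≤
      EB θ (fun B => ∑ S ∈ F, ∑ S' ∈ F', Gam Nb D C k S S' +
        ∑ w ∈ B ∩ UF', ∑ S ∈ F, Gam Nb D C k S (Nb w) +
        ∑ v ∈ B ∩ UF, ∑ S' ∈ F', Gam Nb D C k (Nb v) S' +
        ∑ v ∈ B ∩ UF, ∑ w ∈ B ∩ UF', Gam Nb D C k (Nb v) (Nb w)) := by
    rw [← EB_sub]
    refine (EB_abs_le θ hθ1 _).trans ?_
    apply EB_mono θ hθ1
    intro B
    have h1 := ih V Nb D hNb hlD L hL' hAdm' (F ∪ (B ∩ UF).image Nb) (F' ∪ (B ∩ UF').image Nb)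
      (fun a => φ (upd Nb B a)) (fun a => ψ (upd Nb B a)) (fun a => hφ _) (fun a => hψ _)
      (upd_dep Nb B F φ hF) (upd_dep Nb B F' ψ hF')
    refine h1.trans ?_
    refine (sum_union_image_le F (B ∩ UF) Nb
      (fun S => ∑ S' ∈ F' ∪ (B ∩ UF').image Nb, Gam Nb D C k S S')
      (fun S => Finset.sum_nonneg (fun S' _ => hG0 S S'))).trans ?_
    have h2 : ∑ S ∈ F, ∑ S' ∈ F' ∪ (B ∩ UF').image Nb, Gam Nb D C k S S' ≤
        ∑ S ∈ F, (∑ S' ∈ F', Gam Nb D C k S S' + ∑ w ∈ B ∩ UF', Gam Nb D C k S (Nb w)) :=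
      Finset.sum_le_sum (fun S _ => sum_union_image_le F' (B ∩ UF') Nb _ (hG0 S))
    have h3 : ∑ v ∈ B ∩ UF, ∑ S' ∈ F' ∪ (B ∩ UF').image Nb, Gam Nb D C k (Nb v) S' ≤
        ∑ v ∈ B ∩ UF, (∑ S' ∈ F', Gam Nb D C k (Nb v) S' +
          ∑ w ∈ B ∩ UF', Gam Nb D C k (Nb v) (Nb w)) :=
      Finset.sum_le_sum (fun v _ => sum_union_image_le F' (B ∩ UF') Nb _ (hG0 (Nb v)))
    rw [Finset.sum_add_distrib] at h2 h3
    rw [Finset.sum_comm (s := F) (t := B ∩ UF')] at h2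
    linarith
  have hfirst' : EB θ (fun B => ∑ S ∈ F, ∑ S' ∈ F', Gam Nb D C k S S' +
        ∑ w ∈ B ∩ UF', ∑ S ∈ F, Gam Nb D C k S (Nb w) +
        ∑ v ∈ B ∩ UF, ∑ S' ∈ F', Gam Nb D C k (Nb v) S' +
        ∑ v ∈ B ∩ UF, ∑ w ∈ B ∩ UF', Gam Nb D C k (Nb v) (Nb w)) ≤
      ∑ S ∈ F, ∑ S' ∈ F', Gam Nb D C k S S' +
      lam / D * ∑ S ∈ F, ∑ S' ∈ F', ∑ w ∈ S', Gam Nb D C k S (Nb w) +
      lam / D * ∑ S ∈ F, ∑ S' ∈ F', ∑ v ∈ S, Gam Nb D C k (Nb v) S' +
      ((lam / D) ^ 2 * ∑ S ∈ F, ∑ S' ∈ F', ∑ v ∈ S, ∑ w ∈ S', Gam Nb D C k (Nb v) (Nb w) +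
       lam / D * ∑ S ∈ F, ∑ S' ∈ F', ∑ v ∈ S ∩ S', Gam Nb D C k (Nb v) (Nb v)) := by
    rw [EB_add, EB_add, EB_add, EB_const]
    have t1 : EB θ (fun B => ∑ w ∈ B ∩ UF', ∑ S ∈ F, Gam Nb D C k S (Nb w)) ≤
        lam / D * ∑ S ∈ F, ∑ S' ∈ F', ∑ w ∈ S', Gam Nb D C k S (Nb w) := by
      refine (EB_sum_inter_le θ (lam / D) (fun v => (hθ v).2) UF' _
        (fun w => Finset.sum_nonneg (fun S _ => hG0 S (Nb w)))).trans ?_
      apply mul_le_mul_of_nonneg_left _ hb0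
      refine (sum_biUnion_le_sum F' id _
        (fun w => Finset.sum_nonneg (fun S _ => hG0 S (Nb w)))).trans ?_
      rw [Finset.sum_comm (s := F) (t := F')]
      apply Finset.sum_le_sum
      intro S' _
      simp only [id]
      rw [Finset.sum_comm]
    have t2 : EB θ (fun B => ∑ v ∈ B ∩ UF, ∑ S' ∈ F', Gam Nb D C k (Nb v) S') ≤
        lam / D * ∑ S ∈ F, ∑ S' ∈ F', ∑ v ∈ S, Gam Nb D C k (Nb v) S' := by
      refine (EB_sum_inter_le θ (lam / D) (fun v => (hθ v).2) UF _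
        (fun v => Finset.sum_nonneg (fun S' _ => hG0 (Nb v) S'))).trans ?_
      apply mul_le_mul_of_nonneg_left _ hb0
      refine (sum_biUnion_le_sum F id _
        (fun v => Finset.sum_nonneg (fun S' _ => hG0 (Nb v) S'))).trans ?_
      apply Finset.sum_le_sum
      intro S _
      simp only [id]
      rw [Finset.sum_comm]
    have t3 : EB θ (fun B => ∑ v ∈ B ∩ UF, ∑ w ∈ B ∩ UF', Gam Nb D C k (Nb v) (Nb w)) ≤
        (lam / D) ^ 2 * ∑ S ∈ F, ∑ S' ∈ F', ∑ v ∈ S, ∑ w ∈ S', Gam Nb D C k (Nb v) (Nb w) +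
       lam / D * ∑ S ∈ F, ∑ S' ∈ F', ∑ v ∈ S ∩ S', Gam Nb D C k (Nb v) (Nb v) := by
      refine (hA2 V θ (lam / D) hb1 hθ UF UF' (fun v w => Gam Nb D C k (Nb v) (Nb w))
        (fun v w => hG0 _ _)).trans ?_
      apply add_le_add
      · apply mul_le_mul_of_nonneg_left _ (sq_nonneg _)
        exact sum_biUnion2_le F F' _ (fun v w => hG0 _ _)
      · apply mul_le_mul_of_nonneg_left _ hb0
        exact sum_inter_biUnion_le F F' (fun v => Gam Nb D C k (Nb v) (Nb v)) (fun v => hG0 _ _)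
    linarith
  -- assembly
  have hfin : ∑ S ∈ F, ∑ S' ∈ F', Gam Nb D C k S S' +
      lam / D * ∑ S ∈ F, ∑ S' ∈ F', ∑ w ∈ S', Gam Nb D C k S (Nb w) +
      lam / D * ∑ S ∈ F, ∑ S' ∈ F', ∑ v ∈ S, Gam Nb D C k (Nb v) S' +
      ((lam / D) ^ 2 * ∑ S ∈ F, ∑ S' ∈ F', ∑ v ∈ S, ∑ w ∈ S', Gam Nb D C k (Nb v) (Nb w) +
       lam / D * ∑ S ∈ F, ∑ S' ∈ F', ∑ v ∈ S ∩ S', Gam Nb D C k (Nb v) (Nb v)) +
      ∑ S ∈ F, ∑ S' ∈ F', 2 * (lam / D) * ((S ∩ S').card : ℝ) ≤
      ∑ S ∈ F, ∑ S' ∈ F', Gam Nb D C' (k + 1) S S' := by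
    have h1 : ∑ S ∈ F, ∑ S' ∈ F',
        (Gam Nb D C k S S' + lam / D * ∑ w ∈ S', Gam Nb D C k S (Nb w) +
          lam / D * ∑ v ∈ S, Gam Nb D C k (Nb v) S' +
          (lam / D) ^ 2 * ∑ v ∈ S, ∑ w ∈ S', Gam Nb D C k (Nb v) (Nb w) +
          lam / D * ∑ v ∈ S ∩ S', Gam Nb D C k (Nb v) (Nb v) +
          2 * (lam / D) * ((S ∩ S').card : ℝ)) ≤
        ∑ S ∈ F, ∑ S' ∈ F', Gam Nb D C' (k + 1) S S' :=
      Finset.sum_le_sum (fun S _ => Finset.sum_le_sum (fun S' _ => hB V Nb D hNb S S'))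
    refine le_trans (le_of_eq ?_) h1
    simp only [Finset.sum_add_distrib, ← Finset.mul_sum]
    ring
  rw [e1, e2, e3]
  have habs : EB θ (fun B => EL L (fun h => φ (upd Nb B (stt Nb h)) * ψ (upd Nb B (stt Nb h)))) -
      EB θ f * EB θ g =
      (EB θ (fun B => EL L (fun h => φ (upd Nb B (stt Nb h)) * ψ (upd Nb B (stt Nb h)))) -
        EB θ (fun B => f B * g B)) + (EB θ (fun B => f B * g B) - EB θ f * EB θ g) := by ring
  rw [habs]
  refine (abs_add_le _ _).trans ?_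
  have q1 := hfirst.trans hfirst'
  have q2 := hsecond.trans hsecond'
  linarith

lemma covGen_zero (lam : ℝ) : CovGen lam 0 0 := by
  intro V _ _ Nb D hNb hlD L hL hAdm F F' φ ψ hφ hψ hF hF'
  have : L = [] := List.length_eq_zero_iff.mp hL
  subst this
  show |φ (stt Nb []) * ψ (stt Nb []) - φ (stt Nb []) * ψ (stt Nb [])| ≤ _
  rw [sub_self, abs_zero]
  apply Finset.sum_nonneg
  intro S _
  apply Finset.sum_nonneg
  intro S' _
  exact Gam_nonneg Nb D 0 (zero_le_one.trans hNb.one_le) le_rfl 0 S S'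

lemma covGen_exists (hA : StCovA) (hA2 : StCovA2) (hB : StCovB) (lam : ℝ) (hlam : 0 ≤ lam)
    (k : ℕ) : ∃ C : ℝ, 0 ≤ C ∧ CovGen lam k C := by
  induction k with
  | zero => exact ⟨0, le_rfl, covGen_zero lam⟩
  | succ k ih =>
    obtain ⟨C, hC, hgen⟩ := ih
    obtain ⟨C', hC', hB'⟩ := hB lam C k hlam hC
    exact ⟨C', hC', covGen_step hA hA2 lam C C' k hlam hC hB' hgen⟩

end CovCm

open CovCm in
theorem covC : StCovC := by
  intro hA hA2 hB lam k hlam
  obtain ⟨C, hC, hgen⟩ := covGen_exists hA hA2 hB lam hlam k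
  refine ⟨C, hC, ?_⟩
  intro V _ _ Nb D hNb _ hlD L hL hAdm S S'
  have h := hgen V Nb D hNb hlD L hL hAdm {S} {S'} (fun a => if a S = true then 1 else 0)
    (fun a => if a S' = true then 1 else 0)
    (fun a => by show (0 : ℝ) ≤ _ ∧ _ ≤ (1 : ℝ); split_ifs <;> norm_num)
    (fun a => by show (0 : ℝ) ≤ _ ∧ _ ≤ (1 : ℝ); split_ifs <;> norm_num)
    (fun a b hab => by simp only [hab S (mem_singleton_self S)])
    (fun a b hab => by simp only [hab S' (mem_singleton_self S')])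
  have e : ∀ S : Finset V, (fun h : List (Finset V) => if stt Nb h S = true then (1 : ℝ) else 0) =
      un Nb S := by
    intro S
    funext h
    unfold stt un
    simp only [decide_eq_true_eq]
  have e2 : ∀ h : List (Finset V), ∀ S : Finset V,
      (if stt Nb h S = true then (1 : ℝ) else 0) = un Nb S h := fun h S => congrFun (e S) h
  simp only [e2] at h
  simp only [Finset.sum_singleton] at h
  exact h

end Pool.Agent.Helper69.VU
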