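import Pool.Agent.Helper69.VU.Spec

/-!
# Project VU: the deterministic thresholds
-/

set_option autoImplicit false

namespace Pool.Agent.Helper69.VU

open Finset

namespace DetAux

variable {V : Type} [Fintype V] [DecidableEq V]

omit [Fintype V] [DecidableEq V] in
theorem T_mono (Nb : V → Finset V) {D : ℝ} (hD : 0 < D) {f g : V → ℝ} (h : ∀ v, f v ≤ g v)
    (v : V) : T Nb D f v ≤ T Nb D g v := by
  unfold T
  exact div_le_div_of_nonneg_right (sum_le_sum fun w _ => h w) hD.le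

omit [Fintype V] [DecidableEq V] in
theorem iter_mono (Nb : V → Finset V) {D : ℝ} (hD : 0 < D) (j : ℕ) {f g : V → ℝ}
    (h : ∀ v, f v ≤ g v) (v : V) : ((T Nb D)^[j] f) v ≤ ((T Nb D)^[j] g) v := by
  induction j generalizing f g with
  | zero => exact h v
  | succ j ih => exact ih (T_mono Nb hD h)

omit [Fintype V] [DecidableEq V] in
theorem iter_smul (Nb : V → Finset V) (D : ℝ) (j : ℕ) (c : ℝ) (f : V → ℝ) :
    (T Nb D)^[j] (fun w => c * f w) = fun w => c * ((T Nb D)^[j] f) w := by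
  induction j generalizing f with
  | zero => rfl
  | succ j ih =>
    have h1 : T Nb D (fun w => c * f w) = fun w => c * T Nb D f w := by
      funext w
      unfold T
      rw [← mul_sum, mul_div_assoc]
    rw [Function.iterate_succ_apply, Function.iterate_succ_apply, h1, ih]

omit [Fintype V] [DecidableEq V] in
theorem iter_sum (Nb : V → Finset V) (D : ℝ) (j : ℕ) {ι : Type} (s : Finset ι) (f : ι → V → ℝ) :
    (T Nb D)^[j] (fun w => ∑ i ∈ s, f i w) = fun w => ∑ i ∈ s, ((T Nb D)^[j] (f i)) w := by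
  induction j generalizing f with
  | zero => rfl
  | succ j ih =>
    have h1 : T Nb D (fun w => ∑ i ∈ s, f i w) = fun w => ∑ i ∈ s, T Nb D (f i) w := by
      funext w
      unfold T
      rw [sum_comm, sum_div]
    rw [Function.iterate_succ_apply, h1, ih]
    rfl

omit [Fintype V] [DecidableEq V] in
theorem iter_nonneg (Nb : V → Finset V) {D : ℝ} (hD : 0 < D) (j : ℕ) {f : V → ℝ}
    (h : ∀ v, 0 ≤ f v) (v : V) : 0 ≤ ((T Nb D)^[j] f) v := by
  induction j generalizing f with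
  | zero => exact h v
  | succ j ih =>
    refine ih fun w => ?_
    unfold T
    exact div_nonneg (sum_nonneg fun u _ => h u) hD.le

omit [DecidableEq V] in
theorem sum_T_le (Nb : V → Finset V) {D : ℝ} (hN : Nbd Nb D) {f : V → ℝ} (h : ∀ v, 0 ≤ f v) :
    ∑ w, T Nb D f w ≤ 2 * ∑ w, f w := by
  have hD : 0 < D := by linarith [hN.one_le]
  have h1 : ∑ w, T Nb D f w = ∑ u, ((Nb u).card : ℝ) / D * f u := by
    unfold T
    rw [← sum_div]
    have h2 : ∑ w, ∑ u ∈ Nb w, f u = ∑ u, ∑ w ∈ Nb u, f u :=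
      sum_comm' fun w u => by
        constructor
        · rintro ⟨-, h⟩
          exact ⟨hN.symm w u h, mem_univ u⟩
        · rintro ⟨h, -⟩
          exact ⟨mem_univ w, hN.symm u w h⟩
    rw [h2, sum_div]
    refine sum_congr rfl fun u _ => ?_
    rw [sum_const, nsmul_eq_mul]
    ring
  rw [h1, mul_sum]
  refine sum_le_sum fun u _ => mul_le_mul_of_nonneg_right ?_ (h u)
  rw [div_le_iff₀ hD]
  linarith [hN.deg u, hN.one_le]

/-- the function `a` -/
noncomputable def av (Nb : V → Finset V) (D : ℝ) (x : V) : V → ℝ := T Nb D (chi (Nb x))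

/-- truncated sums -/
noncomputable def Sr (Nb : V → Finset V) (D : ℝ) (x : V) (r : ℕ) (w : V) : ℝ :=
  ∑ j ∈ range (r + 1), ((T Nb D)^[j] (av Nb D x)) w

omit [Fintype V] in
theorem chi_nonneg (S : Finset V) (w : V) : 0 ≤ chi S w := by
  unfold chi; split_ifs <;> norm_num

omit [Fintype V] in
theorem av_nonneg (Nb : V → Finset V) {D : ℝ} (hD : 0 < D) (x w : V) : 0 ≤ av Nb D x w := by
  unfold av T
  exact div_nonneg (sum_nonneg fun u _ => chi_nonneg _ u) hD.le

omit [Fintype V] in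
theorem av_eq (Nb : V → Finset V) (D : ℝ) (x w : V) :
    av Nb D x w = ((Nb w ∩ Nb x).card : ℝ) / D := by
  unfold av T chi
  congr 1
  rw [← sum_filter, sum_const, nsmul_eq_mul, mul_one, filter_mem_eq_inter]

theorem sum_av_le (Nb : V → Finset V) {D : ℝ} (hN : Nbd Nb D) (x : V) :
    ∑ w, av Nb D x w ≤ 4 * D := by
  have h1 := sum_T_le Nb hN (f := chi (Nb x)) (chi_nonneg _)
  have h2 : ∑ w, chi (Nb x) w = ((Nb x).card : ℝ) := by
    unfold chi
    rw [← sum_filter, sum_const, nsmul_eq_mul, mul_one, filter_mem_eq_inter, univ_inter]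
  have h3 := hN.deg x
  have h4 := hN.one_le
  unfold av
  linarith

theorem sum_iter_le (Nb : V → Finset V) {D : ℝ} (hN : Nbd Nb D) (x : V) (j : ℕ) :
    ∑ w, ((T Nb D)^[j] (av Nb D x)) w ≤ 2 ^ j * (4 * D) := by
  have hD : 0 < D := by linarith [hN.one_le]
  induction j with
  | zero => simpa using sum_av_le Nb hN x
  | succ j ih =>
    have h1 := sum_T_le Nb hN (f := (T Nb D)^[j] (av Nb D x))
      (fun v => iter_nonneg Nb hD j (av_nonneg Nb hD x) v)
    rw [Function.iterate_succ_apply']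
    calc _ ≤ 2 * ∑ w, ((T Nb D)^[j] (av Nb D x)) w := h1
      _ ≤ 2 * (2 ^ j * (4 * D)) := by linarith
      _ = 2 ^ (j + 1) * (4 * D) := by ring

theorem sum_Sr_le (Nb : V → Finset V) {D : ℝ} (hN : Nbd Nb D) (x : V) (r : ℕ) :
    ∑ w, Sr Nb D x r w ≤ 2 ^ (r + 1) * (4 * D) := by
  have hD : 0 < D := by linarith [hN.one_le]
  unfold Sr
  rw [sum_comm]
  calc ∑ j ∈ range (r + 1), ∑ w, ((T Nb D)^[j] (av Nb D x)) w
      ≤ ∑ j ∈ range (r + 1), 2 ^ j * (4 * D) := sum_le_sum fun j _ => sum_iter_le Nb hN x j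
    _ = (∑ j ∈ range (r + 1), (2 : ℝ) ^ j) * (4 * D) := by rw [sum_mul]
    _ ≤ 2 ^ (r + 1) * (4 * D) := by
      refine mul_le_mul_of_nonneg_right ?_ (by positivity)
      have : ∀ n : ℕ, ∑ j ∈ range n, (2 : ℝ) ^ j ≤ 2 ^ n := by
        intro n
        induction n with
        | zero => simp
        | succ n ih => rw [sum_range_succ, pow_succ]; linarith
      exact this _

omit [Fintype V] in
theorem Sr_mono (Nb : V → Finset V) {D : ℝ} (hD : 0 < D) (x : V) {r r' : ℕ} (h : r ≤ r') (w : V) :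
    Sr Nb D x r w ≤ Sr Nb D x r' w := by
  unfold Sr
  exact sum_le_sum_of_subset_of_nonneg (range_subset_range.2 (by omega))
    fun j _ _ => iter_nonneg Nb hD j (av_nonneg Nb hD x) w

omit [Fintype V] in
theorem iter_Sr_le (Nb : V → Finset V) {D : ℝ} (hD : 0 < D) (x : V) (r j n : ℕ) (hj : j ≤ n)
    (w : V) : ((T Nb D)^[j] (Sr Nb D x r)) w ≤ Sr Nb D x (r + n) w := by
  have h1 : (T Nb D)^[j] (Sr Nb D x r) = fun w => ∑ l ∈ range (r + 1),
      ((T Nb D)^[j] ((T Nb D)^[l] (av Nb D x))) w := by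
    have := iter_sum Nb D j (range (r + 1)) (fun l => (T Nb D)^[l] (av Nb D x))
    exact this
  rw [h1]
  have h2 : ∑ l ∈ range (r + 1), ((T Nb D)^[j] ((T Nb D)^[l] (av Nb D x))) w =
      ∑ m ∈ Ico j (j + (r + 1)), ((T Nb D)^[m] (av Nb D x)) w := by
    rw [sum_Ico_eq_sum_range]
    have : j + (r + 1) - j = r + 1 := by omega
    rw [this]
    refine sum_congr rfl fun l _ => ?_
    rw [← Function.iterate_add_apply]
  show ∑ l ∈ range (r + 1), ((T Nb D)^[j] ((T Nb D)^[l] (av Nb D x))) w ≤ _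
  rw [h2]
  unfold Sr
  refine sum_le_sum_of_subset_of_nonneg ?_ fun m _ _ =>
    iter_nonneg Nb hD m (av_nonneg Nb hD x) w
  intro m hm
  rw [mem_Ico] at hm
  rw [mem_range]
  omega

end DetAux

open DetAux in
theorem det : StDet := by
  intro k C e1 e2 e3 hC he1 he2 he3
  -- the ratio of the thresholds
  obtain ⟨q, hq0, hq1, hqa, hqb⟩ : ∃ q : ℝ, 0 < q ∧ q ≤ 1 ∧
      C * (2 * k + 1) * 2 * q ≤ e1 ∧ 2 * C * q ≤ e2 := by
    have hA : 0 < C * (2 * k + 1) * 2 + 1 := by positivity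
    have hB : 0 < 2 * C + 1 := by positivity
    refine ⟨min 1 (min (e1 / (C * (2 * k + 1) * 2 + 1)) (e2 / (2 * C + 1))), by positivity,
      min_le_left _ _, ?_, ?_⟩
    · have h1 : min 1 (min (e1 / (C * (2 * k + 1) * 2 + 1)) (e2 / (2 * C + 1))) ≤
          e1 / (C * (2 * k + 1) * 2 + 1) := (min_le_right _ _).trans (min_le_left _ _)
      calc C * (2 * k + 1) * 2 * min 1 (min (e1 / (C * (2 * k + 1) * 2 + 1)) (e2 / (2 * C + 1)))
          ≤ (C * (2 * k + 1) * 2 + 1) * (e1 / (C * (2 * k + 1) * 2 + 1)) := by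
            apply mul_le_mul _ h1 (by positivity) hA.le
            linarith
        _ = e1 := by field_simp
    · have h1 : min 1 (min (e1 / (C * (2 * k + 1) * 2 + 1)) (e2 / (2 * C + 1))) ≤
          e2 / (2 * C + 1) := (min_le_right _ _).trans (min_le_right _ _)
      calc 2 * C * min 1 (min (e1 / (C * (2 * k + 1) * 2 + 1)) (e2 / (2 * C + 1)))
          ≤ (2 * C + 1) * (e2 / (2 * C + 1)) := by
            apply mul_le_mul _ h1 (by positivity) hB.le
            linarith
        _ = e2 := by field_simp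
  obtain ⟨J, hJ⟩ := exists_nat_gt (4 / e3)
  have hJ0 : 0 < (J : ℝ) := lt_trans (by positivity) hJ
  refine ⟨2 ^ (2 * k * J + 1) * 4 / q ^ J, ?_, ?_⟩
  · rw [le_div_iff₀ (by positivity), one_mul]
    have h1 : q ^ J ≤ 1 := pow_le_one₀ hq0.le hq1
    have h2 : (1 : ℝ) ≤ 2 ^ (2 * k * J + 1) := one_le_pow₀ (by norm_num)
    linarith
  intro V _ _ Nb D hN x
  have hD : 0 < D := by linarith [hN.one_le]
  have hD1 := hN.one_le
  set U : ℕ → Finset V := fun i => univ.filter (fun w => q ^ i ≤ Sr Nb D x (2 * k * (i + 1)) w)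
    with hU
  have hmem : ∀ i w, w ∈ U i ↔ q ^ i ≤ Sr Nb D x (2 * k * (i + 1)) w := fun i w => by
    rw [hU]; simp
  have hUsub : ∀ i, U i ⊆ U (i + 1) := by
    intro i w hw
    rw [hmem] at hw ⊢
    calc q ^ (i + 1) ≤ q ^ i := pow_le_pow_of_le_one hq0.le hq1 (by omega)
      _ ≤ _ := hw
      _ ≤ _ := Sr_mono Nb hD x (Nat.mul_le_mul_left _ (by omega)) w
  -- pigeonhole
  have hdisj : ∑ i ∈ range J, ∑ w ∈ U (i + 1) \ U i, av Nb D x w ≤ 4 * D := by
    have htel : ∀ n, ∑ i ∈ range n, ∑ w ∈ U (i + 1) \ U i, av Nb D x w + ∑ w ∈ U 0, av Nb D x w =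
        ∑ w ∈ U n, av Nb D x w := by
      intro n
      induction n with
      | zero => simp
      | succ n ih =>
        rw [sum_range_succ, add_right_comm, ih, add_comm,
          sum_sdiff (hUsub n)]
    have h1 := htel J
    have h2 : 0 ≤ ∑ w ∈ U 0, av Nb D x w := sum_nonneg fun w _ => av_nonneg Nb hD x w
    have h3 : ∑ w ∈ U J, av Nb D x w ≤ ∑ w, av Nb D x w :=
      sum_le_sum_of_subset_of_nonneg (subset_univ _) fun w _ _ => av_nonneg Nb hD x w
    linarith [sum_av_le Nb hN x]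
  obtain ⟨i, hi, hi3⟩ : ∃ i ∈ range J, ∑ w ∈ U (i + 1) \ U i, av Nb D x w ≤ 4 * D / J := by
    by_contra hcon
    push Not at hcon
    have h1 : ∑ _i ∈ range J, 4 * D / J < ∑ i ∈ range J, ∑ w ∈ U (i + 1) \ U i, av Nb D x w :=
      sum_lt_sum_of_nonempty (by
        rw [nonempty_range_iff]
        intro h
        rw [h] at hJ0
        simp at hJ0) hcon
    rw [sum_const, card_range, nsmul_eq_mul] at h1
    have h2 : (J : ℝ) * (4 * D / J) = 4 * D := by field_simp
    linarith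
  rw [mem_range] at hi
  refine ⟨U i, U (i + 1), hUsub i, ?_, ?_, ?_, ?_⟩
  · -- size
    have h1 : ((U i).card : ℝ) * q ^ i ≤ 2 ^ (2 * k * (i + 1) + 1) * (4 * D) := by
      calc ((U i).card : ℝ) * q ^ i = ∑ _w ∈ U i, q ^ i := by rw [sum_const, nsmul_eq_mul]
        _ ≤ ∑ w ∈ U i, Sr Nb D x (2 * k * (i + 1)) w := sum_le_sum fun w hw => (hmem i w).1 hw
        _ ≤ ∑ w, Sr Nb D x (2 * k * (i + 1)) w :=
          sum_le_sum_of_subset_of_nonneg (subset_univ _) fun w _ _ =>
            sum_nonneg fun j _ => iter_nonneg Nb hD j (av_nonneg Nb hD x) w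
        _ ≤ _ := sum_Sr_le Nb hN x _
    have h2 : q ^ J ≤ q ^ i := pow_le_pow_of_le_one hq0.le hq1 hi.le
    have h3 : (2 : ℝ) ^ (2 * k * (i + 1) + 1) ≤ 2 ^ (2 * k * J + 1) :=
      pow_le_pow_right₀ (by norm_num) (by gcongr; omega)
    rw [div_mul_eq_mul_div, le_div_iff₀ (by positivity)]
    calc ((U i).card : ℝ) * q ^ J ≤ ((U i).card : ℝ) * q ^ i := by gcongr
      _ ≤ 2 ^ (2 * k * (i + 1) + 1) * (4 * D) := h1
      _ ≤ 2 ^ (2 * k * J + 1) * (4 * D) := by gcongr
      _ = 2 ^ (2 * k * J + 1) * 4 * D := by ring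
  · -- (1)
    intro z
    have h1 : ∀ j ∈ range (2 * k + 1), ∀ v ∈ Nb z \ U (i + 1),
        ((T Nb D)^[j] (chi (Nb z ∩ U i))) v ≤ q := by
      intro j hj v hv
      rw [mem_range] at hj
      have h2 : ∀ w, chi (Nb z ∩ U i) w ≤ 1 / q ^ i * Sr Nb D x (2 * k * (i + 1)) w := by
        intro w
        by_cases hw : w ∈ Nb z ∩ U i
        · have h3 := (hmem i w).1 (mem_inter.1 hw).2
          have h4 : chi (Nb z ∩ U i) w = 1 := if_pos hw
          rw [h4, one_div, inv_mul_eq_div, le_div_iff₀ (by positivity), one_mul]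
          exact h3
        · have h4 : chi (Nb z ∩ U i) w = 0 := if_neg hw
          rw [h4]
          have : 0 ≤ Sr Nb D x (2 * k * (i + 1)) w :=
            sum_nonneg fun j _ => iter_nonneg Nb hD j (av_nonneg Nb hD x) w
          positivity
      have h5 := iter_mono Nb hD j h2 v
      rw [iter_smul] at h5
      have h6 := iter_Sr_le Nb hD x (2 * k * (i + 1)) j (2 * k) (by omega) v
      have h7 : Sr Nb D x (2 * k * (i + 1) + 2 * k) v < q ^ (i + 1) := by
        have h8 : v ∉ U (i + 1) := (mem_sdiff.1 hv).2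
        rw [hmem, not_le] at h8
        have h9 : 2 * k * (i + 1) + 2 * k = 2 * k * (i + 1 + 1) := by ring
        rw [h9]
        exact h8
      calc ((T Nb D)^[j] (chi (Nb z ∩ U i))) v
          ≤ 1 / q ^ i * ((T Nb D)^[j] (Sr Nb D x (2 * k * (i + 1)))) v := h5
        _ ≤ 1 / q ^ i * q ^ (i + 1) := by
          refine mul_le_mul_of_nonneg_left (h6.trans h7.le) (by positivity)
        _ = q := by rw [pow_succ]; field_simp
    have h2 : ((Nb z \ U (i + 1)).card : ℝ) ≤ 2 * D := by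
      have : ((Nb z \ U (i + 1)).card : ℝ) ≤ ((Nb z).card : ℝ) := by
        exact_mod_cast card_le_card sdiff_subset
      linarith [hN.deg z]
    have h3 : W Nb D (2 * k) (Nb z \ U (i + 1)) (Nb z ∩ U i) ≤ (2 * k + 1) * (2 * D * q) := by
      unfold W
      calc ∑ j ∈ range (2 * k + 1), ∑ v ∈ Nb z \ U (i + 1), ((T Nb D)^[j] (chi (Nb z ∩ U i))) v
          ≤ ∑ _j ∈ range (2 * k + 1), 2 * D * q := by
            refine sum_le_sum fun j hj => ?_
            calc ∑ v ∈ Nb z \ U (i + 1), ((T Nb D)^[j] (chi (Nb z ∩ U i))) v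
                ≤ ∑ _v ∈ Nb z \ U (i + 1), q := sum_le_sum fun v hv => h1 j hj v hv
              _ = ((Nb z \ U (i + 1)).card : ℝ) * q := by rw [sum_const, nsmul_eq_mul]
              _ ≤ 2 * D * q := by gcongr
        _ = (2 * k + 1) * (2 * D * q) := by
          rw [sum_const, card_range, nsmul_eq_mul]; push_cast; ring
    unfold Gam
    calc C / D * W Nb D (2 * k) (Nb z \ U (i + 1)) (Nb z ∩ U i)
        ≤ C / D * ((2 * k + 1) * (2 * D * q)) := mul_le_mul_of_nonneg_left h3 (by positivity)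
      _ = C * (2 * k + 1) * 2 * q := by field_simp
      _ ≤ e1 := hqa
  · -- (2)
    intro z
    have h1 : ∀ v, ∑ z' ∈ Nb x, ∑ j ∈ range (2 * k + 1), ((T Nb D)^[j] (chi (Nb z' \ U (i + 1)))) v ≤
        D * Sr Nb D x (2 * k) v := by
      intro v
      rw [sum_comm]
      unfold Sr
      rw [mul_sum]
      refine sum_le_sum fun j _ => ?_
      have h2 := iter_sum Nb D j (Nb x) (fun z' => chi (Nb z' \ U (i + 1)))
      have h3 : ∑ z' ∈ Nb x, ((T Nb D)^[j] (chi (Nb z' \ U (i + 1)))) v =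
          ((T Nb D)^[j] (fun w => ∑ z' ∈ Nb x, chi (Nb z' \ U (i + 1)) w)) v := by rw [h2]
      rw [h3]
      have h4 : ∀ w, ∑ z' ∈ Nb x, chi (Nb z' \ U (i + 1)) w ≤ D * av Nb D x w := by
        intro w
        have h5 : ∑ z' ∈ Nb x, chi (Nb z' \ U (i + 1)) w ≤
            ∑ z' ∈ Nb x, (if z' ∈ Nb w then (1 : ℝ) else 0) := by
          refine sum_le_sum fun z' _ => ?_
          unfold chi
          by_cases hw : w ∈ Nb z'
          · have h6 := hN.symm z' w hw
            rw [if_pos h6]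
            split_ifs <;> norm_num
          · rw [if_neg (fun h => hw (mem_sdiff.1 h).1)]
            split_ifs <;> norm_num
        refine h5.trans (le_of_eq ?_)
        rw [← sum_filter, sum_const, nsmul_eq_mul, mul_one, av_eq, filter_mem_eq_inter,
          inter_comm (Nb x)]
        field_simp
      have h5 := iter_mono Nb hD j h4 v
      rw [iter_smul] at h5
      exact h5
    have h2 : ∀ v ∈ Nb z \ U (i + 1), Sr Nb D x (2 * k) v ≤ q := by
      intro v hv
      have h8 : v ∉ U (i + 1) := (mem_sdiff.1 hv).2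
      rw [hmem, not_le] at h8
      calc Sr Nb D x (2 * k) v ≤ Sr Nb D x (2 * k * (i + 1 + 1)) v :=
            Sr_mono Nb hD x (Nat.le_mul_of_pos_right _ (by omega)) v
        _ ≤ q ^ (i + 1) := h8.le
        _ ≤ q ^ 1 := pow_le_pow_of_le_one hq0.le hq1 (by omega)
        _ = q := pow_one q
    have h3 : ((Nb z \ U (i + 1)).card : ℝ) ≤ 2 * D := by
      have : ((Nb z \ U (i + 1)).card : ℝ) ≤ ((Nb z).card : ℝ) := by
        exact_mod_cast card_le_card sdiff_subset
      linarith [hN.deg z]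
    have h4 : ∑ z' ∈ Nb x, W Nb D (2 * k) (Nb z \ U (i + 1)) (Nb z' \ U (i + 1)) ≤
        2 * D * (D * q) := by
      unfold W
      have h5 : ∑ z' ∈ Nb x, ∑ j ∈ range (2 * k + 1), ∑ v ∈ Nb z \ U (i + 1),
          ((T Nb D)^[j] (chi (Nb z' \ U (i + 1)))) v =
          ∑ v ∈ Nb z \ U (i + 1), ∑ z' ∈ Nb x, ∑ j ∈ range (2 * k + 1),
            ((T Nb D)^[j] (chi (Nb z' \ U (i + 1)))) v := by
        rw [sum_comm (s := Nb z \ U (i + 1)) (t := Nb x)]
        exact sum_congr rfl fun z' _ => sum_comm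
      rw [h5]
      calc ∑ v ∈ Nb z \ U (i + 1), ∑ z' ∈ Nb x, ∑ j ∈ range (2 * k + 1),
            ((T Nb D)^[j] (chi (Nb z' \ U (i + 1)))) v
          ≤ ∑ _v ∈ Nb z \ U (i + 1), D * q := by
            refine sum_le_sum fun v hv => (h1 v).trans ?_
            exact mul_le_mul_of_nonneg_left (h2 v hv) hD.le
        _ = ((Nb z \ U (i + 1)).card : ℝ) * (D * q) := by rw [sum_const, nsmul_eq_mul]
        _ ≤ 2 * D * (D * q) := by gcongr
    unfold Gam
    rw [← mul_sum]
    calc 1 / D * (C / D * ∑ z' ∈ Nb x, W Nb D (2 * k) (Nb z \ U (i + 1)) (Nb z' \ U (i + 1)))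
        ≤ 1 / D * (C / D * (2 * D * (D * q))) := by gcongr
      _ = 2 * C * q := by field_simp
      _ ≤ e2 := hqb
  · -- (3)
    have h1 : ∑ z ∈ Nb x, ((Nb z ∩ (U (i + 1) \ U i)).card : ℝ) =
        D * ∑ w ∈ U (i + 1) \ U i, av Nb D x w := by
      have h2 : ∀ z, ((Nb z ∩ (U (i + 1) \ U i)).card : ℝ) =
          ∑ w ∈ U (i + 1) \ U i, if z ∈ Nb w then (1 : ℝ) else 0 := by
        intro z
        rw [← sum_filter, sum_const, nsmul_eq_mul, mul_one]
        congr 2
        ext w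
        rw [mem_inter, mem_filter]
        constructor
        · rintro ⟨h3, h4⟩
          exact ⟨h4, hN.symm z w h3⟩
        · rintro ⟨h3, h4⟩
          exact ⟨hN.symm w z h4, h3⟩
      rw [sum_congr rfl fun z _ => h2 z, sum_comm, mul_sum]
      refine sum_congr rfl fun w _ => ?_
      rw [← sum_filter, sum_const, nsmul_eq_mul, mul_one, av_eq, filter_mem_eq_inter,
        inter_comm (Nb x)]
      field_simp
    rw [h1]
    have h2 : 1 / D ^ 2 * (D * ∑ w ∈ U (i + 1) \ U i, av Nb D x w) ≤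
        1 / D ^ 2 * (D * (4 * D / J)) := by gcongr
    refine h2.trans ?_
    have h3 : 1 / D ^ 2 * (D * (4 * D / J)) = 4 / J := by field_simp
    rw [h3, div_le_iff₀ hJ0]
    rw [div_lt_iff₀ he3] at hJ
    linarith

end Pool.Agent.Helper69.VU
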