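import Pool.Agent.Helper69.VU.Spec

/-!
# Project VU: the abstract symmetric local lemma
-/

set_option autoImplicit false

namespace Pool.Agent.Helper69.VU

open Finset

theorem lll : StLLL := by
  intro Ω E hadd hmul hmono hone ι _ _ a nb d ha hind hd hnb hp
  have hzero : E (fun _ => 0) = 0 := by
    have := hmul 0 (fun _ => 1)
    simpa using this
  have hsub : ∀ f g : Ω → ℝ, E (fun x => f x - g x) = E f - E g := by
    intro f g
    have h1 := hadd f (fun x => -1 * g x)
    rw [hmul] at h1
    have h2 : (fun x => f x - g x) = fun x => f x + -1 * g x := by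
      funext x; ring
    rw [h2, h1]
    ring
  have hsum : ∀ (s : Finset ι) (f : ι → Ω → ℝ), E (fun x => ∑ i ∈ s, f i x) = ∑ i ∈ s, E (f i) := by
    intro s f
    induction s using Finset.induction_on with
    | empty => simpa using hzero
    | insert i s hi ih =>
      have h1 : (fun x => ∑ j ∈ insert i s, f j x) = fun x => f i x + ∑ j ∈ s, f j x := by
        funext x; rw [sum_insert hi]
      rw [h1, hadd (f i) (fun x => ∑ j ∈ s, f j x), ih, sum_insert hi]
  have ha0 : ∀ i x, 0 ≤ a i x := fun i x => by rcases ha i x with h | h <;> rw [h] <;> norm_num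
  have ha1 : ∀ i x, a i x ≤ 1 := fun i x => by rcases ha i x with h | h <;> rw [h] <;> norm_num
  have hP0 : ∀ (J : Finset ι) (x : Ω), 0 ≤ ∏ j ∈ J, (1 - a j x) := fun J x =>
    prod_nonneg fun j _ => sub_nonneg.2 (ha1 j x)
  have hP1 : ∀ (J : Finset ι) (x : Ω), ∏ j ∈ J, (1 - a j x) ≤ 1 := fun J x =>
    prod_le_one (fun j _ => sub_nonneg.2 (ha1 j x)) fun j _ => by linarith [ha0 j x]
  have hPP : ∀ J : Finset ι, 0 ≤ E (fun x => ∏ j ∈ J, (1 - a j x)) := fun J => by
    have := hmono (fun _ => 0) (fun x => ∏ j ∈ J, (1 - a j x)) (hP0 J)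
    rwa [hzero] at this
  have hd' : (1 : ℝ) ≤ d := by exact_mod_cast hd
  -- Bernoulli type bound
  have bern : ∀ (J : Finset ι) (x : Ω), 1 - ∑ j ∈ J, a j x ≤ ∏ j ∈ J, (1 - a j x) := by
    intro J x
    induction J using Finset.induction_on with
    | empty => simp
    | insert i J hi ih =>
      rw [sum_insert hi, prod_insert hi]
      have h1 := hP1 J x
      have h2 := ha0 i x
      nlinarith
  have key : ∀ (n : ℕ) (J : Finset ι), J.card = n → ∀ i,
      E (fun x => a i x * ∏ j ∈ J, (1 - a j x)) ≤
        1 / (2 * d) * E (fun x => ∏ j ∈ J, (1 - a j x)) := by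
    intro n
    induction n using Nat.strong_induction_on with
    | _ n ih =>
      intro J hJ i
      set J2 := J.filter (fun j => j ∉ nb i) with hJ2
      set J1 := J.filter (fun j => j ∈ nb i) with hJ1
      have hsplit : ∀ x, (∏ j ∈ J1, (1 - a j x)) * ∏ j ∈ J2, (1 - a j x) =
          ∏ j ∈ J, (1 - a j x) := fun x => prod_filter_mul_prod_filter_not J _ _
      have h1 : E (fun x => a i x * ∏ j ∈ J, (1 - a j x)) ≤
          E (fun x => a i x * ∏ j ∈ J2, (1 - a j x)) := by
        refine hmono _ _ fun x => mul_le_mul_of_nonneg_left ?_ (ha0 i x)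
        rw [← hsplit x]
        have h3 := hP1 J1 x
        have h4 := hP0 J2 x
        nlinarith
      have h2 : E (fun x => a i x * ∏ j ∈ J2, (1 - a j x)) =
          E (a i) * E (fun x => ∏ j ∈ J2, (1 - a j x)) :=
        hind i J2 fun j hj => (mem_filter.1 hj).2
      have h3 : E (a i) ≤ 1 / (4 * d) := by
        rw [le_div_iff₀ (by positivity)]
        linarith [hp i]
      have h4 : E (fun x => a i x * ∏ j ∈ J, (1 - a j x)) ≤
          1 / (4 * d) * E (fun x => ∏ j ∈ J2, (1 - a j x)) :=
        h1.trans (h2.le.trans (mul_le_mul_of_nonneg_right h3 (hPP J2)))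
      have h5 : E (fun x => ∏ j ∈ J2, (1 - a j x)) ≤ 2 * E (fun x => ∏ j ∈ J, (1 - a j x)) := by
        by_cases hemp : J1 = ∅
        · have : J2 = J := by
            rw [hJ2, filter_eq_self]
            intro j hj hjn
            have : j ∈ J1 := mem_filter.2 ⟨hj, hjn⟩
            rw [hemp] at this
            simp at this
          rw [this]
          linarith [hPP J]
        · have hlt : J2.card < n := by
            rw [← hJ]
            apply card_lt_card
            rw [ssubset_iff_subset_ne]
            refine ⟨filter_subset _ _, fun h => hemp ?_⟩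
            rw [hJ1, filter_eq_empty_iff]
            intro j hj hjn
            have hj2 : j ∈ J2 := by rw [h]; exact hj
            exact (mem_filter.1 hj2).2 hjn
          have h6 : E (fun x => ∏ j ∈ J2, (1 - a j x)) -
              ∑ k ∈ J1, E (fun x => a k x * ∏ j ∈ J2, (1 - a j x)) ≤
              E (fun x => ∏ j ∈ J, (1 - a j x)) := by
            rw [← hsum J1 (fun k x => a k x * ∏ j ∈ J2, (1 - a j x)), ← hsub]
            refine hmono _ _ fun x => ?_
            rw [← hsplit x, ← sum_mul]
            have h7 := bern J1 x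
            have h8 := hP0 J2 x
            nlinarith
          have h7 : ∑ k ∈ J1, E (fun x => a k x * ∏ j ∈ J2, (1 - a j x)) ≤
              ∑ _k ∈ J1, 1 / (2 * d) * E (fun x => ∏ j ∈ J2, (1 - a j x)) :=
            sum_le_sum fun k _ => ih J2.card hlt J2 rfl k
          rw [sum_const, nsmul_eq_mul] at h7
          have h8 : (J1.card : ℝ) ≤ d := by
            exact_mod_cast (card_le_card fun j hj => (mem_filter.1 hj).2).trans (hnb i)
          have h9 : (J1.card : ℝ) * (1 / (2 * d) * E (fun x => ∏ j ∈ J2, (1 - a j x))) ≤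
              1 / 2 * E (fun x => ∏ j ∈ J2, (1 - a j x)) := by
            rw [← mul_assoc]
            refine mul_le_mul_of_nonneg_right ?_ (hPP J2)
            rw [mul_one_div, div_le_div_iff₀ (by positivity) (by norm_num)]
            linarith
          linarith
      calc E (fun x => a i x * ∏ j ∈ J, (1 - a j x)) ≤
          1 / (4 * d) * E (fun x => ∏ j ∈ J2, (1 - a j x)) := h4
        _ ≤ 1 / (4 * d) * (2 * E (fun x => ∏ j ∈ J, (1 - a j x))) :=
          mul_le_mul_of_nonneg_left h5 (by positivity)
        _ = 1 / (2 * d) * E (fun x => ∏ j ∈ J, (1 - a j x)) := by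
          field_simp
          ring
  have pos : ∀ J : Finset ι, 0 < E (fun x => ∏ j ∈ J, (1 - a j x)) := by
    intro J
    induction J using Finset.induction_on with
    | empty => simpa using (by rw [hone]; norm_num : (0 : ℝ) < E (fun _ => 1))
    | insert i J hi ih =>
      have h1 : (fun x => ∏ j ∈ insert i J, (1 - a j x)) =
          fun x => (∏ j ∈ J, (1 - a j x)) - a i x * ∏ j ∈ J, (1 - a j x) := by
        funext x
        rw [prod_insert hi]
        ring
      rw [h1, hsub]
      have h2 := key J.card J rfl i
      have h3 : 1 / (2 * (d : ℝ)) ≤ 1 / 2 := by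
        apply one_div_le_one_div_of_le (by norm_num)
        linarith
      have h4 := mul_le_mul_of_nonneg_right h3 (hPP J)
      linarith
  exact pos univ

end Pool.Agent.Helper69.VU
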