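import Pool.Agent.Helper69.VU.Spec

/-!
# Project VU, module LOCAL

Locality of the independent sets produced by a history, size and overlap of the balls in the
neighbourhood system, and independence of disjoint parts of several histories.
-/

set_option autoImplicit false

namespace Pool.Agent.Helper69.VU

open Finset

section

variable {V : Type} [DecidableEq V] (Nb : V → Finset V)

lemma ball_add (n m : ℕ) (v x : V) :
    x ∈ ball Nb (n + m) v ↔ ∃ y ∈ ball Nb m v, x ∈ ball Nb n y := by
  induction n generalizing x with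
  | zero =>
    rw [Nat.zero_add]
    constructor
    · intro h
      exact ⟨x, h, by simp [ball]⟩
    · rintro ⟨y, hy, hx⟩
      have : x = y := by simpa [ball] using hx
      rwa [this]
  | succ n ih =>
    have e : n + 1 + m = (n + m) + 1 := by ring
    rw [e]
    show x ∈ (ball Nb (n + m) v).biUnion Nb ↔ ∃ y ∈ ball Nb m v, x ∈ (ball Nb n y).biUnion Nb
    simp only [mem_biUnion]
    constructor
    · rintro ⟨z, hz, hx⟩
      obtain ⟨y, hy, hzy⟩ := (ih z).mp hz
      exact ⟨y, hy, z, hzy, hx⟩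
    · rintro ⟨y, hy, z, hz, hx⟩
      exact ⟨z, (ih z).mpr ⟨y, hy, hz⟩, hx⟩

lemma ball_succ' (n : ℕ) (v x : V) :
    x ∈ ball Nb (n + 1) v ↔ ∃ y ∈ Nb v, x ∈ ball Nb n y := by
  rw [ball_add]
  have : ball Nb 1 v = Nb v := by
    show (ball Nb 0 v).biUnion Nb = Nb v
    simp [ball]
  rw [this]

lemma ball_mono_nb (n : ℕ) (v w : V) (h : w ∈ Nb v) : ball Nb n w ⊆ ball Nb (n + 1) v := by
  intro x hx
  exact (ball_succ' Nb n v x).mpr ⟨w, h, hx⟩

lemma self_mem_ball (hself : ∀ v, v ∈ Nb v) (n : ℕ) (v : V) : v ∈ ball Nb n v := by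
  induction n with
  | zero => simp [ball]
  | succ n ih => exact (ball_succ' Nb n v v).mpr ⟨v, hself v, ih⟩

lemma ball_symm (hsymm : ∀ v w, w ∈ Nb v → v ∈ Nb w) (n : ℕ) (u x : V)
    (h : x ∈ ball Nb n u) : u ∈ ball Nb n x := by
  induction n generalizing x with
  | zero =>
    have : x = u := by simpa [ball] using h
    rw [this]
    simp [ball]
  | succ n ih =>
    have h' : x ∈ (ball Nb n u).biUnion Nb := h
    rw [mem_biUnion] at h'
    obtain ⟨z, hz, hx⟩ := h'
    exact (ball_succ' Nb n x u).mpr ⟨z, hsymm _ _ hx, ih z hz⟩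

end

section

variable {V : Type} [Fintype V] [DecidableEq V] (Nb : V → Finset V)

lemma alive_local (hself : ∀ v, v ∈ Nb v) (h : List (Finset V)) (C : Finset V) (v : V)
    (hC : ball Nb h.length v ⊆ C) : v ∈ alive Nb h ↔ v ∈ alive Nb (rs C h) := by
  induction h generalizing v with
  | nil => simp [rs, alive]
  | cons B h ih =>
    have hlen : (B :: h).length = h.length + 1 := rfl
    rw [hlen] at hC
    have key : ∀ w ∈ Nb v, (w ∈ alive Nb h ↔ w ∈ alive Nb (rs C h)) := fun w hw =>
      ih w ((ball_mono_nb Nb h.length v w hw).trans hC)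
    have hw : ∀ w ∈ Nb v, w ∈ C := fun w hw =>
      hC (ball_mono_nb Nb h.length v w hw (self_mem_ball Nb hself _ w))
    show v ∈ (alive Nb h).filter (fun v => Disjoint (Nb v) (B ∩ alive Nb h)) ↔
      v ∈ (alive Nb (rs C h)).filter (fun v => Disjoint (Nb v) ((B ∩ C) ∩ alive Nb (rs C h)))
    rw [mem_filter, mem_filter, key v (hself v)]
    apply and_congr_right
    intro _
    rw [Finset.disjoint_left, Finset.disjoint_left]
    constructor
    · intro H w hwv hw2
      rw [mem_inter, mem_inter] at hw2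
      exact H hwv (mem_inter.mpr ⟨hw2.1.1, (key w hwv).mpr hw2.2⟩)
    · intro H w hwv hw2
      rw [mem_inter] at hw2
      exact H hwv (mem_inter.mpr ⟨mem_inter.mpr ⟨hw2.1, hw w hwv⟩, (key w hwv).mp hw2.2⟩)

lemma ind_local (hself : ∀ v, v ∈ Nb v) (h : List (Finset V)) (C : Finset V) (v : V)
    (hC : ball Nb h.length v ⊆ C) : v ∈ ind Nb h ↔ v ∈ ind Nb (rs C h) := by
  induction h generalizing v with
  | nil => simp [rs, ind]
  | cons B h ih =>
    have hlen : (B :: h).length = h.length + 1 := rfl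
    rw [hlen] at hC
    have key : ∀ w ∈ Nb v, (w ∈ alive Nb h ↔ w ∈ alive Nb (rs C h)) := fun w hw =>
      alive_local Nb hself h C w ((ball_mono_nb Nb h.length v w hw).trans hC)
    have hw : ∀ w ∈ Nb v, w ∈ C := fun w hw =>
      hC (ball_mono_nb Nb h.length v w hw (self_mem_ball Nb hself _ w))
    have ihv := ih v ((ball_mono_nb Nb h.length v v (hself v)).trans hC)
    have kk : ∀ w ∈ Nb v, (w ∈ B ∩ alive Nb h ↔ w ∈ (B ∩ C) ∩ alive Nb (rs C h)) := by
      intro w hwv
      simp only [mem_inter, key w hwv]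
      constructor
      · rintro ⟨h1, h2⟩
        exact ⟨⟨h1, hw w hwv⟩, h2⟩
      · rintro ⟨⟨h1, _⟩, h2⟩
        exact ⟨h1, h2⟩
    show v ∈ (B ∩ alive Nb h).filter (fun v => Nb v ∩ (B ∩ alive Nb h) ⊆ {v}) ∪ ind Nb h ↔
      v ∈ ((B ∩ C) ∩ alive Nb (rs C h)).filter
        (fun v => Nb v ∩ ((B ∩ C) ∩ alive Nb (rs C h)) ⊆ {v}) ∪ ind Nb (rs C h)
    rw [mem_union, mem_union, mem_filter, mem_filter, ihv, kk v (hself v)]
    apply or_congr _ Iff.rfl
    apply and_congr_right
    intro _
    constructor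
    · intro H w hw2
      rw [mem_inter] at hw2
      exact H (mem_inter.mpr ⟨hw2.1, (kk w hw2.1).mpr hw2.2⟩)
    · intro H w hw2
      rw [mem_inter] at hw2
      exact H (mem_inter.mpr ⟨hw2.1, (kk w hw2.1).mp hw2.2⟩)

omit [Fintype V] in
lemma ball_card (n : ℕ) (d : ℝ) (v : V) (hd : ∀ w, ((Nb w).card : ℝ) ≤ d) :
    ((ball Nb n v).card : ℝ) ≤ d ^ n := by
  have hd0 : 0 ≤ d := le_trans (Nat.cast_nonneg _) (hd v)
  induction n with
  | zero => simp [ball]
  | succ n ih =>
    have h1 : ((ball Nb n v).biUnion Nb).card ≤ ∑ w ∈ ball Nb n v, (Nb w).card :=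
      Finset.card_biUnion_le
    have h2 : (((ball Nb n v).biUnion Nb).card : ℝ) ≤ ∑ w ∈ ball Nb n v, ((Nb w).card : ℝ) := by
      exact_mod_cast h1
    have h3 : ∑ w ∈ ball Nb n v, ((Nb w).card : ℝ) ≤ ∑ _w ∈ ball Nb n v, d :=
      Finset.sum_le_sum (fun w _ => hd w)
    rw [Finset.sum_const, nsmul_eq_mul] at h3
    show (((ball Nb n v).biUnion Nb).card : ℝ) ≤ d ^ (n + 1)
    calc _ ≤ ((ball Nb n v).card : ℝ) * d := h2.trans h3
      _ ≤ d ^ n * d := mul_le_mul_of_nonneg_right ih hd0
      _ = d ^ (n + 1) := by ring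

lemma EM_indep (L : List (V → ℝ)) (m : ℕ) (C C' : Finset V) (hd : Disjoint C C')
    (f g : List (List (Finset V)) → ℝ) :
    EM L m (fun H => f (H.map (rs C)) * g (H.map (rs C'))) =
      EM L m (fun H => f (H.map (rs C))) * EM L m (fun H => g (H.map (rs C'))) := by
  induction m generalizing f g with
  | zero => rfl
  | succ m ih =>
    have h1 := ih (fun K => EL L (fun h => f (rs C h :: K)))
      (fun K => EL L (fun h => g (rs C' h :: K)))
    have h2 : EM L m (fun H => EL L (fun h => f (rs C h :: H.map (rs C)) *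
        g (rs C' h :: H.map (rs C')))) =
        EM L m (fun H => EL L (fun h => f (rs C h :: H.map (rs C))) *
          EL L (fun h => g (rs C' h :: H.map (rs C')))) := by
      congr 1
      funext H
      exact EL_indep L C C' hd (fun h => f (h :: H.map (rs C))) (fun h => g (h :: H.map (rs C')))
    show EM L m (fun H => EL L (fun h => f (rs C h :: H.map (rs C)) *
        g (rs C' h :: H.map (rs C')))) =
      EM L m (fun H => EL L (fun h => f (rs C h :: H.map (rs C)))) *
        EM L m (fun H => EL L (fun h => g (rs C' h :: H.map (rs C'))))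
    rw [h2, h1]

end

theorem loc : StLocal := by
  intro V _ _ Nb hself hsymm
  refine ⟨fun h C v hC => ind_local Nb hself h C v hC, fun n d v hd => ball_card Nb n d v hd,
    ?_, fun L m C C' hd f g => EM_indep L m C C' hd f g⟩
  intro n m u v hnd
  rw [Finset.disjoint_left] at hnd
  push Not at hnd
  obtain ⟨x, hx, hx'⟩ := hnd
  exact (ball_add Nb n m v u).mpr ⟨x, hx', ball_symm Nb hsymm n u x hx⟩

end Pool.Agent.Helper69.VU
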