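import Pool.Agent.Helper69.VU.Spec

/-!
# Project VU: assembly of the main lemma (module MainAsm)
-/

set_option autoImplicit false

namespace Pool.Agent.Helper69.VU

open Finset

section

variable {V : Type} [Fintype V] [DecidableEq V]

lemma ma_un_nonneg (Nb : V → Finset V) (S : Finset V) (h : List (Finset V)) :
    0 ≤ un Nb S h := by
  unfold un
  split_ifs <;> norm_num

lemma ma_un_le_one (Nb : V → Finset V) (S : Finset V) (h : List (Finset V)) :
    un Nb S h ≤ 1 := by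
  unfold un
  split_ifs <;> norm_num

lemma ma_un_anti (Nb : V → Finset V) (S S' : Finset V) (hS : S ⊆ S') (h : List (Finset V)) :
    un Nb S' h ≤ un Nb S h := by
  unfold un
  by_cases h' : Disjoint S' (fired Nb h)
  · rw [if_pos h', if_pos (Finset.disjoint_of_subset_left hS h')]
  · rw [if_neg h']
    split_ifs <;> norm_num

lemma ma_pr_nonneg (Nb : V → Finset V) (L : List (V → ℝ)) (hL : AdmL L 1) (S : Finset V) :
    0 ≤ pr Nb L S := EL_nonneg L hL _ (fun x _ => ma_un_nonneg Nb S x)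

lemma ma_pr_le_one (Nb : V → Finset V) (L : List (V → ℝ)) (hL : AdmL L 1) (S : Finset V) :
    pr Nb L S ≤ 1 := EL_le_const L hL _ _ (fun x _ => ma_un_le_one Nb S x)

/-- pointwise decomposition of a set into three parts -/
lemma ma_decomp (Nb : V → Finset V) (P M T' : Finset V) (S : Finset V) (hS : S ⊆ P ∪ M ∪ T')
    (h : List (Finset V)) :
    un Nb P h * un Nb T' h - ∑ y ∈ M, chi (fired Nb h) y ≤ un Nb S h := by
  have hchi : ∀ y, 0 ≤ chi (fired Nb h) y := by
    intro y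
    unfold chi
    split_ifs <;> norm_num
  have hs : 0 ≤ ∑ y ∈ M, chi (fired Nb h) y := Finset.sum_nonneg (fun y _ => hchi y)
  have h0 := ma_un_nonneg Nb S h
  by_cases hP : Disjoint P (fired Nb h)
  · by_cases hT : Disjoint T' (fired Nb h)
    · by_cases hM : Disjoint M (fired Nb h)
      · have hSd : Disjoint S (fired Nb h) := by
          apply Finset.disjoint_of_subset_left hS
          rw [Finset.disjoint_union_left, Finset.disjoint_union_left]
          exact ⟨⟨hP, hM⟩, hT⟩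
        have h1 : un Nb S h = 1 := by
          unfold un
          rw [if_pos hSd]
        have h2 := ma_un_le_one Nb P h
        have h3 := ma_un_le_one Nb T' h
        have h4 := ma_un_nonneg Nb P h
        have h5 := ma_un_nonneg Nb T' h
        nlinarith
      · rw [Finset.not_disjoint_iff] at hM
        obtain ⟨y, hy, hyf⟩ := hM
        have h1 : (1 : ℝ) ≤ ∑ y ∈ M, chi (fired Nb h) y := by
          calc (1 : ℝ) = chi (fired Nb h) y := by simp [chi, hyf]
            _ ≤ _ := Finset.single_le_sum (fun y _ => hchi y) hy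
        have h2 := ma_un_le_one Nb P h
        have h3 := ma_un_le_one Nb T' h
        have h4 := ma_un_nonneg Nb P h
        have h5 := ma_un_nonneg Nb T' h
        nlinarith
    · have : un Nb T' h = 0 := by
        unfold un
        rw [if_neg hT]
      rw [this, mul_zero]
      linarith
  · have : un Nb P h = 0 := by
      unfold un
      rw [if_neg hP]
    rw [this, zero_mul]
    linarith

lemma ma_alg1 (D p0 κ n S : ℝ) (hD : D ≠ 0) (hp : p0 ≠ 0) (hκ : κ ≠ 0) :
    n * (1 / D) + n * (1 / (D * p0) * (p0 / 16)) + 1 / (D * p0) * (S / (κ * D)) =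
      n * (1 / D) + n * (1 / (16 * D)) + 1 / (κ * p0) * (1 / D ^ 2 * S) := by
  have h1 : 1 / (D * p0) * (p0 / 16) = 1 / (16 * D) := by
    field_simp
  have h2 : 1 / (D * p0) * (S / (κ * D)) = 1 / (κ * p0) * (1 / D ^ 2 * S) := by
    field_simp
  rw [h1, h2]

lemma ma_alg2 (D p0 κ : ℝ) (hD : D ≠ 0) (hp : p0 ≠ 0) (hκ : κ ≠ 0) :
    (D + 1) * (1 / D) + (2 * D) * (1 / (16 * D)) + 1 / (κ * p0) * (κ * p0 / 8) =
      1 + 1 / D + 1 / 8 + 1 / 8 := by
  have h1 : (D + 1) * (1 / D) = 1 + 1 / D := by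
    field_simp
  have h2 : (2 * D) * (1 / (16 * D)) = 1 / 8 := by
    field_simp
    norm_num
  have h3 : 1 / (κ * p0) * (κ * p0 / 8) = 1 / 8 := by
    field_simp
  rw [h1, h2, h3]

lemma ma_alg3 (D p c κ p0 : ℝ) (hD : D ≠ 0) (hp : p ≠ 0) :
    1 / (D * p) * (p + p0 / 16 + c / (κ * D)) =
      1 / D + 1 / (D * p) * (p0 / 16) + 1 / (D * p) * (c / (κ * D)) := by
  have h1 : 1 / (D * p) * p = 1 / D := by
    field_simp
  rw [mul_add, mul_add, h1]

lemma ma_alg4 (D p0 β : ℝ) (hD : D ≠ 0) (hp : p0 ≠ 0) (hβ : β ≠ 0) :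
    (2 * D) * (1 / (D * p0) * (1 / (D * p0)) * (D * (p0 ^ 4 / (8 * β ^ 2)))) =
      2 * (p0 ^ 4 / (8 * β ^ 2)) / p0 ^ 2 := by
  field_simp

lemma ma_alg5 (p0 β : ℝ) (hp : p0 ≠ 0) (hβ : β ≠ 0) :
    2 * (p0 ^ 4 / (8 * β ^ 2)) / p0 ^ 2 = (p0 * (1 / 2 / β)) ^ 2 := by
  field_simp
  ring

lemma ma_alg6 (D p0 : ℝ) (hD : D ≠ 0) (hp : p0 ≠ 0) :
    1 * (1 / (D * p0)) = 1 / p0 / D := by
  field_simp

end

theorem mainAsm : StMainAsm := by
  intro hCov hDet hPos κ ε p0 lam k hκ hκ1 hε hε1 hp0 hp01 hlam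
  have hβ : 0 < bet κ ε := by
    unfold bet
    positivity
  set β := bet κ ε with hβdef
  obtain ⟨C, hC, hcov⟩ := hCov lam k hlam
  obtain ⟨C1, hC1, hdet⟩ := hDet k C (p0 / 16) (p0 ^ 4 / (8 * β ^ 2)) (κ * p0 / 8) hC
    (by positivity) (by positivity) (by positivity)
  obtain ⟨D0, hD0, hpos⟩ := hPos κ ε lam C1 (1 / p0) (1 / 8) k hκ hκ1 hε hε1 hlam
    (by linarith) (by rw [le_div_iff₀ hp0]; linarith) (by norm_num)
  refine ⟨max D0 (max 8 lam), le_max_of_le_left hD0, ?_⟩
  intro V _ _ Nb D hG hD L hL hadm hp hf x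
  have hD1 : D0 ≤ D := (le_max_left _ _).trans hD
  have hD8 : 8 ≤ D := (le_max_left _ _).trans ((le_max_right _ _).trans hD)
  have hDl : lam ≤ D := (le_max_right _ _).trans ((le_max_right _ _).trans hD)
  have hDpos : 0 < D := by linarith
  have hnbd : Nbd Nb D := ⟨hG.one_le, hG.symm, hG.deg⟩
  have hL1 : AdmL L 1 := by
    intro θ hθ v
    refine ⟨(hadm θ hθ v).1, (hadm θ hθ v).2.trans ?_⟩
    rw [div_le_one hDpos]
    exact hDl
  obtain ⟨U, U', hUU', hUc, h1, h2, h3⟩ := hdet V Nb D hnbd x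
  have hcovV := hcov V Nb D hnbd hG.self hDl L hL hadm
  -- notation
  set p : V → ℝ := fun z => pr Nb L (Nb z) with hpdef
  set q : V → ℝ := fun z => pr Nb L (Nb z \ U') with hqdef
  set μ : V → ℝ := fun z => q z / (D * p z) with hμdef
  have hpp : ∀ z, 0 < p z := fun z => lt_of_lt_of_le hp0 (hp z)
  have hq0 : ∀ z, 0 ≤ q z := fun z => ma_pr_nonneg Nb L hL1 _
  have hq1 : ∀ z, q z ≤ 1 := fun z => ma_pr_le_one Nb L hL1 _
  have hDp : ∀ z, 0 < D * p z := fun z => mul_pos hDpos (hpp z)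
  have hinv : ∀ z, 1 / (D * p z) ≤ 1 / (D * p0) := by
    intro z
    apply one_div_le_one_div_of_le (mul_pos hDpos hp0)
    exact mul_le_mul_of_nonneg_left (hp z) hDpos.le
  have hμ : ∀ z, 0 ≤ μ z ∧ μ z ≤ 1 / p0 / D := by
    intro z
    constructor
    · exact div_nonneg (hq0 z) (hDp z).le
    · calc μ z = q z * (1 / (D * p z)) := by simp [hμdef]; ring
        _ ≤ 1 * (1 / (D * p0)) :=
          mul_le_mul (hq1 z) (hinv z) (by have := hDp z; positivity) (by norm_num)
        _ = 1 / p0 / D := ma_alg6 _ _ hDpos.ne' hp0.ne'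
  have hcardx : ((Nb x).card : ℝ) ≤ D + 1 := hG.deg x
  have hP := hpos V Nb D hG hD1 L hL hadm hf (Nb x) U μ hcardx hUc hμ
  -- Step A
  have stepA : ∀ z, q z * pr Nb L (Nb z ∩ U) - p0 / 16 -
      ((Nb z ∩ (U' \ U)).card : ℝ) / (κ * D) ≤ p z := by
    intro z
    have hc := hcovV (Nb z \ U') (Nb z ∩ U)
    have hc1 := h1 z
    have hc2 := (abs_le.mp hc).1
    have hsub : Nb z ⊆ (Nb z \ U') ∪ (Nb z ∩ (U' \ U)) ∪ (Nb z ∩ U) := by
      intro a ha
      simp only [mem_union, mem_sdiff, mem_inter]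
      tauto
    have hm : EL L (fun h => un Nb (Nb z \ U') h * un Nb (Nb z ∩ U) h -
        ∑ y ∈ Nb z ∩ (U' \ U), chi (fired Nb h) y) ≤ EL L (un Nb (Nb z)) :=
      EL_mono L hL1 _ _ (fun h _ => ma_decomp Nb _ _ _ _ hsub h)
    rw [EL_sub, EL_sum] at hm
    have hs : ∑ y ∈ Nb z ∩ (U' \ U), EL L (fun h => chi (fired Nb h) y) ≤
        ((Nb z ∩ (U' \ U)).card : ℝ) / (κ * D) := by
      calc ∑ y ∈ Nb z ∩ (U' \ U), EL L (fun h => chi (fired Nb h) y)
          ≤ ∑ y ∈ Nb z ∩ (U' \ U), 1 / (κ * D) := by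
            apply Finset.sum_le_sum
            intro y _
            refine (hf y).trans ?_
            apply div_le_div_of_nonneg_right _ (by positivity)
            linarith
        _ = _ := by
            rw [Finset.sum_const, nsmul_eq_mul]
            ring
    have hq' : q z * pr Nb L (Nb z ∩ U) = pr Nb L (Nb z \ U') * pr Nb L (Nb z ∩ U) := rfl
    have hp' : p z = EL L (un Nb (Nb z)) := rfl
    rw [hq', hp']
    linarith
  -- Step B
  have hcard2 : ((Nb x).card : ℝ) ≤ 2 * D := by linarith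
  have stepB : ∑ z ∈ Nb x, μ z * pr Nb L (Nb z ∩ U) ≤ 1 + 1 / D + 1 / 8 + 1 / 8 := by
    have hz : ∀ z ∈ Nb x, μ z * pr Nb L (Nb z ∩ U) ≤
        1 / D + 1 / (D * p0) * (p0 / 16) +
          1 / (D * p0) * (((Nb z ∩ (U' \ U)).card : ℝ) / (κ * D)) := by
      intro z _
      have hA := stepA z
      have hcp : 0 ≤ 1 / (D * p z) := by
        have := hDp z
        positivity
      have e1 : μ z * pr Nb L (Nb z ∩ U) = 1 / (D * p z) * (q z * pr Nb L (Nb z ∩ U)) := by
        simp only [hμdef]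
        ring
      rw [e1]
      have e2 : q z * pr Nb L (Nb z ∩ U) ≤ p z + p0 / 16 +
          ((Nb z ∩ (U' \ U)).card : ℝ) / (κ * D) := by linarith
      calc 1 / (D * p z) * (q z * pr Nb L (Nb z ∩ U))
          ≤ 1 / (D * p z) * (p z + p0 / 16 + ((Nb z ∩ (U' \ U)).card : ℝ) / (κ * D)) :=
            mul_le_mul_of_nonneg_left e2 hcp
        _ = 1 / D + 1 / (D * p z) * (p0 / 16) +
            1 / (D * p z) * (((Nb z ∩ (U' \ U)).card : ℝ) / (κ * D)) :=
            ma_alg3 _ _ _ _ _ hDpos.ne' (hpp z).ne'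
        _ ≤ _ := by
            have h5 := mul_le_mul_of_nonneg_right (hinv z) (show (0:ℝ) ≤ p0 / 16 by positivity)
            have h6 := mul_le_mul_of_nonneg_right (hinv z)
              (show (0:ℝ) ≤ ((Nb z ∩ (U' \ U)).card : ℝ) / (κ * D) by positivity)
            linarith
    calc ∑ z ∈ Nb x, μ z * pr Nb L (Nb z ∩ U)
        ≤ ∑ z ∈ Nb x, (1 / D + 1 / (D * p0) * (p0 / 16) +
          1 / (D * p0) * (((Nb z ∩ (U' \ U)).card : ℝ) / (κ * D))) := Finset.sum_le_sum hz
      _ = (Nb x).card * (1 / D) + (Nb x).card * (1 / (16 * D)) +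
          1 / (κ * p0) * (1 / D ^ 2 * ∑ z ∈ Nb x, ((Nb z ∩ (U' \ U)).card : ℝ)) := by
          rw [Finset.sum_add_distrib, Finset.sum_add_distrib, Finset.sum_const, Finset.sum_const,
            nsmul_eq_mul, nsmul_eq_mul, ← Finset.mul_sum, ← Finset.sum_div]
          exact ma_alg1 _ _ _ _ _ hDpos.ne' hp0.ne' hκ.ne'
      _ ≤ (D + 1) * (1 / D) + (2 * D) * (1 / (16 * D)) + 1 / (κ * p0) * (κ * p0 / 8) := by
          have a1 : ((Nb x).card : ℝ) * (1 / D) ≤ (D + 1) * (1 / D) :=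
            mul_le_mul_of_nonneg_right hcardx (by positivity)
          have a2 : ((Nb x).card : ℝ) * (1 / (16 * D)) ≤ (2 * D) * (1 / (16 * D)) :=
            mul_le_mul_of_nonneg_right hcard2 (by positivity)
          have a3 := mul_le_mul_of_nonneg_left h3 (show (0:ℝ) ≤ 1 / (κ * p0) by positivity)
          linarith
      _ = 1 + 1 / D + 1 / 8 + 1 / 8 := ma_alg2 _ _ _ hDpos.ne' hp0.ne' hκ.ne'
  have hDinv : 1 / D ≤ 1 / 8 := one_div_le_one_div_of_le (by norm_num) hD8
  have hμZ : ∑ z ∈ Nb x, μ z ≤ 3 / 2 / β := by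
    rw [le_div_iff₀ hβ]
    nlinarith
  have hμZ0 : 0 ≤ ∑ z ∈ Nb x, μ z := Finset.sum_nonneg (fun z _ => (hμ z).1)
  -- Step C
  set Y : List (Finset V) → ℝ := fun h => ∑ z ∈ Nb x, 1 / (D * p z) * un Nb (Nb z \ U') h with hY
  have hEY : EL L Y = ∑ z ∈ Nb x, μ z := by
    rw [hY, EL_sum]
    apply Finset.sum_congr rfl
    intro z _
    rw [EL_mul_left]
    simp only [hμdef, hqdef]
    unfold pr
    ring
  have stepC : ∑ z ∈ Nb x, EL L (fun h => un Nb (Nb x) h * un Nb (Nb z) h) / (D * p z) ≤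
      EL L (fun h => un Nb (Nb x) h * Y h) := by
    have e1 : ∑ z ∈ Nb x, EL L (fun h => un Nb (Nb x) h * un Nb (Nb z) h) / (D * p z) =
        EL L (fun h => ∑ z ∈ Nb x, 1 / (D * p z) * (un Nb (Nb x) h * un Nb (Nb z) h)) := by
      rw [EL_sum]
      apply Finset.sum_congr rfl
      intro z _
      rw [EL_mul_left]
      ring
    rw [e1]
    apply EL_mono L hL1
    intro h _
    rw [hY]
    simp only
    rw [Finset.mul_sum]
    apply Finset.sum_le_sum
    intro z _
    have hcp : 0 ≤ 1 / (D * p z) := by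
      have := hDp z
      positivity
    have h5 := ma_un_anti Nb (Nb z \ U') (Nb z) Finset.sdiff_subset h
    have h6 := mul_le_mul_of_nonneg_left h5 (ma_un_nonneg Nb (Nb x) h)
    have h7 := mul_le_mul_of_nonneg_left h6 hcp
    calc _ ≤ _ := h7
      _ = _ := by ring
  -- Step D
  have stepD : Var L Y ≤ 2 * (p0 ^ 4 / (8 * β ^ 2)) / p0 ^ 2 := by
    have hsq : EL L (fun h => Y h ^ 2) = ∑ z ∈ Nb x, ∑ z' ∈ Nb x, 1 / (D * p z) *
        (1 / (D * p z')) * EL L (fun h => un Nb (Nb z \ U') h * un Nb (Nb z' \ U') h) := by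
      have : (fun h => Y h ^ 2) = (fun h => ∑ z ∈ Nb x, ∑ z' ∈ Nb x, 1 / (D * p z) *
        (1 / (D * p z')) * (un Nb (Nb z \ U') h * un Nb (Nb z' \ U') h)) := by
        funext h
        rw [hY, sq]
        simp only
        rw [Finset.sum_mul_sum]
        apply Finset.sum_congr rfl
        intro z _
        apply Finset.sum_congr rfl
        intro z' _
        ring
      rw [this, EL_sum]
      apply Finset.sum_congr rfl
      intro z _
      rw [EL_sum]
      apply Finset.sum_congr rfl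
      intro z' _
      rw [EL_mul_left]
    have hsq2 : (EL L Y) ^ 2 = ∑ z ∈ Nb x, ∑ z' ∈ Nb x, 1 / (D * p z) *
        (1 / (D * p z')) * (pr Nb L (Nb z \ U') * pr Nb L (Nb z' \ U')) := by
      rw [hEY, sq, Finset.sum_mul_sum]
      apply Finset.sum_congr rfl
      intro z _
      apply Finset.sum_congr rfl
      intro z' _
      simp only [hμdef, hqdef]
      ring
    rw [Var, hsq, hsq2, ← Finset.sum_sub_distrib]
    have hbound : ∀ z ∈ Nb x, (∑ z' ∈ Nb x, 1 / (D * p z) * (1 / (D * p z')) *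
        EL L (fun h => un Nb (Nb z \ U') h * un Nb (Nb z' \ U') h)) -
        (∑ z' ∈ Nb x, 1 / (D * p z) * (1 / (D * p z')) *
          (pr Nb L (Nb z \ U') * pr Nb L (Nb z' \ U'))) ≤
        1 / (D * p0) * (1 / (D * p0)) * (D * (p0 ^ 4 / (8 * β ^ 2))) := by
      intro z _
      rw [← Finset.sum_sub_distrib]
      have hz' : ∀ z' ∈ Nb x, 1 / (D * p z) * (1 / (D * p z')) *
          EL L (fun h => un Nb (Nb z \ U') h * un Nb (Nb z' \ U') h) -
          1 / (D * p z) * (1 / (D * p z')) * (pr Nb L (Nb z \ U') * pr Nb L (Nb z' \ U')) ≤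
          1 / (D * p0) * (1 / (D * p0)) * Gam Nb D C k (Nb z \ U') (Nb z' \ U') := by
        intro z' _
        have hc := hcovV (Nb z \ U') (Nb z' \ U')
        have hg0 : 0 ≤ Gam Nb D C k (Nb z \ U') (Nb z' \ U') := (abs_nonneg _).trans hc
        have hc2 := (abs_le.mp hc).2
        have hcp : 0 ≤ 1 / (D * p z) := by
          have := hDp z
          positivity
        have hcp' : 0 ≤ 1 / (D * p z') := by
          have := hDp z'
          positivity
        have hcc : 1 / (D * p z) * (1 / (D * p z')) ≤ 1 / (D * p0) * (1 / (D * p0)) :=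
          mul_le_mul (hinv z) (hinv z') hcp' (by positivity)
        calc _ = 1 / (D * p z) * (1 / (D * p z')) *
              (EL L (fun h => un Nb (Nb z \ U') h * un Nb (Nb z' \ U') h) -
              pr Nb L (Nb z \ U') * pr Nb L (Nb z' \ U')) := by ring
          _ ≤ 1 / (D * p z) * (1 / (D * p z')) * Gam Nb D C k (Nb z \ U') (Nb z' \ U') :=
              mul_le_mul_of_nonneg_left hc2 (mul_nonneg hcp hcp')
          _ ≤ _ := mul_le_mul_of_nonneg_right hcc hg0
      refine (Finset.sum_le_sum hz').trans ?_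
      rw [← Finset.mul_sum]
      apply mul_le_mul_of_nonneg_left _ (by positivity)
      have h2z := h2 z
      rw [one_div, inv_mul_le_iff₀ hDpos] at h2z
      exact h2z
    refine (Finset.sum_le_sum hbound).trans ?_
    rw [Finset.sum_const, nsmul_eq_mul]
    have hnn : 0 ≤ 1 / (D * p0) * (1 / (D * p0)) * (D * (p0 ^ 4 / (8 * β ^ 2))) := by positivity
    calc ((Nb x).card : ℝ) * (1 / (D * p0) * (1 / (D * p0)) * (D * (p0 ^ 4 / (8 * β ^ 2))))
        ≤ (2 * D) * (1 / (D * p0) * (1 / (D * p0)) * (D * (p0 ^ 4 / (8 * β ^ 2)))) :=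
          mul_le_mul_of_nonneg_right hcard2 hnn
      _ = _ := ma_alg4 _ _ _ hDpos.ne' hp0.ne' hβ.ne'
  have hvar : Real.sqrt (Var L Y) ≤ p x * (1 / 2 / β) := by
    have hvx : Var L Y ≤ (p x * (1 / 2 / β)) ^ 2 := by
      refine stepD.trans ?_
      have hpx : p0 ≤ p x := hp x
      have e1 : 2 * (p0 ^ 4 / (8 * β ^ 2)) / p0 ^ 2 = (p0 * (1 / 2 / β)) ^ 2 :=
        ma_alg5 _ _ hp0.ne' hβ.ne'
      rw [e1]
      apply pow_le_pow_left₀ (by positivity)
      exact mul_le_mul_of_nonneg_right hpx (by positivity)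
    have hnn : 0 ≤ p x * (1 / 2 / β) := by
      have := (hpp x).le
      positivity
    calc Real.sqrt (Var L Y) ≤ Real.sqrt ((p x * (1 / 2 / β)) ^ 2) := Real.sqrt_le_sqrt hvx
      _ = _ := Real.sqrt_sq hnn
  have hmul := EL_mul_le_of_var L hL1 (fun h => un Nb (Nb x) h) Y
    (fun h => ma_un_nonneg Nb (Nb x) h) (fun h => ma_un_le_one Nb (Nb x) h)
  have hfin : EL L (fun h => un Nb (Nb x) h * Y h) ≤ 2 / β * p x := by
    have e1 : EL L (fun h => un Nb (Nb x) h) = p x := rfl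
    rw [e1, hEY] at hmul
    have h5 : p x * ∑ z ∈ Nb x, μ z ≤ p x * (3 / 2 / β) :=
      mul_le_mul_of_nonneg_left hμZ (hpp x).le
    calc _ ≤ _ := hmul
      _ ≤ p x * (3 / 2 / β) + p x * (1 / 2 / β) := add_le_add h5 hvar
      _ = 2 / β * p x := by
          field_simp
          ring
  exact stepC.trans hfin

end Pool.Agent.Helper69.VU
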