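import Pool.Agent.Helper69.VU.Spec

/-!
# Project VU, module NUM: the numerical parameters of one batch
-/

set_option autoImplicit false

namespace Pool.Agent.Helper69.VU

open Finset

lemma num_decay (b : ℝ) (hb : 0 < b) (n : ℕ) :
    ∃ D1 : ℝ, ∀ D : ℝ, D1 ≤ D → 16 * (D + 1) ^ n * Real.exp (-(b * D)) ≤ 1 := by
  have T : Filter.Tendsto (fun D : ℝ => b * (D + 1)) Filter.atTop Filter.atTop := by
    apply Filter.Tendsto.const_mul_atTop hb
    exact Filter.tendsto_atTop_add_const_right _ _ Filter.tendsto_id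
  have T2 := (Real.tendsto_pow_mul_exp_neg_atTop_nhds_zero n).comp T
  have hε : 0 < b ^ n / (16 * Real.exp b) := by positivity
  have T3 := (T2.eventually_lt_const hε)
  obtain ⟨D1, hD1⟩ := Filter.eventually_atTop.mp T3
  refine ⟨D1, fun D hD => ?_⟩
  have h := hD1 D hD
  simp only [Function.comp] at h
  have e : (b * (D + 1)) ^ n * Real.exp (-(b * (D + 1))) =
      b ^ n / (16 * Real.exp b) * (16 * (D + 1) ^ n * Real.exp (-(b * D))) := by
    have e1 : -(b * (D + 1)) = -(b * D) + -b := by ring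
    rw [e1, Real.exp_add, Real.exp_neg b, mul_pow]
    have := Real.exp_pos b
    field_simp
  rw [e] at h
  by_contra hcon
  push Not at hcon
  have := mul_lt_mul_of_pos_left hcon hε
  linarith

lemma num_pow (ρ : ℝ) (h0 : 0 ≤ ρ) (h1 : ρ ≤ 1) (m : ℕ) :
    (1 - ρ) ^ m ≤ 1 - ρ * m + (ρ * m) ^ 2 / 2 := by
  set x := ρ * m with hx
  have hx0 : 0 ≤ x := by positivity
  have e1 : (1 - ρ) ^ m ≤ Real.exp (-x) := by
    have h2 : 1 - ρ ≤ Real.exp (-ρ) := by
      have := Real.add_one_le_exp (-ρ)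
      linarith
    calc (1 - ρ) ^ m ≤ (Real.exp (-ρ)) ^ m := pow_le_pow_left₀ (by linarith) h2 m
      _ = Real.exp (-x) := by
        rw [← Real.exp_nat_mul]
        congr 1
        rw [hx]
        ring
  have e2 : Real.exp (-x) ≤ 1 - x + x ^ 2 / 2 := by
    rw [Real.exp_neg]
    have h3 : 1 + x + x ^ 2 / 2 ≤ Real.exp x := Real.quadratic_le_exp_of_nonneg hx0
    have h4 : 0 < 1 - x + x ^ 2 / 2 := by nlinarith [sq_nonneg (x - 1)]
    rw [inv_le_comm₀ (Real.exp_pos x) h4]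
    refine le_trans ?_ h3
    rw [inv_le_iff_one_le_mul₀ h4]
    have : (1 + x + x ^ 2 / 2) * (1 - x + x ^ 2 / 2) = 1 + x ^ 4 / 4 := by ring
    rw [this]
    have : 0 ≤ x ^ 4 := by positivity
    linarith
  exact e1.trans e2

theorem num : StNum := by
  intro κ ε c r hκ hκ1 hε hε1 hc
  set a : ℝ := ε ^ 2 / 4 with ha
  have ha0 : 0 < a := by positivity
  set s : ℝ := 2 * a / (c + 1) with hs
  have hs0 : 0 < s := by positivity
  have hcs : c * s / 4 ≤ a / 2 := by
    have h1 : c * s / 4 = a / 2 * (c / (c + 1)) := by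
      rw [hs]
      field_simp
      ring
    have h2 : c / (c + 1) ≤ 1 := by
      rw [div_le_one (by linarith)]
      linarith
    rw [h1]
    calc a / 2 * (c / (c + 1)) ≤ a / 2 * 1 := mul_le_mul_of_nonneg_left h2 (by positivity)
      _ = a / 2 := by ring
  obtain ⟨D1, hD1⟩ := num_decay (κ * s * a / 2) (by positivity) (r + 2)
  refine ⟨a, s, max 1 (max D1 (8 / (κ * ε))), ha0, hs0, le_max_left _ _, ?_⟩
  intro D hD
  have hDD1 : D1 ≤ D := le_trans (le_trans (le_max_left _ _) (le_max_right _ _)) hD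
  have hD8 : 8 / (κ * ε) ≤ D := le_trans (le_trans (le_max_right _ _) (le_max_right _ _)) hD
  have hDone : 1 ≤ D := le_trans (le_max_left _ _) hD
  have hDpos : 0 < D := by linarith
  have hκD : 0 < κ * D := by positivity
  have h8 : 8 ≤ ε * (κ * D) := by
    rw [div_le_iff₀ (by positivity)] at hD8
    linarith
  have hκDle : κ * D ≤ D := by nlinarith
  set m : ℕ := ⌊ε * (κ * D)⌋₊ with hm
  have hm1 : (m : ℝ) ≤ ε * (κ * D) := Nat.floor_le (by positivity)
  have hm2 : ε * (κ * D) < m + 1 := Nat.lt_floor_add_one _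
  have hmone : 1 ≤ m := by
    have : (7 : ℝ) < m := by linarith
    have : 7 < m := by exact_mod_cast this
    omega
  set y : ℝ := m / (κ * D) with hy
  have hyε : y ≤ ε := by
    rw [hy, div_le_iff₀ hκD]
    exact hm1
  have hy34 : 3 / 4 * ε ≤ y := by
    rw [hy, le_div_iff₀ hκD]
    nlinarith
  have hy0 : 0 < y := by nlinarith
  have hmy : (m : ℝ) = y * (κ * D) := by
    rw [hy]
    field_simp
  set ρ : ℝ := (1 - 2 * ε) / (κ * D) with hρ
  have hρ0 : 0 ≤ ρ := div_nonneg (by linarith) hκD.le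
  have hρ1 : ρ ≤ 1 := by
    rw [hρ, div_le_one hκD]
    have : ε * (κ * D) ≤ 1 * (κ * D) := mul_le_mul_of_nonneg_right (by linarith) hκD.le
    linarith
  have hρm : ρ * m = (1 - 2 * ε) * y := by
    rw [hρ, hy]
    ring
  have hpow := num_pow ρ hρ0 hρ1 m
  rw [hρm] at hpow
  have hkey : y * (1 - 3 * ε) ≤ 1 - (1 - ρ) ^ m - a := by
    have h1 : ((1 - 2 * ε) * y) ^ 2 / 2 ≤ ε * y / 2 := by
      have h11 : (1 - 2 * ε) ^ 2 ≤ 1 := by nlinarith
      have h12 : ((1 - 2 * ε) * y) ^ 2 = (1 - 2 * ε) ^ 2 * y ^ 2 := by ring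
      have h13 : (1 - 2 * ε) ^ 2 * y ^ 2 ≤ 1 * y ^ 2 :=
        mul_le_mul_of_nonneg_right h11 (sq_nonneg _)
      have h14 : y ^ 2 ≤ ε * y := by nlinarith
      rw [h12]
      linarith
    have h2 : a ≤ ε * y / 3 := by
      rw [ha]
      nlinarith
    nlinarith
  have hmain : (m : ℝ) ≤ (1 + 16 * ε) * κ * (D - ((1 - ρ) ^ m * D + a * D)) := by
    have e : (1 + 16 * ε) * κ * (D - ((1 - ρ) ^ m * D + a * D)) =
        (1 + 16 * ε) * (1 - (1 - ρ) ^ m - a) * (κ * D) := by ring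
    rw [e, hmy]
    apply mul_le_mul_of_nonneg_right _ hκD.le
    calc y ≤ (1 + 16 * ε) * (y * (1 - 3 * ε)) := by
          have : (1 + 16 * ε) * (y * (1 - 3 * ε)) = y + y * ε * (13 - 48 * ε) := by ring
          rw [this]
          have : 0 ≤ y * ε * (13 - 48 * ε) := by
            apply mul_nonneg (by positivity)
            linarith
          linarith
      _ ≤ (1 + 16 * ε) * (1 - (1 - ρ) ^ m - a) :=
          mul_le_mul_of_nonneg_left hkey (by linarith)
  refine ⟨m, hmone, hρ0, hρ1, ?_, hmain, ?_⟩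
  · have h1 : D * (y * (1 - 3 * ε)) ≤ D * (1 - (1 - ρ) ^ m - a) :=
      mul_le_mul_of_nonneg_left hkey hDpos.le
    have h2 : 1 ≤ D * (y * (1 - 3 * ε)) := by
      have h3 : 3 / 4 * ε * (1 / 4) ≤ y * (1 - 3 * ε) := by
        apply mul_le_mul hy34 (by linarith) (by norm_num) hy0.le
      have h4 : 8 ≤ ε * D := by
        calc 8 ≤ ε * (κ * D) := h8
          _ ≤ ε * D := mul_le_mul_of_nonneg_left hκDle hε.le
      calc (1 : ℝ) ≤ D * (3 / 4 * ε * (1 / 4)) := by nlinarith
        _ ≤ D * (y * (1 - 3 * ε)) := mul_le_mul_of_nonneg_left h3 hDpos.le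
    nlinarith
  · have h1 := hD1 D hDD1
    have h2 : -(s * κ * a * D) + m * c * s ^ 2 ≤ -(κ * s * a / 2 * D) := by
      have h3 : (m : ℝ) ≤ κ * D / 4 := by
        have : ε * (κ * D) ≤ 1 / 4 * (κ * D) := mul_le_mul_of_nonneg_right hε1.le hκD.le
        linarith
      have h4 : (m : ℝ) * c * s ^ 2 ≤ κ * D / 4 * c * s ^ 2 := by
        apply mul_le_mul_of_nonneg_right _ (sq_nonneg _)
        exact mul_le_mul_of_nonneg_right h3 hc
      have h5 : κ * D / 4 * c * s ^ 2 = κ * D * s * (c * s / 4) := by ring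
      have h6 : κ * D * s * (c * s / 4) ≤ κ * D * s * (a / 2) :=
        mul_le_mul_of_nonneg_left hcs (by positivity)
      nlinarith
    calc 16 * (D + 1) ^ (r + 2) * Real.exp (-(s * κ * a * D) + m * c * s ^ 2)
        ≤ 16 * (D + 1) ^ (r + 2) * Real.exp (-(κ * s * a / 2 * D)) := by
          apply mul_le_mul_of_nonneg_left (Real.exp_le_exp.mpr h2) (by positivity)
      _ ≤ 1 := h1

end Pool.Agent.Helper69.VU
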