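import Pool.Agent.Helper69.VU.Spec

/-!
# Project VU, module POS-a: an energy-maximal set
-/

set_option autoImplicit false

namespace Pool.Agent.Helper69.VU

open Finset

namespace PosAm

variable {V : Type} [Fintype V] [DecidableEq V]

/-- the neighbours of `y` inside `A` -/
def nbA (Nb : V → Finset V) (A : Finset V) (y : V) : Finset V := A.filter (fun z => y ∈ Nb z)

/-- energy of `y` -/
noncomputable def en (Nb : V → Finset V) (μ : V → ℝ) (Z Y : Finset V) (y : V) : ℝ :=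
  ∑ s ∈ Y.powerset, (ms μ (nbA Nb (cls Nb Z Y s) y)) ^ 2 / ms μ (cls Nb Z Y s)

omit [Fintype V] [DecidableEq V] in
lemma ms_nonneg (μ : V → ℝ) (hμ : ∀ z, 0 ≤ μ z) (A : Finset V) : 0 ≤ ms μ A :=
  Finset.sum_nonneg (fun z _ => hμ z)

omit [Fintype V] [DecidableEq V] in
lemma ms_mono (μ : V → ℝ) (hμ : ∀ z, 0 ≤ μ z) (A B : Finset V) (h : A ⊆ B) : ms μ A ≤ ms μ B :=
  Finset.sum_le_sum_of_subset_of_nonneg h (fun z _ _ => hμ z)

omit [Fintype V] in
lemma ms_nbA_le (Nb : V → Finset V) (μ : V → ℝ) (hμ : ∀ z, 0 ≤ μ z) (A : Finset V) (y : V) :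
    ms μ (nbA Nb A y) ≤ ms μ A := ms_mono μ hμ _ _ (Finset.filter_subset _ _)

omit [Fintype V] in
/-- splitting a class -/
lemma sum_cls_split (Nb : V → Finset V) (Z Y B s : Finset V) (f : V → ℝ) :
    ∑ z ∈ cls Nb Z Y s, f z =
      ∑ u ∈ (Y ∪ B).powerset.filter (fun u => u ∩ Y = s), ∑ z ∈ cls Nb Z (Y ∪ B) u, f z := by
  have hmaps : ∀ z ∈ cls Nb Z Y s, Nb z ∩ (Y ∪ B) ∈
      (Y ∪ B).powerset.filter (fun u => u ∩ Y = s) := by
    intro z hz
    rw [cls, mem_filter] at hz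
    rw [mem_filter, mem_powerset]
    refine ⟨inter_subset_right, ?_⟩
    rw [← hz.2]
    ext v
    simp only [mem_inter, mem_union]
    tauto
  rw [← Finset.sum_fiberwise_of_maps_to hmaps]
  apply Finset.sum_congr rfl
  intro u hu
  rw [mem_filter, mem_powerset] at hu
  apply Finset.sum_congr _ (fun _ _ => rfl)
  ext z
  simp only [cls, mem_filter]
  constructor
  · rintro ⟨⟨h1, _⟩, h3⟩
    exact ⟨h1, h3⟩
  · rintro ⟨h1, h3⟩
    refine ⟨⟨h1, ?_⟩, h3⟩
    rw [← hu.2, ← h3]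
    ext v
    simp only [mem_inter, mem_union]
    tauto

omit [Fintype V] in
lemma ms_cls_split (Nb : V → Finset V) (μ : V → ℝ) (Z Y B s : Finset V) :
    ms μ (cls Nb Z Y s) =
      ∑ u ∈ (Y ∪ B).powerset.filter (fun u => u ∩ Y = s), ms μ (cls Nb Z (Y ∪ B) u) :=
  sum_cls_split Nb Z Y B s μ

omit [Fintype V] in
lemma ms_nbA (Nb : V → Finset V) (μ : V → ℝ) (A : Finset V) (y : V) :
    ms μ (nbA Nb A y) = ∑ z ∈ A, if y ∈ Nb z then μ z else 0 := by
  unfold ms nbA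
  rw [Finset.sum_filter]

omit [Fintype V] in
lemma ms_nbA_split (Nb : V → Finset V) (μ : V → ℝ) (Z Y B s : Finset V) (y : V) :
    ms μ (nbA Nb (cls Nb Z Y s) y) =
      ∑ u ∈ (Y ∪ B).powerset.filter (fun u => u ∩ Y = s),
        ms μ (nbA Nb (cls Nb Z (Y ∪ B) u) y) := by
  simp only [ms_nbA]
  exact sum_cls_split Nb Z Y B s _

omit [Fintype V] in
lemma sum_powerset_split (Y B : Finset V) (F : Finset V → Finset V → ℝ) :
    ∑ u ∈ (Y ∪ B).powerset, F (u ∩ Y) u =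
      ∑ s ∈ Y.powerset, ∑ u ∈ (Y ∪ B).powerset.filter (fun u => u ∩ Y = s), F s u := by
  have hmaps : ∀ u ∈ (Y ∪ B).powerset, u ∩ Y ∈ Y.powerset := by
    intro u _
    rw [mem_powerset]
    exact inter_subset_right
  rw [← Finset.sum_fiberwise_of_maps_to hmaps]
  apply Finset.sum_congr rfl
  intro s _
  apply Finset.sum_congr rfl
  intro u hu
  rw [mem_filter] at hu
  rw [hu.2]

omit [Fintype V] in
/-- the variance identity -/
lemma en_diff (Nb : V → Finset V) (μ : V → ℝ) (hμ : ∀ z, 0 ≤ μ z) (Z Y B : Finset V) (y : V) :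
    ∑ u ∈ (Y ∪ B).powerset,
      (ms μ (nbA Nb (cls Nb Z (Y ∪ B) u) y) -
        dens Nb μ (cls Nb Z Y (u ∩ Y)) y * ms μ (cls Nb Z (Y ∪ B) u)) ^ 2 /
        ms μ (cls Nb Z (Y ∪ B) u) = en Nb μ Z (Y ∪ B) y - en Nb μ Z Y y := by
  set a : Finset V → ℝ := fun u => ms μ (nbA Nb (cls Nb Z (Y ∪ B) u) y) with ha
  set m : Finset V → ℝ := fun u => ms μ (cls Nb Z (Y ∪ B) u) with hm
  set d : Finset V → ℝ := fun s => dens Nb μ (cls Nb Z Y s) y with hd
  have h0 : ∀ u, m u = 0 → a u = 0 := by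
    intro u hu
    have h1 := ms_nbA_le Nb μ hμ (cls Nb Z (Y ∪ B) u) y
    have h2 := ms_nonneg μ hμ (nbA Nb (cls Nb Z (Y ∪ B) u) y)
    simp only [ha, hm] at hu ⊢
    linarith
  have h1 : ∀ u, (a u - d (u ∩ Y) * m u) ^ 2 / m u =
      (a u) ^ 2 / m u - (2 * d (u ∩ Y) * a u - (d (u ∩ Y)) ^ 2 * m u) := by
    intro u
    by_cases hu : m u = 0
    · rw [h0 u hu, hu]
      simp
    · field_simp
      ring
  have h2 : ∑ u ∈ (Y ∪ B).powerset, (2 * d (u ∩ Y) * a u - (d (u ∩ Y)) ^ 2 * m u) =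
      en Nb μ Z Y y := by
    rw [sum_powerset_split Y B (fun s u => 2 * d s * a u - (d s) ^ 2 * m u)]
    unfold en
    apply Finset.sum_congr rfl
    intro s _
    rw [Finset.sum_sub_distrib, ← Finset.mul_sum, ← Finset.mul_sum]
    have e1 : ∑ u ∈ (Y ∪ B).powerset.filter (fun u => u ∩ Y = s), a u =
        ms μ (nbA Nb (cls Nb Z Y s) y) := (ms_nbA_split Nb μ Z Y B s y).symm
    have e2 : ∑ u ∈ (Y ∪ B).powerset.filter (fun u => u ∩ Y = s), m u =
        ms μ (cls Nb Z Y s) := (ms_cls_split Nb μ Z Y B s).symm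
    rw [e1, e2]
    have e3 : d s = ms μ (nbA Nb (cls Nb Z Y s) y) / ms μ (cls Nb Z Y s) := rfl
    rw [e3]
    by_cases hs : ms μ (cls Nb Z Y s) = 0
    · rw [hs]
      simp
    · field_simp
      ring
  show ∑ u ∈ (Y ∪ B).powerset, (a u - d (u ∩ Y) * m u) ^ 2 / m u = _
  rw [Finset.sum_congr rfl (fun u _ => h1 u), Finset.sum_sub_distrib, h2]
  rfl

omit [Fintype V] in
lemma en_nonneg (Nb : V → Finset V) (μ : V → ℝ) (hμ : ∀ z, 0 ≤ μ z) (Z Y : Finset V) (y : V) :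
    0 ≤ en Nb μ Z Y y :=
  Finset.sum_nonneg (fun _ _ => div_nonneg (sq_nonneg _) (ms_nonneg μ hμ _))

omit [Fintype V] in
lemma sum_cls (Nb : V → Finset V) (Z Y : Finset V) (f : V → ℝ) :
    ∑ s ∈ Y.powerset, ∑ z ∈ cls Nb Z Y s, f z = ∑ z ∈ Z, f z := by
  have hmaps : ∀ z ∈ Z, Nb z ∩ Y ∈ Y.powerset := by
    intro z _
    rw [mem_powerset]
    exact inter_subset_right
  rw [← Finset.sum_fiberwise_of_maps_to hmaps]
  rfl

omit [Fintype V] in
lemma en_le (Nb : V → Finset V) (μ : V → ℝ) (hμ : ∀ z, 0 ≤ μ z) (Z Y : Finset V) (y : V) :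
    en Nb μ Z Y y ≤ ms μ (nbA Nb Z y) := by
  have h1 : ∑ s ∈ Y.powerset, ms μ (nbA Nb (cls Nb Z Y s) y) = ms μ (nbA Nb Z y) := by
    simp only [ms_nbA]
    exact sum_cls Nb Z Y _
  rw [← h1]
  apply Finset.sum_le_sum
  intro s _
  have h2 := ms_nbA_le Nb μ hμ (cls Nb Z Y s) y
  have h3 := ms_nonneg μ hμ (nbA Nb (cls Nb Z Y s) y)
  rcases (ms_nonneg μ hμ (cls Nb Z Y s)).lt_or_eq with h | h
  · rw [div_le_iff₀ h, sq]
    exact mul_le_mul_of_nonneg_left h2 h3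
  · rw [← h]
    simp [h3]

omit [Fintype V] in
lemma sum_nbA_le (Nb : V → Finset V) (μ : V → ℝ) (D M : ℝ) (hD : 0 ≤ D) (hM : 0 ≤ M)
    (hμ : ∀ z, 0 ≤ μ z ∧ μ z ≤ M) (hdeg : ∀ v, ((Nb v).card : ℝ) ≤ D + 1) (Z U : Finset V)
    (hZ : (Z.card : ℝ) ≤ D + 1) :
    ∑ y ∈ U, ms μ (nbA Nb Z y) ≤ (D + 1) * (M * (D + 1)) := by
  simp only [ms_nbA]
  rw [Finset.sum_comm]
  have h1 : ∀ z ∈ Z, ∑ y ∈ U, (if y ∈ Nb z then μ z else 0) ≤ M * (D + 1) := by
    intro z _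
    rw [← Finset.sum_filter, Finset.sum_const, nsmul_eq_mul]
    have h2 : (((U.filter (fun y => y ∈ Nb z)).card : ℕ) : ℝ) ≤ D + 1 := by
      refine le_trans ?_ (hdeg z)
      exact_mod_cast Finset.card_le_card (fun y hy => (mem_filter.mp hy).2)
    rw [mul_comm]
    exact mul_le_mul (hμ z).2 h2 (Nat.cast_nonneg _) hM
  refine (Finset.sum_le_sum h1).trans ?_
  rw [Finset.sum_const, nsmul_eq_mul]
  exact mul_le_mul_of_nonneg_right hZ (mul_nonneg hM (by linarith))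

end PosAm

open PosAm in
theorem posA : StPosA := by
  intro V _ _ Nb D C1 M0 ρ hD hdeg hC1 hM0 hρ Z U μ hZ hU hμ
  have hD0 : 0 < D := by linarith
  have hμ0 : ∀ z, 0 ≤ μ z := fun z => (hμ z).1
  set e : Finset V → ℝ := fun Y => ∑ y ∈ U, en Nb μ Z Y y with he
  have he0 : ∀ Y, 0 ≤ e Y := fun Y => Finset.sum_nonneg (fun y _ => en_nonneg Nb μ hμ0 Z Y y)
  have hMD : 0 ≤ M0 / D := div_nonneg (by linarith) hD0.le
  have he1 : ∀ Y, e Y ≤ 4 * M0 * D := by
    intro Y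
    have h1 : e Y ≤ ∑ y ∈ U, ms μ (nbA Nb Z y) :=
      Finset.sum_le_sum (fun y _ => en_le Nb μ hμ0 Z Y y)
    have h2 := sum_nbA_le Nb μ D (M0 / D) hD0.le hMD hμ hdeg Z U hZ
    have h3 : (D + 1) * (M0 / D * (D + 1)) ≤ 4 * M0 * D := by
      have : (D + 1) * (M0 / D * (D + 1)) = M0 * (D + 1) ^ 2 / D := by
        field_simp
      rw [this, div_le_iff₀ hD0]
      have h4 : (D + 1) ^ 2 ≤ 4 * D ^ 2 := by nlinarith
      have := mul_le_mul_of_nonneg_left h4 (show (0 : ℝ) ≤ M0 by linarith)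
      linarith
    linarith
  obtain ⟨Y, hY, hmax⟩ := Finset.exists_max_image U.powerset
    (fun Y => e Y - ρ * D * (Y.card : ℝ)) ⟨∅, Finset.empty_mem_powerset U⟩
  have hYU : Y ⊆ U := mem_powerset.mp hY
  refine ⟨Y, hYU, ?_, ?_⟩
  · have h1 := hmax ∅ (Finset.empty_mem_powerset U)
    simp only [Finset.card_empty, Nat.cast_zero, mul_zero, sub_zero] at h1
    have h2 := he0 ∅
    have h3 := he1 Y
    rw [le_div_iff₀ hρ]
    have h4 : ρ * D * (Y.card : ℝ) ≤ 4 * M0 * D := by linarith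
    have h5 : (Y.card : ℝ) * ρ * D ≤ 4 * M0 * D := by linarith
    exact le_of_mul_le_mul_right h5 hD0
  · intro B hB
    have hYB : Y ∪ B ∈ U.powerset := mem_powerset.mpr (Finset.union_subset hYU hB)
    have h1 := hmax (Y ∪ B) hYB
    have hcard : ((Y ∪ B).card : ℝ) ≤ (Y.card : ℝ) + (B.card : ℝ) := by
      exact_mod_cast Finset.card_union_le Y B
    have hρD : 0 ≤ ρ * D := mul_nonneg hρ.le hD0.le
    have h2 : e (Y ∪ B) - e Y ≤ ρ * D * (B.card : ℝ) := by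
      have := mul_le_mul_of_nonneg_left hcard hρD
      linarith
    -- Cauchy-Schwarz over the product index set
    set P : Finset (V × Finset V) := U ×ˢ (Y ∪ B).powerset with hP
    set m : Finset V → ℝ := fun u => ms μ (cls Nb Z (Y ∪ B) u) with hm
    set r : V × Finset V → ℝ := fun p =>
      |ms μ (nbA Nb (cls Nb Z (Y ∪ B) p.2) p.1) -
        dens Nb μ (cls Nb Z Y (p.2 ∩ Y)) p.1 * m p.2| with hr
    set g : V × Finset V → ℝ := fun p =>
      (ms μ (nbA Nb (cls Nb Z (Y ∪ B) p.2) p.1) -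
        dens Nb μ (cls Nb Z Y (p.2 ∩ Y)) p.1 * m p.2) ^ 2 / m p.2 with hg
    have hm0 : ∀ u, 0 ≤ m u := fun u => ms_nonneg μ hμ0 _
    have hsum1 : ∑ y ∈ U, dev Nb μ Z Y y B = ∑ p ∈ P, r p := by
      rw [hP, Finset.sum_product]
      rfl
    have hsum2 : ∑ p ∈ P, m p.2 ≤ C1 * D * (2 * M0) := by
      rw [hP, Finset.sum_product]
      simp only
      rw [Finset.sum_const, nsmul_eq_mul]
      have h3 : ∑ u ∈ (Y ∪ B).powerset, m u = ms μ Z := sum_cls Nb Z (Y ∪ B) μ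
      rw [h3]
      have h4 : ms μ Z ≤ 2 * M0 := by
        have h5 : ms μ Z ≤ (Z.card : ℝ) * (M0 / D) := by
          unfold ms
          rw [← nsmul_eq_mul]
          exact Finset.sum_le_card_nsmul Z μ _ (fun z _ => (hμ z).2)
        have h6 : (Z.card : ℝ) * (M0 / D) ≤ (D + 1) * (M0 / D) :=
          mul_le_mul_of_nonneg_right hZ hMD
        have h7 : (D + 1) * (M0 / D) ≤ 2 * M0 := by
          rw [mul_div_assoc', div_le_iff₀ hD0]
          nlinarith
        linarith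
      exact mul_le_mul hU h4 (ms_nonneg μ hμ0 Z) (mul_nonneg hC1 hD0.le)
    have hsum3 : ∑ p ∈ P, g p = e (Y ∪ B) - e Y := by
      rw [hP, Finset.sum_product]
      simp only [he]
      rw [← Finset.sum_sub_distrib]
      apply Finset.sum_congr rfl
      intro y _
      exact en_diff Nb μ hμ0 Z Y B y
    have hCS : (∑ p ∈ P, r p) ^ 2 ≤ (∑ p ∈ P, m p.2) * ∑ p ∈ P, g p := by
      apply Finset.sum_sq_le_sum_mul_sum_of_sq_le_mul
      · intro p _
        exact hm0 p.2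
      · intro p _
        exact div_nonneg (sq_nonneg _) (hm0 p.2)
      · intro p _
        apply le_of_eq
        simp only [hr, hg]
        rw [sq_abs]
        by_cases hu : m p.2 = 0
        · have h5 : ms μ (nbA Nb (cls Nb Z (Y ∪ B) p.2) p.1) = 0 := by
            have h6 := ms_nbA_le Nb μ hμ0 (cls Nb Z (Y ∪ B) p.2) p.1
            have h7 := ms_nonneg μ hμ0 (nbA Nb (cls Nb Z (Y ∪ B) p.2) p.1)
            simp only [hm] at hu
            linarith
          rw [h5, hu]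
          simp
        · field_simp
    rw [hsum1]
    have hr0 : 0 ≤ ∑ p ∈ P, r p := Finset.sum_nonneg (fun p _ => abs_nonneg _)
    have hg0 : 0 ≤ ∑ p ∈ P, g p :=
      Finset.sum_nonneg (fun p _ => div_nonneg (sq_nonneg _) (hm0 p.2))
    have h8 : (∑ p ∈ P, r p) ^ 2 ≤ (C1 * D * (2 * M0)) * (ρ * D * (B.card : ℝ)) := by
      refine hCS.trans ?_
      apply mul_le_mul hsum2 _ hg0
      · have := mul_nonneg hC1 hD0.le
        nlinarith
      · rw [hsum3]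
        exact h2
    have h9 : (C1 * D * (2 * M0)) * (ρ * D * (B.card : ℝ)) =
        (D * Real.sqrt (2 * C1 * M0 * ρ) * Real.sqrt (B.card : ℝ)) ^ 2 := by
      rw [mul_pow, mul_pow, Real.sq_sqrt, Real.sq_sqrt (Nat.cast_nonneg _)]
      · ring
      · have := mul_nonneg hC1 (show (0 : ℝ) ≤ M0 by linarith)
        nlinarith [mul_nonneg this hρ.le]
    rw [h9] at h8
    have h10 : 0 ≤ D * Real.sqrt (2 * C1 * M0 * ρ) * Real.sqrt (B.card : ℝ) :=
      mul_nonneg (mul_nonneg hD0.le (Real.sqrt_nonneg _)) (Real.sqrt_nonneg _)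
    exact le_of_sq_le_sq h8 h10

end Pool.Agent.Helper69.VU
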