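import Pool.Agent.Helper69.VU.Spec

/-!
# Project VU: POS-c, the product formula
-/

set_option autoImplicit false

namespace Pool.Agent.Helper69.VU

open Finset

section PosC

variable {V : Type} [DecidableEq V]

omit [DecidableEq V] in
theorem posC_ms_nonneg {μ : V → ℝ} (hμ : ∀ z, 0 ≤ μ z) (A : Finset V) : 0 ≤ ms μ A :=
  Finset.sum_nonneg (fun z _ => hμ z)

omit [DecidableEq V] in
theorem posC_ms_mono {μ : V → ℝ} (hμ : ∀ z, 0 ≤ μ z) {A B : Finset V} (h : A ⊆ B) :
    ms μ A ≤ ms μ B :=
  Finset.sum_le_sum_of_subset_of_nonneg h (fun z _ _ => hμ z)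

theorem posC_dens_nonneg (Nb : V → Finset V) {μ : V → ℝ} (hμ : ∀ z, 0 ≤ μ z) (A : Finset V)
    (y : V) : 0 ≤ dens Nb μ A y :=
  div_nonneg (posC_ms_nonneg hμ _) (posC_ms_nonneg hμ _)

theorem posC_dens_le_one (Nb : V → Finset V) {μ : V → ℝ} (hμ : ∀ z, 0 ≤ μ z) (A : Finset V)
    (y : V) : dens Nb μ A y ≤ 1 :=
  div_le_one_of_le₀ (posC_ms_mono hμ (Finset.filter_subset _ _)) (posC_ms_nonneg hμ _)

/-- one step of the product formula, class by class -/
theorem posC_step (Nb : V → Finset V) {μ : V → ℝ} (hμ : ∀ z, 0 ≤ μ z) (A F : Finset V) (y : V)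
    (hy : y ∉ F) :
    |ms μ (A.filter (fun z => Disjoint (Nb z) (insert y F))) -
        ms μ A * ∏ w ∈ insert y F, (1 - dens Nb μ A w)| ≤
      |ms μ (A.filter (fun z => Disjoint (Nb z) F)) - ms μ A * ∏ w ∈ F, (1 - dens Nb μ A w)| +
      |ms μ ((A.filter (fun z => Disjoint (Nb z) F)).filter (fun z => y ∈ Nb z)) -
        dens Nb μ A y * ms μ (A.filter (fun z => Disjoint (Nb z) F))| := by
  have h1 : ms μ (A.filter (fun z => Disjoint (Nb z) (insert y F))) =
      ms μ (A.filter (fun z => Disjoint (Nb z) F)) -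
        ms μ ((A.filter (fun z => Disjoint (Nb z) F)).filter (fun z => y ∈ Nb z)) := by
    have h2 : A.filter (fun z => Disjoint (Nb z) (insert y F)) =
        (A.filter (fun z => Disjoint (Nb z) F)).filter (fun z => ¬ y ∈ Nb z) := by
      ext z
      simp only [Finset.mem_filter, Finset.disjoint_insert_right]
      tauto
    have h3 := Finset.sum_filter_add_sum_filter_not
      (A.filter (fun z => Disjoint (Nb z) F)) (fun z => y ∈ Nb z) μ
    unfold ms
    rw [h2]
    linarith
  set a := ms μ (A.filter (fun z => Disjoint (Nb z) F)) with ha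
  set b := ms μ ((A.filter (fun z => Disjoint (Nb z) F)).filter (fun z => y ∈ Nb z)) with hb
  set P := ∏ w ∈ F, (1 - dens Nb μ A w) with hP
  have hd0 := posC_dens_nonneg Nb hμ A y
  have hd1 := posC_dens_le_one Nb hμ A y
  set d := dens Nb μ A y with hd
  rw [h1, Finset.prod_insert hy]
  have h4 : a - b - ms μ A * ((1 - d) * P) = (a - ms μ A * P) * (1 - d) - (b - d * a) := by ring
  rw [h4]
  calc |(a - ms μ A * P) * (1 - d) - (b - d * a)|
      ≤ |(a - ms μ A * P) * (1 - d)| + |b - d * a| := abs_sub _ _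
    _ = |a - ms μ A * P| * (1 - d) + |b - d * a| := by
        rw [abs_mul, abs_of_nonneg (by linarith : (0 : ℝ) ≤ 1 - d)]
    _ ≤ |a - ms μ A * P| + |b - d * a| := by
        have := abs_nonneg (a - ms μ A * P)
        nlinarith

/-- the part of a class missing `F` -/
theorem posC_cls_filter (Nb : V → Finset V) (Z Y F s : Finset V) (hs : s ⊆ Y) :
    (cls Nb Z Y s).filter (fun z => Disjoint (Nb z) F) =
      if Disjoint s F then cls Nb Z (Y ∪ F) s else ∅ := by
  split_ifs with h
  · ext z
    simp only [cls, Finset.mem_filter]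
    constructor
    · rintro ⟨⟨hz, h1⟩, h2⟩
      refine ⟨hz, ?_⟩
      rw [Finset.inter_union_distrib_left, h1, Finset.disjoint_iff_inter_eq_empty.mp h2,
        Finset.union_empty]
    · rintro ⟨hz, h1⟩
      have h2 : Nb z ∩ Y = s := by
        have h3 : Nb z ∩ Y = (Nb z ∩ (Y ∪ F)) ∩ Y := by
          ext w
          simp only [Finset.mem_inter, Finset.mem_union]
          tauto
        rw [h3, h1]
        exact Finset.inter_eq_left.mpr hs
      refine ⟨⟨hz, h2⟩, ?_⟩
      rw [Finset.disjoint_left]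
      intro w hw hwF
      have h3 : w ∈ s := by
        rw [← h1]
        exact Finset.mem_inter.mpr ⟨hw, Finset.mem_union_right _ hwF⟩
      exact Finset.disjoint_left.mp h h3 hwF
  · ext z
    simp only [cls, Finset.mem_filter, Finset.notMem_empty, iff_false]
    rintro ⟨⟨_, h1⟩, h2⟩
    apply h
    rw [← h1]
    exact Disjoint.mono_left Finset.inter_subset_left h2

/-- the second error term is part of the deviation -/
theorem posC_dev (Nb : V → Finset V) (Z Y F : Finset V) (μ : V → ℝ) (y : V) :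
    ∑ s ∈ Y.powerset,
      |ms μ (((cls Nb Z Y s).filter (fun z => Disjoint (Nb z) F)).filter (fun z => y ∈ Nb z)) -
        dens Nb μ (cls Nb Z Y s) y * ms μ ((cls Nb Z Y s).filter (fun z => Disjoint (Nb z) F))| ≤
      dev Nb μ Z Y y F := by
  unfold dev
  have h0 : ∀ s ∈ Y.powerset,
      |ms μ (((cls Nb Z Y s).filter (fun z => Disjoint (Nb z) F)).filter (fun z => y ∈ Nb z)) -
        dens Nb μ (cls Nb Z Y s) y * ms μ ((cls Nb Z Y s).filter (fun z => Disjoint (Nb z) F))| ≤
      |ms μ ((cls Nb Z (Y ∪ F) s).filter (fun z => y ∈ Nb z)) -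
        dens Nb μ (cls Nb Z Y (s ∩ Y)) y * ms μ (cls Nb Z (Y ∪ F) s)| := by
    intro s hs
    have hs' : s ⊆ Y := Finset.mem_powerset.mp hs
    rw [posC_cls_filter Nb Z Y F s hs', Finset.inter_eq_left.mpr hs']
    split_ifs with h
    · exact le_refl _
    · have h1 : ms μ ((∅ : Finset V).filter (fun z => y ∈ Nb z)) = 0 := by
        simp [ms]
      have h2 : ms μ (∅ : Finset V) = 0 := by simp [ms]
      rw [h1, h2, mul_zero, sub_zero, abs_zero]
      exact abs_nonneg _
  refine le_trans (Finset.sum_le_sum h0) ?_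
  exact Finset.sum_le_sum_of_subset_of_nonneg
    (Finset.powerset_mono.mpr Finset.subset_union_left) (fun _ _ _ => abs_nonneg _)

/-- POS-c from the monotonicity of the deviation -/
theorem posC : StPosB → StPosC := by
  intro hB V _ _ Nb Z Y μ hμ F
  induction F using Finset.induction_on with
  | empty =>
    simp [Finset.filter_true_of_mem]
  | insert y F hy ih =>
    have h1 : ∑ s ∈ Y.powerset,
        |ms μ ((cls Nb Z Y s).filter (fun z => Disjoint (Nb z) (insert y F))) -
          ms μ (cls Nb Z Y s) * ∏ w ∈ insert y F, (1 - dens Nb μ (cls Nb Z Y s) w)| ≤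
        ∑ s ∈ Y.powerset, (|ms μ ((cls Nb Z Y s).filter (fun z => Disjoint (Nb z) F)) -
            ms μ (cls Nb Z Y s) * ∏ w ∈ F, (1 - dens Nb μ (cls Nb Z Y s) w)| +
          |ms μ (((cls Nb Z Y s).filter (fun z => Disjoint (Nb z) F)).filter
              (fun z => y ∈ Nb z)) -
            dens Nb μ (cls Nb Z Y s) y *
              ms μ ((cls Nb Z Y s).filter (fun z => Disjoint (Nb z) F))|) :=
      Finset.sum_le_sum (fun s _ => posC_step Nb hμ (cls Nb Z Y s) F y hy)
    rw [Finset.sum_add_distrib] at h1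
    have h2 := posC_dev Nb Z Y F μ y
    have h3 : ∑ w ∈ F, dev Nb μ Z Y w (F.erase w) ≤
        ∑ w ∈ F, dev Nb μ Z Y w ((insert y F).erase w) := by
      refine Finset.sum_le_sum (fun w _ => ?_)
      exact hB V Nb Z Y μ w _ _ (Finset.erase_subset_erase w (Finset.subset_insert y F))
    rw [Finset.sum_insert hy, Finset.erase_insert hy]
    linarith

end PosC

end Pool.Agent.Helper69.VU
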