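import Pool.Agent.Helper69.VU.Spec

/-!
# Project VU: module PosD, expected total deviation over the fired set
-/

set_option autoImplicit false

namespace Pool.Agent.Helper69.VU

open Finset

namespace PosD

variable {V : Type} [Fintype V] [DecidableEq V]

theorem fired_subset_act (Nb : V → Finset V) (h : List (Finset V)) : fired Nb h ⊆ act h := by
  induction h with
  | nil => exact Finset.Subset.refl _
  | cons B h ih =>
    show (B ∩ alive Nb h) ∪ fired Nb h ⊆ B ∪ act h
    exact Finset.union_subset_union Finset.inter_subset_left ih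

theorem pointwise (Nb : V → Finset V) (U : Finset V) (g : V → Finset V → ℝ)
    (hg0 : ∀ y S, 0 ≤ g y S) (hg : ∀ y S S', S ⊆ S' → g y S ≤ g y S') (h : List (Finset V)) :
    ∑ y ∈ fired Nb h ∩ U, g y ((fired Nb h ∩ U).erase y) ≤
      ∑ y ∈ U, (if y ∈ act h then 1 else 0) * g y ((act h).erase y ∩ U) := by
  have hsub : fired Nb h ∩ U ⊆ act h ∩ U :=
    Finset.inter_subset_inter (fired_subset_act Nb h) (Finset.Subset.refl _)
  calc ∑ y ∈ fired Nb h ∩ U, g y ((fired Nb h ∩ U).erase y)
      ≤ ∑ y ∈ fired Nb h ∩ U, g y ((act h ∩ U).erase y) :=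
        Finset.sum_le_sum (fun y _ => hg y _ _ (Finset.erase_subset_erase y hsub))
    _ ≤ ∑ y ∈ act h ∩ U, g y ((act h ∩ U).erase y) :=
        Finset.sum_le_sum_of_subset_of_nonneg hsub (fun y _ _ => hg0 y _)
    _ = ∑ y ∈ U.filter (fun y => y ∈ act h), g y ((act h).erase y ∩ U) := by
        apply Finset.sum_congr
        · ext y
          simp only [mem_inter, mem_filter]
          exact And.comm
        · intro y _
          rw [Finset.erase_inter]
    _ = ∑ y ∈ U, (if y ∈ act h then 1 else 0) * g y ((act h).erase y ∩ U) := by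
        rw [Finset.sum_filter]
        apply Finset.sum_congr rfl
        intro y _
        split_ifs <;> ring

theorem exp_card (L : List (V → ℝ)) (b : ℝ) (hb : b ≤ 1) (hL : AdmL L b) (U : Finset V) :
    EL L (fun h => ((act h ∩ U).card : ℝ)) ≤ L.length * b * U.card := by
  have e : (fun h : List (Finset V) => ((act h ∩ U).card : ℝ)) =
      (fun h => ∑ y ∈ U, (if y ∈ act h then (1 : ℝ) else 0) * 1) := by
    funext h
    simp only [mul_one]
    rw [Finset.sum_boole]
    congr 2
    ext y
    simp only [mem_inter, mem_filter]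
    exact And.comm
  rw [e, EL_sum]
  calc ∑ y ∈ U, EL L (fun h => (if y ∈ act h then (1 : ℝ) else 0) * 1)
      ≤ ∑ _y ∈ U, (L.length * b) := by
        apply Finset.sum_le_sum
        intro y _
        have := EL_act_indep L b hb hL y (fun _ => 1) (fun _ => zero_le_one)
        rwa [EL_const, mul_one] at this
    _ = L.length * b * U.card := by
        rw [Finset.sum_const, nsmul_eq_mul]
        ring

theorem exp_sqrt (L : List (V → ℝ)) (hL : AdmL L 1) (X : List (Finset V) → ℝ)
    (hX : ∀ h, 0 ≤ X h) : EL L (fun h => Real.sqrt (X h)) ≤ Real.sqrt (EL L X) := by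
  apply Real.le_sqrt_of_sq_le
  have h := EL_sq_le L hL (fun h => Real.sqrt (X h)) (fun _ => 1)
  simp only [mul_one, one_pow, EL_const] at h
  refine h.trans (le_of_eq ?_)
  congr 1
  funext x
  exact Real.sq_sqrt (hX x)

end PosD

theorem posD : StPosD := by
  intro V _ _ Nb L b R hb0 hb1 hL hR U g hg0 hg hB
  have hL1 : AdmL L 1 := fun θ hθ w => ⟨(hL θ hθ w).1, ((hL θ hθ w).2).trans hb1⟩
  have hlb : 0 ≤ (L.length : ℝ) * b := by positivity
  calc EL L (fun h => ∑ y ∈ fired Nb h ∩ U, g y ((fired Nb h ∩ U).erase y))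
      ≤ EL L (fun h => ∑ y ∈ U, (if y ∈ act h then 1 else 0) * g y ((act h).erase y ∩ U)) :=
        EL_mono L hL1 _ _ (fun x _ => PosD.pointwise Nb U g hg0 hg x)
    _ = ∑ y ∈ U, EL L (fun h => (if y ∈ act h then 1 else 0) * g y ((act h).erase y ∩ U)) :=
        EL_sum L U _
    _ ≤ ∑ y ∈ U, (L.length * b) * EL L (fun h => g y ((act h).erase y ∩ U)) :=
        Finset.sum_le_sum (fun y _ =>
          EL_act_indep L b hb1 hL y (fun S => g y (S ∩ U)) (fun S => hg0 y _))
    _ = (L.length * b) * EL L (fun h => ∑ y ∈ U, g y ((act h).erase y ∩ U)) := by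
        rw [← Finset.mul_sum, EL_sum]
    _ ≤ (L.length * b) * EL L (fun h => R * Real.sqrt ((act h ∩ U).card : ℝ)) := by
        apply mul_le_mul_of_nonneg_left _ hlb
        apply EL_mono L hL1
        intro x _
        refine le_trans (Finset.sum_le_sum (fun y _ => hg y _ (act x ∩ U) ?_))
          (hB (act x ∩ U) Finset.inter_subset_right)
        exact Finset.inter_subset_inter (Finset.erase_subset _ _) (Finset.Subset.refl _)
    _ = (L.length * b) * R * EL L (fun h => Real.sqrt ((act h ∩ U).card : ℝ)) := by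
        rw [EL_mul_left]
        ring
    _ ≤ (L.length * b) * R * Real.sqrt (L.length * b * U.card) := by
        apply mul_le_mul_of_nonneg_left _ (mul_nonneg hlb hR)
        refine (PosD.exp_sqrt L hL1 _ (fun h => Nat.cast_nonneg _)).trans ?_
        exact Real.sqrt_le_sqrt (PosD.exp_card L b hb1 hL U)
    _ = L.length * b * R * Real.sqrt (L.length * b * U.card) := rfl

end Pool.Agent.Helper69.VU
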