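import Pool.Agent.Helper69.VU.Spec

/-!
# Project VU: positivity for one class (module PosE)
-/

set_option autoImplicit false

namespace Pool.Agent.Helper69.VU

open Finset

section

variable {V : Type} [Fintype V] [DecidableEq V]

/-- Weierstrass product inequality -/
private lemma pe_weier {ι : Type} [DecidableEq ι] (s : Finset ι) (x : ι → ℝ)
    (h : ∀ i ∈ s, 0 ≤ x i ∧ x i ≤ 1) :
    1 - ∑ i ∈ s, x i ≤ ∏ i ∈ s, (1 - x i) ∧ ∏ i ∈ s, (1 - x i) ≤ 1 ∧ 0 ≤ ∏ i ∈ s, (1 - x i) := by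
  induction s using Finset.induction_on with
  | empty => simp
  | insert i s hi ih =>
    have hs : ∀ j ∈ s, 0 ≤ x j ∧ x j ≤ 1 := fun j hj => h j (mem_insert_of_mem hj)
    obtain ⟨h1, h2, h3⟩ := ih hs
    obtain ⟨h4, h5⟩ := h i (mem_insert_self i s)
    rw [sum_insert hi, prod_insert hi]
    refine ⟨?_, ?_, ?_⟩
    · have : (1 - x i) * ∏ j ∈ s, (1 - x j) = ∏ j ∈ s, (1 - x j) - x i * ∏ j ∈ s, (1 - x j) := by
        ring
      have h6 : x i * ∏ j ∈ s, (1 - x j) ≤ x i * 1 := mul_le_mul_of_nonneg_left h2 h4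
      linarith
    · exact mul_le_one₀ (by linarith) h3 h2
    · exact mul_nonneg (by linarith) h3

private lemma pe_one_sub (a : ℝ) (h0 : 0 ≤ a) (h1 : a ≤ 1) :
    (1 - a ^ 2) * Real.exp (-a) ≤ 1 - a := by
  have h2 : a + 1 ≤ Real.exp a := Real.add_one_le_exp a
  have h3 : Real.exp (-a) * Real.exp a = 1 := by
    rw [← Real.exp_add]
    simp
  have h4 : 0 < Real.exp (-a) := Real.exp_pos _
  have h5 : Real.exp (-a) * (a + 1) ≤ 1 := by
    calc Real.exp (-a) * (a + 1) ≤ Real.exp (-a) * Real.exp a := by gcongr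
      _ = 1 := h3
  have h6 : (1 - a ^ 2) * Real.exp (-a) = (1 - a) * (Real.exp (-a) * (a + 1)) := by ring
  rw [h6]
  calc (1 - a) * (Real.exp (-a) * (a + 1)) ≤ (1 - a) * 1 :=
        mul_le_mul_of_nonneg_left h5 (by linarith)
    _ = 1 - a := mul_one _

/-- pointwise lower bound of the product -/
private lemma pe_point {ι : Type} [DecidableEq ι] (s : Finset ι) (a : ι → ℝ)
    (h : ∀ i, 0 ≤ a i ∧ a i ≤ 1) (Ls : ℝ) (hL : 0 < Ls) :
    Real.exp (-Ls) * (1 - ∑ i ∈ s, a i ^ 2 - (∑ i ∈ s, a i) / Ls) ≤ ∏ i ∈ s, (1 - a i) := by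
  have hP0 : 0 ≤ ∏ i ∈ s, (1 - a i) := prod_nonneg fun i _ => by linarith [(h i).2]
  have hS1 : 0 ≤ ∑ i ∈ s, a i := sum_nonneg fun i _ => (h i).1
  have hS2 : 0 ≤ ∑ i ∈ s, a i ^ 2 := sum_nonneg fun i _ => sq_nonneg _
  have hE : 0 < Real.exp (-Ls) := Real.exp_pos _
  by_cases hneg : 1 - ∑ i ∈ s, a i ^ 2 - (∑ i ∈ s, a i) / Ls ≤ 0
  · exact (mul_nonpos_of_nonneg_of_nonpos hE.le hneg).trans hP0
  · push Not at hneg
    have hle : ∑ i ∈ s, a i ≤ Ls := by
      by_contra hcon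
      push Not at hcon
      have : 1 < (∑ i ∈ s, a i) / Ls := by
        rw [lt_div_iff₀ hL]
        linarith
      linarith
    have hquot : 0 ≤ (∑ i ∈ s, a i) / Ls := div_nonneg hS1 hL.le
    have hw := pe_weier s (fun i => a i ^ 2) (fun i _ => ⟨sq_nonneg _, by
      have := h i
      nlinarith⟩)
    have h1 : (∏ i ∈ s, (1 - a i ^ 2)) * Real.exp (-∑ i ∈ s, a i) ≤ ∏ i ∈ s, (1 - a i) := by
      have e1 : Real.exp (-∑ i ∈ s, a i) = ∏ i ∈ s, Real.exp (-a i) := by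
        rw [← Real.exp_sum, sum_neg_distrib]
      rw [e1, ← prod_mul_distrib]
      refine prod_le_prod (fun i _ => ?_) fun i _ => pe_one_sub (a i) (h i).1 (h i).2
      have := h i
      have : 0 ≤ 1 - a i ^ 2 := by nlinarith
      positivity
    have h2 : Real.exp (-Ls) ≤ Real.exp (-∑ i ∈ s, a i) := by
      apply Real.exp_le_exp.mpr
      linarith
    have h3 : 0 ≤ 1 - ∑ i ∈ s, a i ^ 2 := by linarith
    calc Real.exp (-Ls) * (1 - ∑ i ∈ s, a i ^ 2 - (∑ i ∈ s, a i) / Ls)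
        ≤ Real.exp (-Ls) * (1 - ∑ i ∈ s, a i ^ 2) := by
          apply mul_le_mul_of_nonneg_left _ hE.le
          linarith
      _ ≤ Real.exp (-∑ i ∈ s, a i) * (1 - ∑ i ∈ s, a i ^ 2) := by gcongr
      _ ≤ Real.exp (-∑ i ∈ s, a i) * ∏ i ∈ s, (1 - a i ^ 2) := by
          gcongr
          exact hw.1
      _ = (∏ i ∈ s, (1 - a i ^ 2)) * Real.exp (-∑ i ∈ s, a i) := mul_comm _ _
      _ ≤ ∏ i ∈ s, (1 - a i) := h1

/-- expected sum over the fired vertices -/
private lemma pe_exp (Nb : V → Finset V) (L : List (V → ℝ)) (q : ℝ)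
    (hq : ∀ y, EL L (fun h => chi (fired Nb h) y) ≤ q) (U : Finset V) (w : V → ℝ)
    (hw : ∀ y, 0 ≤ w y) :
    EL L (fun h => ∑ y ∈ fired Nb h ∩ U, w y) ≤ q * ∑ y ∈ U, w y := by
  have e1 : ∀ h : List (Finset V), ∑ y ∈ fired Nb h ∩ U, w y =
      ∑ y ∈ U, w y * chi (fired Nb h) y := by
    intro h
    rw [inter_comm, ← filter_mem_eq_inter, sum_filter]
    refine sum_congr rfl fun y _ => ?_
    unfold chi
    split_ifs <;> simp
  simp only [e1]
  rw [EL_sum, mul_sum]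
  refine sum_le_sum fun y _ => ?_
  rw [EL_mul_left, mul_comm q]
  exact mul_le_mul_of_nonneg_left (hq y) (hw y)

private lemma pe_swap (Nb : V → Finset V) (A U : Finset V) (μ : V → ℝ) :
    ∑ y ∈ U, ms μ (A.filter (fun z => y ∈ Nb z)) = ∑ z ∈ A, μ z * ((Nb z ∩ U).card : ℝ) := by
  unfold ms
  simp only [sum_filter]
  rw [sum_comm]
  refine sum_congr rfl fun z _ => ?_
  rw [← sum_filter, sum_const, nsmul_eq_mul, mul_comm]
  congr 2
  congr 1
  ext y
  simp only [mem_filter, mem_inter]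
  tauto

private lemma pe_swap2 (Nb : V → Finset V) (A U : Finset V) (μ : V → ℝ) :
    ∑ y ∈ U, ms μ (A.filter (fun z => y ∈ Nb z)) ^ 2 =
      ∑ z ∈ A, ∑ z' ∈ A, μ z * μ z' * ((Nb z ∩ Nb z' ∩ U).card : ℝ) := by
  unfold ms
  simp only [sum_filter, sq, sum_mul_sum]
  rw [sum_comm]
  refine sum_congr rfl fun z _ => ?_
  rw [sum_comm]
  refine sum_congr rfl fun z' _ => ?_
  have e1 : ∀ y, (if y ∈ Nb z then μ z else 0) * (if y ∈ Nb z' then μ z' else 0) =
      if y ∈ Nb z ∩ Nb z' then μ z * μ z' else 0 := by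
    intro y
    by_cases h1 : y ∈ Nb z
    · by_cases h2 : y ∈ Nb z'
      · simp [h1, h2]
      · simp [h1, h2]
    · simp [h1]
  simp only [e1]
  rw [← sum_filter, sum_const, nsmul_eq_mul, mul_comm]
  congr 2
  congr 1
  ext y
  simp only [mem_filter, mem_inter]
  tauto

end

theorem posE : StPosE := by
  intro V _ _ Nb D κ ε ζ M0 hG hκ hκ1 hε hε1 hζ hM0 hnum L hL hq A U μ hμ hm
  set m := ms μ A with hmdef
  have hm0 : 0 < m := lt_of_lt_of_le hζ hm
  have hD1 : 1 ≤ D := hG.one_le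
  have hD0 : 0 < D := by linarith
  set a : V → ℝ := fun y => dens Nb μ A y with ha
  set N : V → ℝ := fun y => ms μ (A.filter (fun z => y ∈ Nb z)) with hN
  have haN : ∀ y, a y = N y / m := fun y => rfl
  have hN0 : ∀ y, 0 ≤ N y := fun y => sum_nonneg fun z _ => (hμ z).1
  have hNm : ∀ y, N y ≤ m := fun y =>
    sum_le_sum_of_subset_of_nonneg (filter_subset _ _) fun z _ _ => (hμ z).1
  have ha01 : ∀ y, 0 ≤ a y ∧ a y ≤ 1 := fun y =>
    ⟨div_nonneg (hN0 y) hm0.le, (div_le_one hm0).mpr (hNm y)⟩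
  -- first moment
  have hsum1 : ∑ y ∈ U, a y ≤ D + 1 := by
    have e : ∑ y ∈ U, a y = (∑ z ∈ A, μ z * ((Nb z ∩ U).card : ℝ)) / m := by
      simp only [haN]
      rw [← sum_div, pe_swap]
    rw [e, div_le_iff₀ hm0]
    calc ∑ z ∈ A, μ z * ((Nb z ∩ U).card : ℝ) ≤ ∑ z ∈ A, μ z * (D + 1) := by
          refine sum_le_sum fun z _ => mul_le_mul_of_nonneg_left ?_ (hμ z).1
          refine le_trans ?_ (hG.deg z)
          exact_mod_cast card_le_card inter_subset_left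
      _ = (D + 1) * m := by
          rw [← sum_mul, mul_comm]
          rfl
  -- second moment
  have hsum2 : ∑ y ∈ U, a y ^ 2 ≤ κ * D + 2 + 2 * M0 / ζ := by
    have e : ∑ y ∈ U, a y ^ 2 =
        (∑ z ∈ A, ∑ z' ∈ A, μ z * μ z' * ((Nb z ∩ Nb z' ∩ U).card : ℝ)) / m ^ 2 := by
      simp only [haN, div_pow]
      rw [← sum_div, pe_swap2]
    rw [e, div_le_iff₀ (by positivity)]
    have hκD : 0 ≤ κ * D + 2 := by positivity
    have h1 : ∀ z ∈ A, ∑ z' ∈ A, μ z * μ z' * ((Nb z ∩ Nb z' ∩ U).card : ℝ) ≤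
        μ z * (m * (κ * D + 2)) + μ z * (2 * M0) := by
      intro z hz
      have h2 : ∀ z' ∈ A, μ z * μ z' * ((Nb z ∩ Nb z' ∩ U).card : ℝ) ≤
          μ z * (μ z' * (κ * D + 2)) + (if z' = z then μ z * (2 * M0) else 0) := by
        intro z' _
        have hz0 := (hμ z).1
        have hz'0 := (hμ z').1
        by_cases hzz : z' = z
        · subst hzz
          rw [if_pos rfl]
          have h3 : ((Nb z' ∩ Nb z' ∩ U).card : ℝ) ≤ D + 1 := by
            refine le_trans ?_ (hG.deg z')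
            exact_mod_cast card_le_card (inter_subset_left.trans inter_subset_left)
          have h4 : μ z' * (D + 1) ≤ 2 * M0 := by
            calc μ z' * (D + 1) ≤ M0 / D * (D + 1) := by
                  apply mul_le_mul_of_nonneg_right (hμ z').2
                  linarith
              _ ≤ M0 / D * (2 * D) := by
                  apply mul_le_mul_of_nonneg_left _ (by positivity)
                  linarith
              _ = 2 * M0 := by field_simp
          have h5 : μ z' * ((Nb z' ∩ Nb z' ∩ U).card : ℝ) ≤ 2 * M0 :=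
            (mul_le_mul_of_nonneg_left h3 hz0).trans h4
          have h6 : 0 ≤ μ z' * (μ z' * (κ * D + 2)) := by positivity
          calc μ z' * μ z' * ((Nb z' ∩ Nb z' ∩ U).card : ℝ)
              = μ z' * (μ z' * ((Nb z' ∩ Nb z' ∩ U).card : ℝ)) := by ring
            _ ≤ μ z' * (2 * M0) := mul_le_mul_of_nonneg_left h5 hz0
            _ ≤ _ := by linarith
        · rw [if_neg hzz, add_zero]
          have h3 : ((Nb z ∩ Nb z' ∩ U).card : ℝ) ≤ κ * D + 2 := by
            refine le_trans ?_ (hG.codeg z z' (Ne.symm hzz))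
            exact_mod_cast card_le_card inter_subset_left
          calc μ z * μ z' * ((Nb z ∩ Nb z' ∩ U).card : ℝ) ≤ μ z * μ z' * (κ * D + 2) :=
                mul_le_mul_of_nonneg_left h3 (by positivity)
            _ = μ z * (μ z' * (κ * D + 2)) := by ring
      refine (sum_le_sum h2).trans (le_of_eq ?_)
      rw [sum_add_distrib, sum_ite_eq', if_pos hz, ← mul_sum, ← sum_mul]
      rfl
    calc ∑ z ∈ A, ∑ z' ∈ A, μ z * μ z' * ((Nb z ∩ Nb z' ∩ U).card : ℝ)
        ≤ ∑ z ∈ A, (μ z * (m * (κ * D + 2)) + μ z * (2 * M0)) := sum_le_sum h1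
      _ = m * (m * (κ * D + 2)) + m * (2 * M0) := by
          rw [sum_add_distrib, ← sum_mul, ← sum_mul]
          rfl
      _ ≤ (κ * D + 2 + 2 * M0 / ζ) * m ^ 2 := by
          have h7 : m * (2 * M0) ≤ 2 * M0 / ζ * m ^ 2 := by
            rw [div_mul_eq_mul_div, le_div_iff₀ hζ]
            nlinarith [mul_le_mul_of_nonneg_left hm (by positivity : 0 ≤ m * (2 * M0))]
          nlinarith
  -- expectation
  set Ls : ℝ := 8 / (κ * ε) with hLs
  have hLs0 : 0 < Ls := by positivity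
  have hκD : 0 < κ * D := by positivity
  have hE2 : EL L (fun h => ∑ y ∈ fired Nb h ∩ U, a y ^ 2) ≤ 1 - ε + ε / 4 := by
    refine (pe_exp Nb L _ hq U _ (fun y => sq_nonneg _)).trans ?_
    have h1 : (1 - ε) / (κ * D) * ∑ y ∈ U, a y ^ 2 ≤
        (1 - ε) / (κ * D) * (κ * D + 2 + 2 * M0 / ζ) :=
      mul_le_mul_of_nonneg_left hsum2 (div_nonneg (by linarith) hκD.le)
    have h2 : (1 - ε) / (κ * D) * (κ * D + 2 + 2 * M0 / ζ) =
        (1 - ε) * (1 + (2 + 2 * M0 / ζ) / (κ * D)) := by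
      field_simp
      ring
    have h3 : (1 - ε) * (1 + (2 + 2 * M0 / ζ) / (κ * D)) ≤ (1 - ε) * (1 + ε / 4) :=
      mul_le_mul_of_nonneg_left (by linarith) (by linarith)
    nlinarith
  have hE1 : EL L (fun h => ∑ y ∈ fired Nb h ∩ U, a y) ≤ 2 / κ := by
    refine (pe_exp Nb L _ hq U _ (fun y => (ha01 y).1)).trans ?_
    have h1 : (1 - ε) / (κ * D) * ∑ y ∈ U, a y ≤ 1 / (κ * D) * (2 * D) := by
      apply mul_le_mul _ (hsum1.trans (by linarith)) (sum_nonneg fun y _ => (ha01 y).1)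
        (by positivity)
      apply div_le_div_of_nonneg_right _ hκD.le
      linarith
    refine h1.trans (le_of_eq ?_)
    field_simp
  have hpt : EL L (fun h => Real.exp (-Ls) * (1 - ∑ y ∈ fired Nb h ∩ U, a y ^ 2 -
      (∑ y ∈ fired Nb h ∩ U, a y) / Ls)) ≤
      EL L (fun h => ∏ y ∈ fired Nb h ∩ U, (1 - a y)) :=
    EL_mono L hL _ _ fun h _ => pe_point (fired Nb h ∩ U) a ha01 Ls hLs0
  refine le_trans ?_ hpt
  have e1 : (fun h : List (Finset V) => Real.exp (-Ls) * (1 - ∑ y ∈ fired Nb h ∩ U, a y ^ 2 -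
      (∑ y ∈ fired Nb h ∩ U, a y) / Ls)) = fun h => Real.exp (-Ls) *
      (((fun _ => (1 : ℝ)) h - ∑ y ∈ fired Nb h ∩ U, a y ^ 2) -
        (∑ y ∈ fired Nb h ∩ U, a y) * Ls⁻¹) := by
    funext h
    rw [div_eq_mul_inv]
  rw [e1, EL_mul_left, EL_sub L (fun h => (fun _ => (1 : ℝ)) h - ∑ y ∈ fired Nb h ∩ U, a y ^ 2),
    EL_sub, EL_const, EL_mul_right]
  have h5 : EL L (fun h => ∑ y ∈ fired Nb h ∩ U, a y) * Ls⁻¹ ≤ ε / 4 := by
    calc EL L (fun h => ∑ y ∈ fired Nb h ∩ U, a y) * Ls⁻¹ ≤ 2 / κ * Ls⁻¹ := by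
          apply mul_le_mul_of_nonneg_right hE1 (by positivity)
      _ = ε / 4 := by
          rw [hLs]
          field_simp
          norm_num
  have hexp : 0 < Real.exp (-Ls) := Real.exp_pos _
  have h6 : ε / 2 ≤ 1 - EL L (fun h => ∑ y ∈ fired Nb h ∩ U, a y ^ 2) -
      EL L (fun h => ∑ y ∈ fired Nb h ∩ U, a y) * Ls⁻¹ := by linarith
  show ε / 2 * Real.exp (-(8 / (κ * ε))) ≤ _
  rw [← hLs, mul_comm (ε / 2)]
  exact mul_le_mul_of_nonneg_left h6 hexp.le

end Pool.Agent.Helper69.VU
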