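import Pool.Agent.Helper69.VU.Spec

/-!
# Project VU: module PosF, assembly of the positivity lemma
-/

set_option autoImplicit false

namespace Pool.Agent.Helper69.VU

open Finset

namespace PosF

variable {V : Type} [Fintype V] [DecidableEq V]

omit [Fintype V] in
/-- the classes form a partition -/
theorem sum_cls (Nb : V → Finset V) (Z Y : Finset V) (μ : V → ℝ) (P : V → Prop)
    [DecidablePred P] :
    ∑ s ∈ Y.powerset, ms μ ((cls Nb Z Y s).filter P) = ∑ z ∈ Z.filter P, μ z := by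
  rw [← Finset.sum_fiberwise_of_maps_to (s := Z.filter P) (t := Y.powerset)
    (g := fun z => Nb z ∩ Y) (fun z _ => Finset.mem_powerset.mpr Finset.inter_subset_right)]
  apply Finset.sum_congr rfl
  intro s _
  unfold ms cls
  apply Finset.sum_congr _ (fun _ _ => rfl)
  ext z
  simp only [mem_filter]
  tauto

omit [Fintype V] in
theorem sum_cls' (Nb : V → Finset V) (Z Y : Finset V) (μ : V → ℝ) :
    ∑ s ∈ Y.powerset, ms μ (cls Nb Z Y s) = ∑ z ∈ Z, μ z := by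
  have h := sum_cls Nb Z Y μ (fun _ => True)
  simpa only [Finset.filter_true] using h

omit [Fintype V] [DecidableEq V] in
theorem ms_nonneg (μ : V → ℝ) (hμ : ∀ z, 0 ≤ μ z) (A : Finset V) : 0 ≤ ms μ A :=
  Finset.sum_nonneg (fun z _ => hμ z)

omit [Fintype V] in
theorem dens_le_one (Nb : V → Finset V) (μ : V → ℝ) (hμ : ∀ z, 0 ≤ μ z) (A : Finset V) (y : V) :
    dens Nb μ A y ≤ 1 := by
  unfold dens
  apply div_le_one_of_le₀ _ (ms_nonneg μ hμ A)
  exact Finset.sum_le_sum_of_subset_of_nonneg (Finset.filter_subset _ _) (fun z _ _ => hμ z)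

omit [Fintype V] in
theorem dev_nonneg (Nb : V → Finset V) (μ : V → ℝ) (Z Y : Finset V) (y : V) (B : Finset V) :
    0 ≤ dev Nb μ Z Y y B :=
  Finset.sum_nonneg (fun _ _ => abs_nonneg _)

/-- the uncovered mass in terms of the indicators -/
theorem sum_un (Nb : V → Finset V) (Z U : Finset V) (μ : V → ℝ) (h : List (Finset V)) :
    ∑ z ∈ Z, μ z * un Nb (Nb z ∩ U) h =
      ∑ z ∈ Z.filter (fun z => Disjoint (Nb z) (fired Nb h ∩ U)), μ z := by
  rw [Finset.sum_filter]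
  apply Finset.sum_congr rfl
  intro z _
  unfold un
  have e : Disjoint (Nb z ∩ U) (fired Nb h) ↔ Disjoint (Nb z) (fired Nb h ∩ U) := by
    simp only [Finset.disjoint_left, mem_inter]
    constructor
    · intro H a ha hb
      exact H ⟨ha, hb.2⟩ hb.1
    · intro H a ha hb
      exact H ha.1 ⟨hb, ha.2⟩
  by_cases hd : Disjoint (Nb z) (fired Nb h ∩ U)
  · rw [if_pos (e.mpr hd), if_pos hd, mul_one]
  · rw [if_neg (fun h' => hd (e.mp h')), if_neg hd, mul_zero]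

/-- pointwise lower bound from the product formula -/
theorem pointwise (hC : StPosC) (Nb : V → Finset V) (Z Y U : Finset V) (μ : V → ℝ)
    (hμ : ∀ z, 0 ≤ μ z) (h : List (Finset V)) :
    ∑ s ∈ Y.powerset, ms μ (cls Nb Z Y s) *
        ∏ y ∈ fired Nb h ∩ U, (1 - dens Nb μ (cls Nb Z Y s) y) -
      ∑ y ∈ fired Nb h ∩ U, dev Nb μ Z Y y ((fired Nb h ∩ U).erase y) ≤
      ∑ z ∈ Z, μ z * un Nb (Nb z ∩ U) h := by
  have h1 := hC V Nb Z Y μ hμ (fired Nb h ∩ U)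
  have h2 : ∑ s ∈ Y.powerset, (ms μ (cls Nb Z Y s) *
        ∏ y ∈ fired Nb h ∩ U, (1 - dens Nb μ (cls Nb Z Y s) y) -
      ms μ ((cls Nb Z Y s).filter (fun z => Disjoint (Nb z) (fired Nb h ∩ U)))) ≤
      ∑ s ∈ Y.powerset, |ms μ ((cls Nb Z Y s).filter (fun z => Disjoint (Nb z) (fired Nb h ∩ U))) -
        ms μ (cls Nb Z Y s) * ∏ y ∈ fired Nb h ∩ U, (1 - dens Nb μ (cls Nb Z Y s) y)| := by
    apply Finset.sum_le_sum
    intro s _
    rw [abs_sub_comm]
    exact le_abs_self _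
  rw [Finset.sum_sub_distrib, sum_cls Nb Z Y μ (fun z => Disjoint (Nb z) (fired Nb h ∩ U)),
    ← sum_un Nb Z U μ h] at h2
  linarith

theorem exists_rho (A0 B0 e4 : ℝ) (hA : 0 ≤ A0) (hB : 0 ≤ B0) (he : 0 < e4) :
    ∃ ρ : ℝ, 0 < ρ ∧ A0 * Real.sqrt (B0 * ρ) ≤ e4 / 2 := by
  set t : ℝ := e4 / (2 * (A0 * Real.sqrt B0 + 1)) with ht
  have hA1 : 0 ≤ A0 * Real.sqrt B0 := mul_nonneg hA (Real.sqrt_nonneg _)
  have ht0 : 0 < t := by positivity
  refine ⟨t ^ 2, by positivity, ?_⟩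
  rw [Real.sqrt_mul hB, Real.sqrt_sq ht0.le, ← mul_assoc]
  have h1 : t * (2 * (A0 * Real.sqrt B0 + 1)) = e4 := by
    rw [ht]
    exact div_mul_cancel₀ _ (by positivity)
  nlinarith

end PosF

theorem posF : StPosF := by
  intro hA hB hC hD hE κ ε lam C1 M0 e4 k hκ0 hκ1 hε0 hε1 hlam hC1 hM0 he4
  have hbet : 0 < bet κ ε := by unfold bet; positivity
  have hk : (0 : ℝ) ≤ k := Nat.cast_nonneg k
  obtain ⟨ρ, hρ0, hρ⟩ := PosF.exists_rho (k * lam * Real.sqrt (k * lam * C1)) (2 * C1 * M0) e4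
    (by positivity) (by positivity) he4
  set N : ℕ := ⌈4 * M0 / ρ⌉₊ with hN
  set ζ : ℝ := e4 / (2 * 2 ^ N * bet κ ε) with hζ
  have hζ0 : 0 < ζ := by positivity
  have hζN : 2 ^ N * ζ * bet κ ε = e4 / 2 := by
    rw [hζ]
    field_simp
  refine ⟨max 1 (max lam (4 * (2 + 2 * M0 / ζ) / (κ * ε))), le_max_left _ _, ?_⟩
  intro V _ _ Nb D hG hD0 L hlen hAdm hfired Z U μ hZ hU hμ
  have hD1 : 1 ≤ D := (le_max_left _ _).trans hD0
  have hDlam : lam ≤ D := (le_max_left _ _).trans ((le_max_right _ _).trans hD0)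
  have hDbig : 4 * (2 + 2 * M0 / ζ) / (κ * ε) ≤ D :=
    (le_max_right _ _).trans ((le_max_right _ _).trans hD0)
  have hDpos : 0 < D := by linarith
  have hb0 : 0 ≤ lam / D := by positivity
  have hb1 : lam / D ≤ 1 := by
    rw [div_le_one hDpos]
    exact hDlam
  have hL1 : AdmL L 1 := fun θ hθ w => ⟨(hAdm θ hθ w).1, ((hAdm θ hθ w).2).trans hb1⟩
  have hμ0 : ∀ z, 0 ≤ μ z := fun z => (hμ z).1
  have hcond : (2 + 2 * M0 / ζ) / (κ * D) ≤ ε / 4 := by
    rw [div_le_iff₀ (by positivity)] at hDbig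
    rw [div_le_iff₀ (by positivity)]
    nlinarith
  obtain ⟨Y, hYU, hYcard, hYdev⟩ := hA V Nb D C1 M0 ρ hD1 hG.deg hC1 hM0 hρ0 Z U μ hZ hU hμ
  -- expectation of the pointwise bound
  have e1 : ∑ z ∈ Z, μ z * pr Nb L (Nb z ∩ U) = EL L (fun h => ∑ z ∈ Z, μ z * un Nb (Nb z ∩ U) h) := by
    rw [EL_sum]
    apply Finset.sum_congr rfl
    intro z _
    rw [EL_mul_left]
    rfl
  have e2 : EL L (fun h => ∑ s ∈ Y.powerset, ms μ (cls Nb Z Y s) *
        ∏ y ∈ fired Nb h ∩ U, (1 - dens Nb μ (cls Nb Z Y s) y)) =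
      ∑ s ∈ Y.powerset, ms μ (cls Nb Z Y s) *
        EL L (fun h => ∏ y ∈ fired Nb h ∩ U, (1 - dens Nb μ (cls Nb Z Y s) y)) := by
    rw [EL_sum]
    apply Finset.sum_congr rfl
    intro s _
    rw [EL_mul_left]
  have h3 := EL_mono L hL1 _ _ (fun x (_ : x.length = L.length) =>
    PosF.pointwise hC Nb Z Y U μ hμ0 x)
  rw [EL_sub, e2, ← e1] at h3
  -- the error term
  have h4 : EL L (fun h => ∑ y ∈ fired Nb h ∩ U, dev Nb μ Z Y y ((fired Nb h ∩ U).erase y)) ≤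
      e4 / 2 := by
    have h5 := hD V Nb L (lam / D) (D * Real.sqrt (2 * C1 * M0 * ρ)) hb0 hb1 hAdm
      (by positivity) U (fun y S => dev Nb μ Z Y y S)
      (fun y S => PosF.dev_nonneg Nb μ Z Y y S)
      (fun y S S' hS => hB V Nb Z Y μ y S S' hS) hYdev
    rw [hlen] at h5
    refine h5.trans ?_
    have h6 : (k : ℝ) * (lam / D) * U.card ≤ k * lam * C1 := by
      have h7 : (k : ℝ) * (lam / D) * U.card ≤ k * (lam / D) * (C1 * D) :=
        mul_le_mul_of_nonneg_left hU (by positivity)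
      have h8 : (k : ℝ) * (lam / D) * (C1 * D) = k * lam * C1 := by
        field_simp
      linarith
    have h9 : Real.sqrt (k * (lam / D) * U.card) ≤ Real.sqrt (k * lam * C1) :=
      Real.sqrt_le_sqrt h6
    have h10 : (k : ℝ) * (lam / D) * (D * Real.sqrt (2 * C1 * M0 * ρ)) =
        k * lam * Real.sqrt (2 * C1 * M0 * ρ) := by
      field_simp
    rw [h10]
    calc (k : ℝ) * lam * Real.sqrt (2 * C1 * M0 * ρ) * Real.sqrt (k * (lam / D) * U.card)
        ≤ k * lam * Real.sqrt (2 * C1 * M0 * ρ) * Real.sqrt (k * lam * C1) :=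
          mul_le_mul_of_nonneg_left h9 (by positivity)
      _ = k * lam * Real.sqrt (k * lam * C1) * Real.sqrt (2 * C1 * M0 * ρ) := by ring
      _ ≤ e4 / 2 := hρ
  -- the main term
  have h11 : ∑ s ∈ Y.powerset, (ms μ (cls Nb Z Y s) - ζ) * bet κ ε ≤
      ∑ s ∈ Y.powerset, ms μ (cls Nb Z Y s) *
        EL L (fun h => ∏ y ∈ fired Nb h ∩ U, (1 - dens Nb μ (cls Nb Z Y s) y)) := by
    apply Finset.sum_le_sum
    intro s _
    have hms := PosF.ms_nonneg μ hμ0 (cls Nb Z Y s)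
    by_cases hs : ζ ≤ ms μ (cls Nb Z Y s)
    · have h12 := hE V Nb D κ ε ζ M0 hG hκ0 hκ1 hε0 hε1 hζ0 hM0 hcond L hL1 hfired
        (cls Nb Z Y s) U μ hμ hs
      calc (ms μ (cls Nb Z Y s) - ζ) * bet κ ε ≤ ms μ (cls Nb Z Y s) * bet κ ε :=
            mul_le_mul_of_nonneg_right (by linarith) hbet.le
        _ ≤ _ := mul_le_mul_of_nonneg_left h12 hms
    · push Not at hs
      have h13 : 0 ≤ EL L (fun h => ∏ y ∈ fired Nb h ∩ U, (1 - dens Nb μ (cls Nb Z Y s) y)) := by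
        apply EL_nonneg L hL1
        intro x _
        apply Finset.prod_nonneg
        intro y _
        linarith [PosF.dens_le_one Nb μ hμ0 (cls Nb Z Y s) y]
      have h14 : (ms μ (cls Nb Z Y s) - ζ) * bet κ ε ≤ 0 :=
        mul_nonpos_of_nonpos_of_nonneg (by linarith) hbet.le
      exact h14.trans (mul_nonneg hms h13)
  have h15 : ∑ s ∈ Y.powerset, (ms μ (cls Nb Z Y s) - ζ) * bet κ ε =
      bet κ ε * ∑ z ∈ Z, μ z - 2 ^ Y.card * ζ * bet κ ε := by
    rw [← Finset.sum_mul, Finset.sum_sub_distrib, PosF.sum_cls', Finset.sum_const,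
      Finset.card_powerset, nsmul_eq_mul]
    push_cast
    ring
  have h16 : (2 : ℝ) ^ Y.card * ζ * bet κ ε ≤ e4 / 2 := by
    rw [← hζN]
    have h17 : Y.card ≤ N := by
      have : (Y.card : ℝ) ≤ (N : ℝ) := hYcard.trans (Nat.le_ceil _)
      exact_mod_cast this
    have h18 : (2 : ℝ) ^ Y.card ≤ 2 ^ N := pow_le_pow_right₀ (by norm_num) h17
    have h19 := mul_le_mul_of_nonneg_right h18 (mul_pos hζ0 hbet).le
    linarith [h19, mul_assoc ((2 : ℝ) ^ Y.card) ζ (bet κ ε), mul_assoc ((2 : ℝ) ^ N) ζ (bet κ ε)]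
  linarith

end Pool.Agent.Helper69.VU
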