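import Pool.Agent.Helper69.VU.Spec

/-!
# Project VU, module PROC: one step of the process
-/

set_option autoImplicit false

namespace Pool.Agent.Helper69.VU

open Finset

section

variable {V : Type} [Fintype V] [DecidableEq V]

private lemma proc_alive (Nb : V → Finset V) (h : List (Finset V)) (v : V) :
    v ∈ alive Nb h ↔ Disjoint (Nb v) (fired Nb h) := by
  induction h with
  | nil => simp [alive, fired]
  | cons B h ih =>
    rw [alive, fired, mem_filter, ih, disjoint_union_right]
    tauto

private lemma proc_ind_sub (Nb : V → Finset V) (h : List (Finset V)) :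
    ind Nb h ⊆ fired Nb h := by
  induction h with
  | nil => simp [ind]
  | cons B h ih =>
    rw [ind, fired]
    exact union_subset_union (filter_subset _ _) ih

private lemma proc_un_one {Nb : V → Finset V} {h : List (Finset V)} {v : V}
    (hv : v ∈ alive Nb h) : un Nb (Nb v) h = 1 := by
  unfold un
  rw [if_pos ((proc_alive Nb h v).1 hv)]

private lemma proc_un_zero {Nb : V → Finset V} {h : List (Finset V)} {v : V}
    (hv : v ∉ alive Nb h) : un Nb (Nb v) h = 0 := by
  unfold un
  rw [if_neg (fun hd => hv ((proc_alive Nb h v).2 hd))]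

private lemma proc_un_nonneg (Nb : V → Finset V) (S : Finset V) (h : List (Finset V)) :
    0 ≤ un Nb S h := by
  unfold un
  split_ifs <;> norm_num

private lemma proc_un_le (Nb : V → Finset V) (S : Finset V) (h : List (Finset V)) :
    un Nb S h ≤ 1 := by
  unfold un
  split_ifs <;> norm_num

private lemma proc_mem_nonneg (B : Finset V) (v : V) : (0 : ℝ) ≤ if v ∈ B then 1 else 0 := by
  split_ifs <;> norm_num

omit [Fintype V] in
private lemma proc_chi_nonneg (S : Finset V) (v : V) : (0 : ℝ) ≤ chi S v := by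
  unfold chi
  split_ifs <;> norm_num

private lemma proc_two (Nb : V → Finset V) (B : Finset V) (h : List (Finset V)) (v : V) :
    chi (fired Nb (B :: h)) v ≤
      chi (fired Nb h) v + un Nb (Nb v) h * (if v ∈ B then 1 else 0) := by
  have h1 := proc_chi_nonneg (fired Nb h) v
  have h2 := mul_nonneg (proc_un_nonneg Nb (Nb v) h) (proc_mem_nonneg B v)
  by_cases hf : v ∈ fired Nb (B :: h)
  · have h3 : chi (fired Nb (B :: h)) v = 1 := by simp [chi, hf]
    rw [h3]
    rw [fired, mem_union, mem_inter] at hf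
    rcases hf with ⟨hB, ha⟩ | hf
    · rw [proc_un_one ha, if_pos hB]
      linarith
    · have h4 : chi (fired Nb h) v = 1 := by simp [chi, hf]
      linarith
  · have h3 : chi (fired Nb (B :: h)) v = 0 := by simp [chi, hf]
    rw [h3]
    linarith

private lemma proc_three (Nb : V → Finset V) (B : Finset V) (h : List (Finset V)) (v : V) :
    un Nb (Nb v) h - ∑ z ∈ Nb v,
      (un Nb (Nb v) h * un Nb (Nb z) h) * (if z ∈ B then 1 else 0) ≤ un Nb (Nb v) (B :: h) := by
  have hterm : ∀ z ∈ Nb v, (0 : ℝ) ≤
      (un Nb (Nb v) h * un Nb (Nb z) h) * (if z ∈ B then 1 else 0) := fun z _ =>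
    mul_nonneg (mul_nonneg (proc_un_nonneg _ _ _) (proc_un_nonneg _ _ _)) (proc_mem_nonneg B z)
  have hsum := Finset.sum_nonneg hterm
  by_cases hv : v ∈ alive Nb h
  · by_cases hd : Disjoint (Nb v) (fired Nb (B :: h))
    · have h1 : un Nb (Nb v) (B :: h) = 1 := by unfold un; rw [if_pos hd]
      rw [h1, proc_un_one hv]
      rw [proc_un_one hv] at hsum
      linarith
    · have h1 := proc_un_nonneg Nb (Nb v) (B :: h)
      rw [fired, disjoint_union_right] at hd
      have h2 : ¬ Disjoint (Nb v) (B ∩ alive Nb h) := fun h3 =>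
        hd ⟨h3, (proc_alive Nb h v).1 hv⟩
      rw [not_disjoint_iff] at h2
      obtain ⟨z, hz, hzB⟩ := h2
      rw [mem_inter] at hzB
      have h3 := Finset.single_le_sum hterm hz
      rw [proc_un_one hzB.2, if_pos hzB.1, proc_un_one hv] at h3
      rw [proc_un_one hv]
      linarith
  · rw [proc_un_zero hv]
    rw [proc_un_zero hv] at hsum
    have h1 := proc_un_nonneg Nb (Nb v) (B :: h)
    linarith

private lemma proc_four (Nb : V → Finset V) (hself : ∀ v, v ∈ Nb v) (B : Finset V)
    (h : List (Finset V)) (v : V) :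
    chi (ind Nb h) v + un Nb (Nb v) h * (if v ∈ B then 1 else 0) -
      ∑ z ∈ (Nb v).erase v, (un Nb (Nb v) h * un Nb (Nb z) h) *
        ((if v ∈ B then 1 else 0) * (if z ∈ B then 1 else 0)) ≤ chi (ind Nb (B :: h)) v := by
  have hterm : ∀ z ∈ (Nb v).erase v, (0 : ℝ) ≤ (un Nb (Nb v) h * un Nb (Nb z) h) *
        ((if v ∈ B then 1 else 0) * (if z ∈ B then 1 else 0)) := fun z _ =>
    mul_nonneg (mul_nonneg (proc_un_nonneg _ _ _) (proc_un_nonneg _ _ _))
      (mul_nonneg (proc_mem_nonneg B v) (proc_mem_nonneg B z))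
  have hsum := Finset.sum_nonneg hterm
  have hchi := proc_chi_nonneg (ind Nb (B :: h)) v
  by_cases hi : v ∈ ind Nb h
  · have hna : v ∉ alive Nb h := by
      rw [proc_alive]
      intro hd
      exact (Finset.disjoint_left.1 hd) (hself v) (proc_ind_sub Nb h hi)
    have h1 : chi (ind Nb (B :: h)) v = 1 := by
      have : v ∈ ind Nb (B :: h) := by
        rw [ind]
        exact mem_union_right _ hi
      simp [chi, this]
    have h2 : chi (ind Nb h) v = 1 := by simp [chi, hi]
    rw [h1, h2, proc_un_zero hna]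
    rw [proc_un_zero hna] at hsum
    linarith
  · have h2 : chi (ind Nb h) v = 0 := by simp [chi, hi]
    rw [h2]
    by_cases ha : v ∈ alive Nb h
    · by_cases hB : v ∈ B
      · by_cases hsub : Nb v ∩ (B ∩ alive Nb h) ⊆ {v}
        · have h1 : chi (ind Nb (B :: h)) v = 1 := by
            have : v ∈ ind Nb (B :: h) := by
              rw [ind]
              exact mem_union_left _ (mem_filter.2 ⟨mem_inter.2 ⟨hB, ha⟩, hsub⟩)
            simp [chi, this]
          have h3 := proc_un_le Nb (Nb v) h
          rw [h1, if_pos hB]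
          rw [if_pos hB] at hsum
          linarith
        · rw [Finset.not_subset] at hsub
          obtain ⟨z, hz, hzv⟩ := hsub
          rw [mem_inter, mem_inter] at hz
          rw [mem_singleton] at hzv
          have h3 := Finset.single_le_sum hterm (mem_erase.2 ⟨hzv, hz.1⟩)
          rw [proc_un_one hz.2.2, proc_un_one ha, if_pos hB, if_pos hz.2.1] at h3
          rw [proc_un_one ha, if_pos hB]
          linarith
      · rw [if_neg hB]
        rw [if_neg hB] at hsum
        linarith
    · rw [proc_un_zero ha]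
      rw [proc_un_zero ha] at hsum
      linarith

end

theorem proc : StProc := by
  intro V _ _ Nb L θ hself _ hL
  have hθ : ∀ v, 0 ≤ θ v ∧ θ v ≤ 1 := hL θ List.mem_cons_self
  have hL' : AdmL L 1 := fun θ' h' => hL θ' (List.mem_cons_of_mem _ h')
  refine ⟨fun h v => proc_alive Nb h v, fun v => ?_, fun v => ?_, fun v => ?_⟩
  · show EL L (fun h => EB θ (fun B => chi (fired Nb (B :: h)) v)) ≤ _
    unfold pr
    rw [← EL_mul_left, ← EL_add]
    refine EL_mono L hL' _ _ fun h _ => ?_
    refine (EB_mono θ hθ _ _ fun B => proc_two Nb B h v).trans (le_of_eq ?_)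
    rw [EB_add, EB_const, EB_mul_left, EB_mem]
    ring
  · show _ ≤ EL L (fun h => EB θ (fun B => un Nb (Nb v) (B :: h)))
    unfold pr
    have h1 : ∑ z ∈ Nb v, θ z * EL L (fun h => un Nb (Nb v) h * un Nb (Nb z) h) =
        EL L (fun h => ∑ z ∈ Nb v, θ z * (un Nb (Nb v) h * un Nb (Nb z) h)) := by
      rw [EL_sum]
      refine Finset.sum_congr rfl fun z _ => ?_
      rw [EL_mul_left]
    rw [h1, ← EL_sub]
    refine EL_mono L hL' _ _ fun h _ => ?_
    refine le_trans (le_of_eq ?_) (EB_mono θ hθ _ _ fun B => proc_three Nb B h v)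
    rw [EB_sub, EB_const, EB_sum]
    congr 1
    refine Finset.sum_congr rfl fun z _ => ?_
    rw [EB_mul_left, EB_mem]
    ring
  · show _ ≤ EL L (fun h => EB θ (fun B => chi (ind Nb (B :: h)) v))
    unfold pr
    have h1 : ∑ z ∈ (Nb v).erase v, θ v * θ z * EL L (fun h => un Nb (Nb v) h * un Nb (Nb z) h) =
        EL L (fun h => ∑ z ∈ (Nb v).erase v, θ v * θ z * (un Nb (Nb v) h * un Nb (Nb z) h)) := by
      rw [EL_sum]
      refine Finset.sum_congr rfl fun z _ => ?_
      rw [EL_mul_left]
    rw [h1, ← EL_mul_left, ← EL_add, ← EL_sub]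
    refine EL_mono L hL' _ _ fun h _ => ?_
    refine le_trans (le_of_eq ?_) (EB_mono θ hθ _ _ fun B => proc_four Nb hself B h v)
    rw [EB_sub, EB_add, EB_const, EB_mul_left, EB_mem, EB_sum]
    congr 1
    · ring
    · refine Finset.sum_congr rfl fun z hz => ?_
      rw [EB_mul_left, EB_mem2 θ v z (Ne.symm (mem_erase.1 hz).1)]
      ring

end Pool.Agent.Helper69.VU
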