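import Pool.Agent.Helper69.VU.Spec

/-!
# Project VU: the process (section 5)
-/

set_option autoImplicit false

namespace Pool.Agent.Helper69.VU

open Finset

lemma starAsm_bet_pos {κ ε : ℝ} (hε : 0 < ε) : 0 < bet κ ε := by
  unfold bet
  have := Real.exp_pos (-(8 / (κ * ε)))
  positivity

lemma starAsm_exp_le {c : ℝ} (h0 : 0 ≤ c) (h1 : c ≤ 1 / 2) : Real.exp (-(2 * c)) ≤ 1 - c := by
  have h2 : 1 + 2 * c ≤ Real.exp (2 * c) := by
    have := Real.add_one_le_exp (2 * c)
    linarith
  have hc : 0 < 1 - c := by linarith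
  rw [Real.exp_neg, inv_le_comm₀ (Real.exp_pos _) hc]
  refine le_trans ?_ h2
  rw [inv_le_iff_one_le_mul₀ hc]
  nlinarith

lemma starAsm_un_nonneg {V : Type} [Fintype V] [DecidableEq V] (Nb : V → Finset V) (S : Finset V)
    (h : List (Finset V)) : 0 ≤ un Nb S h := by
  unfold un
  split_ifs <;> norm_num

theorem starAsm : StStarAsm := by
  intro hMain hProc κ ε hκ hκ1 hε hε4
  set β : ℝ := bet κ ε with hβ
  have hβ0 : 0 < β := starAsm_bet_pos hε
  set Bc : ℝ := 2 / β with hBc
  have hBc0 : 0 < Bc := by positivity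
  set p0 : ℝ := Real.exp (-(2 * Bc / κ)) / 2 with hp0
  have hp0pos : 0 < p0 := by
    have := Real.exp_pos (-(2 * Bc / κ))
    positivity
  have hp01 : p0 ≤ 1 := by
    have h1 : Real.exp (-(2 * Bc / κ)) ≤ 1 := by
      rw [Real.exp_le_one_iff]
      have : 0 ≤ 2 * Bc / κ := by positivity
      linarith
    rw [hp0]; linarith
  -- the number of steps
  obtain ⟨K, hK⟩ := exists_nat_gt (Bc / (κ * ε) + 1)
  have hK1 : (1 : ℝ) < K := by
    have : 0 < Bc / (κ * ε) := by positivity
    linarith
  have hKpos : (0 : ℝ) < K := by linarith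
  set δ : ℝ := (1 - ε) / K with hδ
  have hδ0 : 0 < δ := by
    rw [hδ]; exact div_pos (by linarith) hKpos
  have hKδ : K * δ = 1 - ε := by rw [hδ]; field_simp
  set c : ℝ := δ * Bc / κ with hc
  have hc0 : 0 < c := by positivity
  have hcε : c ≤ ε := by
    have h1 : Bc / (κ * ε) < K := by linarith
    rw [div_lt_iff₀ (by positivity)] at h1
    rw [hc, div_le_iff₀ hκ, hδ, div_mul_eq_mul_div, div_le_iff₀ hKpos]
    nlinarith
  have hc2 : c ≤ 1 / 2 := by linarith
  set lam : ℝ := δ / (κ * p0) with hlam
  have hlam0 : 0 ≤ lam := by positivity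
  -- the thresholds
  choose! Dk hDk1 hDk using fun k : ℕ => hMain κ ε p0 lam k hκ hκ1 hε (by linarith) hp0pos hp01 hlam0
  set D0 : ℝ := 1 + lam + ∑ k ∈ range (K + 1), Dk k with hD0
  have hsum0 : 0 ≤ ∑ k ∈ range (K + 1), Dk k :=
    Finset.sum_nonneg (fun k _ => by linarith [hDk1 k])
  have hDkD0 : ∀ k ≤ K, Dk k ≤ D0 := by
    intro k hk
    have : Dk k ≤ ∑ k ∈ range (K + 1), Dk k :=
      Finset.single_le_sum (f := Dk) (fun j _ => by linarith [hDk1 j])
        (Finset.mem_range.2 (Nat.lt_succ_of_le hk))
    linarith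
  refine ⟨K, lam, D0, hlam0, by linarith, ?_⟩
  intro V _ _ Nb D hG hD
  have hDpos : 0 < D := by linarith [hG.one_le]
  have hlamD : lam ≤ D := by linarith
  have hlamD1 : lam / D ≤ 1 := (div_le_one hDpos).2 hlamD
  have main : ∀ n ≤ K, ∃ L : List (V → ℝ), L.length = n ∧ AdmL L (lam / D) ∧
      (∀ v, (1 - c) ^ n ≤ pr Nb L (Nb v)) ∧
      (∀ v, EL L (fun h => chi (fired Nb h) v) ≤ n * (δ / (κ * D))) ∧
      (∀ v, n * (δ / (κ * D) * (1 - c)) ≤ EL L (fun h => chi (ind Nb h) v)) := by
    intro n
    induction n with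
    | zero =>
      intro _
      refine ⟨[], rfl, ?_, ?_, ?_, ?_⟩
      · intro θ hθ
        simp at hθ
      · intro v
        show (1 - c) ^ 0 ≤ un Nb (Nb v) []
        simp [un, fired]
      · intro v
        show chi (fired Nb []) v ≤ _
        simp [chi, fired]
      · intro v
        show _ ≤ chi (ind Nb []) v
        simp [chi, ind]
    | succ n ih =>
      intro hn
      obtain ⟨L, hLl, hLa, hLp, hLf, hLi⟩ := ih (by omega)
      have hnK : (n : ℝ) ≤ K := by exact_mod_cast (by omega : n ≤ K)
      have hpge : ∀ v, p0 ≤ pr Nb L (Nb v) := by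
        intro v
        refine le_trans ?_ (hLp v)
        have h1 : Real.exp (-(2 * Bc / κ)) ≤ (1 - c) ^ n := by
          calc Real.exp (-(2 * Bc / κ)) ≤ Real.exp (n * (-(2 * c))) := by
                apply Real.exp_le_exp.2
                have e1 : (K : ℝ) * c ≤ Bc / κ := by
                  have : (K : ℝ) * c = (1 - ε) * (Bc / κ) := by
                    rw [hc, ← hKδ]; ring
                  rw [this]
                  have h2 : 0 ≤ Bc / κ := by positivity
                  nlinarith
                have e2 : (n : ℝ) * c ≤ K * c := mul_le_mul_of_nonneg_right hnK hc0.le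
                have e3 : 2 * Bc / κ = 2 * (Bc / κ) := by ring
                rw [e3]
                nlinarith
            _ = (Real.exp (-(2 * c))) ^ n := by rw [← Real.exp_nat_mul]
            _ ≤ (1 - c) ^ n := pow_le_pow_left₀ (Real.exp_pos _).le
                (starAsm_exp_le hc0.le hc2) n
        have h2 := Real.exp_pos (-(2 * Bc / κ))
        rw [hp0]; linarith
      have hppos : ∀ v, 0 < pr Nb L (Nb v) := fun v => lt_of_lt_of_le hp0pos (hpge v)
      have hfire : ∀ y, EL L (fun h => chi (fired Nb h) y) ≤ (1 - ε) / (κ * D) := by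
        intro y
        refine (hLf y).trans ?_
        rw [← hKδ, mul_div_assoc]
        apply mul_le_mul_of_nonneg_right hnK
        positivity
      have hM := hDk n V Nb D hG ((hDkD0 n (by omega)).trans hD) L hLl hLa hpge hfire
      set θ : V → ℝ := fun v => δ / (κ * D * pr Nb L (Nb v)) with hθ
      have hθ0 : ∀ v, 0 ≤ θ v := by
        intro v
        have := hppos v
        show 0 ≤ δ / (κ * D * pr Nb L (Nb v))
        positivity
      have hθp : ∀ v, θ v * pr Nb L (Nb v) = δ / (κ * D) := by
        intro v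
        have := (hppos v).ne'
        show δ / (κ * D * pr Nb L (Nb v)) * pr Nb L (Nb v) = δ / (κ * D)
        field_simp
      have hθle : ∀ v, θ v ≤ lam / D := by
        intro v
        show δ / (κ * D * pr Nb L (Nb v)) ≤ lam / D
        have h1 : lam / D = δ / (κ * D * p0) := by
          rw [hlam]; field_simp
        rw [h1]
        exact div_le_div_of_nonneg_left hδ0.le (by positivity)
          (mul_le_mul_of_nonneg_left (hpge v) (by positivity))
      have hAdm : AdmL (θ :: L) (lam / D) := by
        intro θ' hθ' v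
        rcases List.mem_cons.1 hθ' with rfl | h
        · exact ⟨hθ0 v, hθle v⟩
        · exact hLa θ' h v
      have hAdm1 : AdmL (θ :: L) 1 := fun θ' hθ' v =>
        ⟨(hAdm θ' hθ' v).1, (hAdm θ' hθ' v).2.trans hlamD1⟩
      have hL1 : AdmL L 1 := fun θ' hθ' v => hAdm1 θ' (List.mem_cons_of_mem _ hθ') v
      obtain ⟨-, q2, q3, q4⟩ := hProc V Nb L θ hG.self hG.symm hAdm1
      -- the weighted sum
      have hEnn : ∀ v z, 0 ≤ EL L (fun h => un Nb (Nb v) h * un Nb (Nb z) h) := by
        intro v z
        exact EL_nonneg L hL1 _ (fun x _ => mul_nonneg (starAsm_un_nonneg _ _ _) (starAsm_un_nonneg _ _ _))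
      have hsum : ∀ v, ∑ z ∈ Nb v, θ z * EL L (fun h => un Nb (Nb v) h * un Nb (Nb z) h) ≤
          c * pr Nb L (Nb v) := by
        intro v
        have e : ∑ z ∈ Nb v, θ z * EL L (fun h => un Nb (Nb v) h * un Nb (Nb z) h) =
            δ / κ * ∑ z ∈ Nb v, EL L (fun h => un Nb (Nb v) h * un Nb (Nb z) h) /
              (D * pr Nb L (Nb z)) := by
          rw [Finset.mul_sum]
          apply Finset.sum_congr rfl
          intro z _
          have := (hppos z).ne'
          show δ / (κ * D * pr Nb L (Nb z)) * _ = _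
          field_simp
        rw [e]
        have h1 := mul_le_mul_of_nonneg_left (hM v) (by positivity : 0 ≤ δ / κ)
        refine h1.trans_eq ?_
        rw [hc]; ring
      refine ⟨θ :: L, by simp [hLl], hAdm, ?_, ?_, ?_⟩
      · intro v
        refine le_trans ?_ (q3 v)
        have h1 := hsum v
        have h2 := mul_le_mul_of_nonneg_right (hLp v) (by linarith : 0 ≤ 1 - c)
        rw [pow_succ]
        linarith
      · intro v
        refine (q2 v).trans ?_
        rw [hθp v]
        have := hLf v
        push_cast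
        linarith
      · intro v
        refine le_trans ?_ (q4 v)
        rw [hθp v]
        have h1 := hLi v
        have h2 : ∑ z ∈ (Nb v).erase v,
            θ v * θ z * EL L (fun h => un Nb (Nb v) h * un Nb (Nb z) h) ≤ δ / (κ * D) * c := by
          calc ∑ z ∈ (Nb v).erase v,
                θ v * θ z * EL L (fun h => un Nb (Nb v) h * un Nb (Nb z) h)
              ≤ ∑ z ∈ Nb v, θ v * θ z * EL L (fun h => un Nb (Nb v) h * un Nb (Nb z) h) := by
                apply Finset.sum_le_sum_of_subset_of_nonneg (Finset.erase_subset _ _)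
                intro z _ _
                exact mul_nonneg (mul_nonneg (hθ0 v) (hθ0 z)) (hEnn v z)
            _ = θ v * ∑ z ∈ Nb v, θ z * EL L (fun h => un Nb (Nb v) h * un Nb (Nb z) h) := by
                rw [Finset.mul_sum]
                exact Finset.sum_congr rfl (fun z _ => by ring)
            _ ≤ θ v * (c * pr Nb L (Nb v)) := mul_le_mul_of_nonneg_left (hsum v) (hθ0 v)
            _ = δ / (κ * D) * c := by rw [← hθp v]; ring
        push_cast
        linarith
  obtain ⟨L, hLl, hLa, -, -, hLi⟩ := main K le_rfl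
  refine ⟨L, hLl, hLa, fun v => le_trans ?_ (hLi v)⟩
  have e1 : (K : ℝ) * (δ / (κ * D) * (1 - c)) = (1 - ε) * (1 - c) / (κ * D) := by
    rw [← hKδ]; ring
  rw [e1]
  apply div_le_div_of_nonneg_right _ (by positivity)
  nlinarith

end Pool.Agent.Helper69.VU
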