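import Pool.Agent.Helper69.VU.Spec

/-!
# Project VU: from the colouring theorem to the frozen statement
-/

set_option autoImplicit false

namespace Pool.Agent.Helper69.VU

open Finset

theorem vuAsm : StVuAsm := by
  intro hcol ι hι σ hσ0 hσ1
  have hι3 : 0 < ι / 3 := by positivity
  have hκ0 : 0 < min 1 (max (1 - σ) (ι / 3)) := lt_min one_pos (lt_max_of_lt_right hι3)
  have hκ1 : min 1 (max (1 - σ) (ι / 3)) ≤ 1 := min_le_left _ _
  have hσκ : 1 - σ ≤ min 1 (max (1 - σ) (ι / 3)) := le_min (by linarith) (le_max_left _ _)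
  have hκσ : min 1 (max (1 - σ) (ι / 3)) ≤ 1 - σ + ι / 3 := by
    refine (min_le_right _ _).trans (max_le (by linarith) (by linarith))
  obtain ⟨C0, hC0, hC⟩ := hcol (min 1 (max (1 - σ) (ι / 3))) (ι / 3) hκ0 hκ1 hι3
  set κ := min 1 (max (1 - σ) (ι / 3)) with hκ
  refine ⟨⌈3 * C0 / ι⌉₊, ?_⟩
  intro V _ _ G _ hΔ hcod
  have hΔ' : 3 * C0 / ι ≤ (G.maxDegree : ℝ) :=
    (Nat.le_ceil _).trans (by exact_mod_cast hΔ)
  have hD0 : (0 : ℝ) ≤ (G.maxDegree : ℝ) := Nat.cast_nonneg _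
  obtain ⟨k, hk, hkle⟩ := hC V G (G.maxDegree : ℝ) hD0
    (fun v => by
      rw [SimpleGraph.card_neighborFinset_eq_degree]
      exact_mod_cast G.degree_le_maxDegree v)
    (fun u v huv => (hcod u v huv).trans (mul_le_mul_of_nonneg_right hσκ hD0))
  refine ⟨k, hk, hkle.trans ?_⟩
  have h1 : C0 ≤ ι / 3 * (G.maxDegree : ℝ) := by
    rw [div_le_iff₀ hι] at hΔ'
    linarith
  have h2 : (1 + ι / 3) * κ ≤ 1 - σ + 2 * (ι / 3) := by nlinarith
  have h3 : (1 + ι / 3) * κ * (G.maxDegree : ℝ) ≤ (1 - σ + 2 * (ι / 3)) * (G.maxDegree : ℝ) :=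
    mul_le_mul_of_nonneg_right h2 hD0
  linarith

end Pool.Agent.Helper69.VU
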