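import Pool.Agent.Helper69.VU.Spec

/-!
# Project VU: from histories to colourings (module BatchG)
-/

set_option autoImplicit false

namespace Pool.Agent.Helper69.VU

open Finset

section

variable {V : Type} [Fintype V] [DecidableEq V]

lemma bg_alive_iff (Nb : V → Finset V) (h : List (Finset V)) (v : V) :
    v ∈ alive Nb h ↔ Disjoint (Nb v) (fired Nb h) := by
  induction h with
  | nil => simp [alive, fired]
  | cons B h ih =>
    rw [alive, fired, mem_filter, ih, Finset.disjoint_union_right]
    exact and_comm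

lemma bg_ind_sub (Nb : V → Finset V) (h : List (Finset V)) : ind Nb h ⊆ fired Nb h := by
  induction h with
  | nil => simp [ind, fired]
  | cons B h ih =>
    rw [ind, fired]
    apply Finset.union_subset_union _ ih
    exact Finset.filter_subset _ _

lemma bg_ind_indep (Nb : V → Finset V) (hsymm : ∀ v w, w ∈ Nb v → v ∈ Nb w)
    (h : List (Finset V)) (u v : V) (hu : u ∈ ind Nb h) (hv : v ∈ ind Nb h) (huv : u ≠ v)
    (hadj : v ∈ Nb u) : False := by
  induction h with
  | nil => simp [ind] at hu
  | cons B h ih =>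
    rw [ind, mem_union, mem_filter] at hu hv
    rcases hu with ⟨hu1, hu2⟩ | hu
    · rcases hv with ⟨hv1, _⟩ | hv
      · have := hu2 (mem_inter.mpr ⟨hadj, hv1⟩)
        rw [mem_singleton] at this
        exact huv this.symm
      · have h1 := (bg_alive_iff Nb h u).mp (mem_inter.mp hu1).2
        exact Finset.disjoint_left.mp h1 hadj (bg_ind_sub Nb h hv)
    · rcases hv with ⟨hv1, _⟩ | hv
      · have h1 := (bg_alive_iff Nb h v).mp (mem_inter.mp hv1).2
        exact Finset.disjoint_left.mp h1 (hsymm u v hadj) (bg_ind_sub Nb h hu)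
      · exact ih hu hv

lemma bg_mem_cover (Nb : V → Finset V) (H : List (List (Finset V))) (u : V)
    (hu : u ∈ cover Nb H) : ∃ i : Fin H.length, u ∈ ind Nb (H.get i) := by
  induction H with
  | nil => simp [cover] at hu
  | cons h H ih =>
    rw [cover, mem_union] at hu
    rcases hu with hu | hu
    · exact ⟨⟨0, by simp⟩, by simpa using hu⟩
    · obtain ⟨i, hi⟩ := ih hu
      exact ⟨i.succ, by simpa using hi⟩

end

theorem batchG : StBatchG := by
  intro hB κ ε hκ hκ1 hε hε1
  obtain ⟨D0, hD0, hmain⟩ := hB κ ε hκ hκ1 hε hε1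
  refine ⟨D0, hD0, ?_⟩
  intro V _ _ G _ D hD hdeg hcodeg
  set Nb : V → Finset V := fun v => insert v (G.neighborFinset v) with hNb
  have her : ∀ v, (Nb v).erase v = G.neighborFinset v := by
    intro v
    rw [hNb]
    exact Finset.erase_insert (by simp)
  have hsymm : ∀ v w, w ∈ Nb v → v ∈ Nb w := by
    intro v w hw
    simp only [hNb, mem_insert, SimpleGraph.mem_neighborFinset] at hw ⊢
    rcases hw with rfl | hw
    · exact Or.inl rfl
    · exact Or.inr hw.symm
  have hgood : Good Nb D κ := by
    refine ⟨hD0.trans hD, ?_, hsymm, ?_, ?_⟩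
    · intro v
      simp [hNb]
    · intro v
      have h1 : (Nb v).card ≤ (G.neighborFinset v).card + 1 := Finset.card_insert_le _ _
      have h2 : ((Nb v).card : ℝ) ≤ ((G.neighborFinset v).card : ℝ) + 1 := by exact_mod_cast h1
      linarith [hdeg v]
    · intro v w hvw
      have hsub : Nb v ∩ Nb w ⊆ (G.neighborFinset v ∩ G.neighborFinset w) ∪ {v, w} := by
        intro a ha
        simp only [hNb, mem_inter, mem_insert, mem_union, mem_singleton] at ha ⊢
        tauto
      have h1 : (Nb v ∩ Nb w).card ≤ (G.neighborFinset v ∩ G.neighborFinset w).card + 2 :=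
        (Finset.card_le_card hsub).trans ((Finset.card_union_le _ _).trans
          (Nat.add_le_add_left Finset.card_le_two _))
      have h2 : ((Nb v ∩ Nb w).card : ℝ) ≤
          ((G.neighborFinset v ∩ G.neighborFinset w).card : ℝ) + 2 := by exact_mod_cast h1
      linarith [hcodeg v w hvw]
  obtain ⟨D', H, hH1, hD'0, hD'1, hm, hd, hc⟩ := hmain V Nb D hgood (by
    intro u v huv
    rw [her, her]
    exact hcodeg u v huv) hD
  have hex : ∀ u : V, ∃ i : Fin H.length, u ∈ cover Nb H → u ∈ ind Nb (H.get i) := by
    intro u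
    by_cases hu : u ∈ cover Nb H
    · obtain ⟨i, hi⟩ := bg_mem_cover Nb H u hu
      exact ⟨i, fun _ => hi⟩
    · exact ⟨⟨0, hH1⟩, fun h => absurd h hu⟩
  choose c hc' using hex
  refine ⟨H.length, D', cover Nb H, c, hD'0, hD'1, hm, ?_, ?_, ?_⟩
  · intro u hu v hv hadj hcol
    have h1 := hc' u hu
    have h2 := hc' v hv
    rw [← hcol] at h2
    exact bg_ind_indep Nb hsymm _ u v h1 h2 hadj.ne (by
      simp only [hNb, mem_insert, SimpleGraph.mem_neighborFinset]
      exact Or.inr hadj)
  · intro v
    have := hd v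
    rwa [her] at this
  · intro u v huv
    have := hc u v huv
    rwa [her, her] at this

end Pool.Agent.Helper69.VU
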