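import Mathlib

/-!
# Project VU (MP_6d4b10_co): definitions

Random subsets of a finite vertex type with independent inclusions, histories of such
subsets, and the semirandom process on closed neighbourhoods.
-/

set_option autoImplicit false

namespace Pool.Agent.Helper69.VU

open Finset

variable {V : Type} [Fintype V] [DecidableEq V]

/-- probability weight of the outcome `B` when every `v` is included independently with
probability `θ v` -/
noncomputable def wt (θ : V → ℝ) (B : Finset V) : ℝ := ∏ v, if v ∈ B then θ v else 1 - θ v

/-- expectation over the random subset with inclusion probabilities `θ` -/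
noncomputable def EB (θ : V → ℝ) (f : Finset V → ℝ) : ℝ := ∑ B : Finset V, wt θ B * f B

/-- expectation over histories; both lists have the most recent step first -/
noncomputable def EL : List (V → ℝ) → (List (Finset V) → ℝ) → ℝ
  | [], f => f []
  | θ :: L, f => EL L (fun h => EB θ (fun B => f (B :: h)))

/-- all inclusion probabilities in the list lie between `0` and `b` -/
def AdmL (L : List (V → ℝ)) (b : ℝ) : Prop := ∀ θ ∈ L, ∀ v, 0 ≤ θ v ∧ θ v ≤ b

/-- vertices alive after the history `h` (`Nb v` is the closed neighbourhood of `v`) -/
def alive (Nb : V → Finset V) : List (Finset V) → Finset V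
  | [] => univ
  | B :: h => (alive Nb h).filter (fun v => Disjoint (Nb v) (B ∩ alive Nb h))

/-- vertices fired during the history `h` -/
def fired (Nb : V → Finset V) : List (Finset V) → Finset V
  | [] => ∅
  | B :: h => (B ∩ alive Nb h) ∪ fired Nb h

/-- the independent set produced by the history `h` -/
def ind (Nb : V → Finset V) : List (Finset V) → Finset V
  | [] => ∅
  | B :: h => (B ∩ alive Nb h).filter (fun v => Nb v ∩ (B ∩ alive Nb h) ⊆ {v}) ∪ ind Nb h

/-- all vertices that were ever included in a random set of the history -/
def act : List (Finset V) → Finset V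
  | [] => ∅
  | B :: h => B ∪ act h

/-- indicator of the event that no vertex of `S` has been fired -/
noncomputable def un (Nb : V → Finset V) (S : Finset V) (h : List (Finset V)) : ℝ :=
  if Disjoint S (fired Nb h) then 1 else 0

/-- probability that no vertex of `S` has been fired -/
noncomputable def pr (Nb : V → Finset V) (L : List (V → ℝ)) (S : Finset V) : ℝ :=
  EL L (un Nb S)

/-- closed neighbourhoods of a graph with degrees at most `D` and codegrees at most `κ * D` -/
structure Good (Nb : V → Finset V) (D κ : ℝ) : Prop where
  one_le : 1 ≤ D
  self : ∀ v, v ∈ Nb v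
  symm : ∀ v w, w ∈ Nb v → v ∈ Nb w
  deg : ∀ v, ((Nb v).card : ℝ) ≤ D + 1
  codeg : ∀ v w, v ≠ w → ((Nb v ∩ Nb w).card : ℝ) ≤ κ * D + 2

/-- normalised neighbourhood sum -/
noncomputable def T (Nb : V → Finset V) (D : ℝ) (f : V → ℝ) : V → ℝ :=
  fun v => (∑ w ∈ Nb v, f w) / D

/-- indicator function of a finset -/
noncomputable def chi (S : Finset V) : V → ℝ := fun w => if w ∈ S then 1 else 0

/-- normalised number of walks of length at most `n` from `S` to `S'` -/
noncomputable def W (Nb : V → Finset V) (D : ℝ) (n : ℕ) (S S' : Finset V) : ℝ :=
  ∑ j ∈ range (n + 1), ∑ v ∈ S, ((T Nb D)^[j] (chi S')) v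

/-- expectation over `m` independent histories -/
noncomputable def EM (L : List (V → ℝ)) : ℕ → (List (List (Finset V)) → ℝ) → ℝ
  | 0, f => f []
  | m + 1, f => EM L m (fun H => EL L (fun h => f (h :: H)))

/-- union of the independent sets of the histories in `H` -/
def cover (Nb : V → Finset V) : List (List (Finset V)) → Finset V
  | [] => ∅
  | h :: H => ind Nb h ∪ cover Nb H

end Pool.Agent.Helper69.VU
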