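import Pool.Agent.Helper69.VU.Spec

/-!
# Project VU: the deviation is monotone
-/

set_option autoImplicit false

namespace Pool.Agent.Helper69.VU

open Finset

section PosB

variable {V : Type} [DecidableEq V]

theorem sum_cls_refine (Nb : V → Finset V) (Z W W' : Finset V) (hW : W ⊆ W') (μ : V → ℝ)
    (p : V → Prop) [DecidablePred p] (u : Finset V) :
    ∑ z ∈ (cls Nb Z W u).filter p, μ z =
      ∑ u' ∈ W'.powerset.filter (fun u' => u' ∩ W = u),
        ∑ z ∈ (cls Nb Z W' u').filter p, μ z := by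
  have hmaps : ∀ z ∈ (cls Nb Z W u).filter p,
      Nb z ∩ W' ∈ W'.powerset.filter (fun u' => u' ∩ W = u) := by
    intro z hz
    rw [mem_filter, cls, mem_filter] at hz
    rw [mem_filter, mem_powerset]
    refine ⟨inter_subset_right, ?_⟩
    rw [inter_assoc, inter_eq_right.2 hW]
    exact hz.1.2
  rw [← Finset.sum_fiberwise_of_maps_to hmaps]
  apply Finset.sum_congr rfl
  intro u' hu'
  rw [mem_filter] at hu'
  apply Finset.sum_congr _ (fun _ _ => rfl)
  ext z
  simp only [cls, mem_filter]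
  constructor
  · rintro ⟨⟨⟨hz, -⟩, hp⟩, h⟩
    exact ⟨⟨hz, h⟩, hp⟩
  · rintro ⟨⟨hz, h⟩, hp⟩
    refine ⟨⟨⟨hz, ?_⟩, hp⟩, h⟩
    rw [← hu'.2, ← h, inter_assoc, inter_eq_right.2 hW]

end PosB

theorem posB : StPosB := by
  intro V _ _ Nb Z Y μ y B B' hBB
  unfold dev
  have hW : Y ∪ B ⊆ Y ∪ B' := union_subset_union_right hBB
  set W := Y ∪ B with hWd
  set W' := Y ∪ B' with hWd'
  have hYW : Y ⊆ W := subset_union_left
  have hmaps : ∀ u' ∈ W'.powerset, u' ∩ W ∈ W.powerset := by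
    intro u' _
    rw [mem_powerset]
    exact inter_subset_right
  rw [← Finset.sum_fiberwise_of_maps_to hmaps]
  apply Finset.sum_le_sum
  intro u hu
  have h1 : ms μ ((cls Nb Z W u).filter (fun z => y ∈ Nb z)) =
      ∑ u' ∈ W'.powerset.filter (fun u' => u' ∩ W = u),
        ms μ ((cls Nb Z W' u').filter (fun z => y ∈ Nb z)) :=
    sum_cls_refine Nb Z W W' hW μ (fun z => y ∈ Nb z) u
  have h2 : ms μ (cls Nb Z W u) =
      ∑ u' ∈ W'.powerset.filter (fun u' => u' ∩ W = u), ms μ (cls Nb Z W' u') := by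
    have := sum_cls_refine Nb Z W W' hW μ (fun _ => True) u
    simpa only [filter_true, ms] using this
  have h3 : ms μ ((cls Nb Z W u).filter (fun z => y ∈ Nb z)) -
      dens Nb μ (cls Nb Z Y (u ∩ Y)) y * ms μ (cls Nb Z W u) =
      ∑ u' ∈ W'.powerset.filter (fun u' => u' ∩ W = u),
        (ms μ ((cls Nb Z W' u').filter (fun z => y ∈ Nb z)) -
          dens Nb μ (cls Nb Z Y (u' ∩ Y)) y * ms μ (cls Nb Z W' u')) := by
    rw [h1, h2, Finset.sum_sub_distrib, Finset.mul_sum]
    congr 1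
    apply Finset.sum_congr rfl
    intro u' hu'
    rw [mem_filter] at hu'
    have : u ∩ Y = u' ∩ Y := by
      rw [← hu'.2, inter_assoc, inter_eq_right.2 hYW]
    rw [this]
  rw [h3]
  exact Finset.abs_sum_le_sum_abs _ _

end Pool.Agent.Helper69.VU
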