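import Pool.Agent.Helper69.VU.Tools

/-!
# Project VU: statements of the modules

Every `St...` is a closed proposition; module `X` proves `theorem x : StX` (or an implication
between such propositions).
-/

set_option autoImplicit false

namespace Pool.Agent.Helper69.VU

open Finset

/-! ## Section 1: covariance bound -/

/-- symmetric closed neighbourhoods of size at most `D + 1` -/
structure Nbd {V : Type} (Nb : V → Finset V) (D : ℝ) : Prop where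
  one_le : 1 ≤ D
  symm : ∀ v w, w ∈ Nb v → v ∈ Nb w
  deg : ∀ v, ((Nb v).card : ℝ) ≤ D + 1

/-- COV-a1: covariance of functions of overlapping parts of one random set -/
def StCovA : Prop :=
  ∀ (V : Type) [Fintype V] [DecidableEq V] (θ : V → ℝ), (∀ v, 0 ≤ θ v ∧ θ v ≤ 1) →
    ∀ (C C' : Finset V) (f g : Finset V → ℝ),
      (∀ S, 0 ≤ f S ∧ f S ≤ 1) → (∀ S, 0 ≤ g S ∧ g S ≤ 1) →
      |EB θ (fun B => f (B ∩ C) * g (B ∩ C')) -
        EB θ (fun B => f (B ∩ C)) * EB θ (fun B => g (B ∩ C'))| ≤ 2 * ∑ v ∈ C ∩ C', θ v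

/-- COV-a2: expected pair sums over one random set -/
def StCovA2 : Prop :=
  ∀ (V : Type) [Fintype V] [DecidableEq V] (θ : V → ℝ) (b : ℝ), b ≤ 1 →
    (∀ v, 0 ≤ θ v ∧ θ v ≤ b) →
    ∀ (C C' : Finset V) (c : V → V → ℝ), (∀ v w, 0 ≤ c v w) →
      EB θ (fun B => ∑ v ∈ B ∩ C, ∑ w ∈ B ∩ C', c v w) ≤
        b ^ 2 * ∑ v ∈ C, ∑ w ∈ C', c v w + b * ∑ v ∈ C ∩ C', c v v

/-- the covariance majorant -/
noncomputable def Gam {V : Type} [Fintype V] [DecidableEq V] (Nb : V → Finset V) (D C : ℝ)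
    (k : ℕ) (S S' : Finset V) : ℝ := C / D * W Nb D (2 * k) S S'

/-- COV-b: the recursive inequality for the majorant, pair by pair -/
def StCovB : Prop :=
  ∀ (lam C : ℝ) (k : ℕ), 0 ≤ lam → 0 ≤ C → ∃ C' : ℝ, 0 ≤ C' ∧
    ∀ (V : Type) [Fintype V] [DecidableEq V] (Nb : V → Finset V) (D : ℝ), Nbd Nb D →
      ∀ S S' : Finset V,
        Gam Nb D C k S S' + lam / D * ∑ w ∈ S', Gam Nb D C k S (Nb w) +
          lam / D * ∑ v ∈ S, Gam Nb D C k (Nb v) S' +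
          (lam / D) ^ 2 * ∑ v ∈ S, ∑ w ∈ S', Gam Nb D C k (Nb v) (Nb w) +
          lam / D * ∑ v ∈ S ∩ S', Gam Nb D C k (Nb v) (Nb v) +
          2 * (lam / D) * ((S ∩ S').card : ℝ) ≤ Gam Nb D C' (k + 1) S S'

/-- the covariance bound for two sets -/
def StCov : Prop :=
  ∀ (lam : ℝ) (k : ℕ), 0 ≤ lam → ∃ C : ℝ, 0 ≤ C ∧
    ∀ (V : Type) [Fintype V] [DecidableEq V] (Nb : V → Finset V) (D : ℝ), Nbd Nb D →
      (∀ v, v ∈ Nb v) → lam ≤ D → ∀ L : List (V → ℝ), L.length = k → AdmL L (lam / D) →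
      ∀ S S' : Finset V,
        |EL L (fun h => un Nb S h * un Nb S' h) - pr Nb L S * pr Nb L S'| ≤
          Gam Nb D C k S S'

/-- COV-c: the induction on the number of steps -/
def StCovC : Prop := StCovA → StCovA2 → StCovB → StCov

/-! ## Section 2: the deterministic thresholds -/

def StDet : Prop :=
  ∀ (k : ℕ) (C e1 e2 e3 : ℝ), 0 ≤ C → 0 < e1 → 0 < e2 → 0 < e3 → ∃ C1 : ℝ, 1 ≤ C1 ∧
    ∀ (V : Type) [Fintype V] [DecidableEq V] (Nb : V → Finset V) (D : ℝ), Nbd Nb D →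
      ∀ x : V, ∃ U U' : Finset V, U ⊆ U' ∧ (U.card : ℝ) ≤ C1 * D ∧
        (∀ z, Gam Nb D C k (Nb z \ U') (Nb z ∩ U) ≤ e1) ∧
        (∀ z, 1 / D * ∑ z' ∈ Nb x, Gam Nb D C k (Nb z \ U') (Nb z' \ U') ≤ e2) ∧
        1 / D ^ 2 * ∑ z ∈ Nb x, ((Nb z ∩ (U' \ U)).card : ℝ) ≤ e3

/-! ## Section 3: positivity -/

/-- mass of a set -/
noncomputable def ms {V : Type} (μ : V → ℝ) (A : Finset V) : ℝ := ∑ z ∈ A, μ z

/-- class of all `z ∈ Z` whose neighbours inside `Y` form the set `s` -/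
def cls {V : Type} [DecidableEq V] (Nb : V → Finset V) (Z Y s : Finset V) : Finset V :=
  Z.filter (fun z => Nb z ∩ Y = s)

/-- relative mass of the neighbours of `y` in `A` (`0` if `A` has mass `0`) -/
noncomputable def dens {V : Type} [DecidableEq V] (Nb : V → Finset V) (μ : V → ℝ)
    (A : Finset V) (y : V) : ℝ := ms μ (A.filter (fun z => y ∈ Nb z)) / ms μ A

/-- deviation of `y` from class densities after refining the classes of `Y` by `B` -/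
noncomputable def dev {V : Type} [DecidableEq V] (Nb : V → Finset V) (μ : V → ℝ)
    (Z Y : Finset V) (y : V) (B : Finset V) : ℝ :=
  ∑ u ∈ (Y ∪ B).powerset,
    |ms μ ((cls Nb Z (Y ∪ B) u).filter (fun z => y ∈ Nb z)) -
      dens Nb μ (cls Nb Z Y (u ∩ Y)) y * ms μ (cls Nb Z (Y ∪ B) u)|

/-- POS-a: an energy-maximal set `Y` -/
def StPosA : Prop :=
  ∀ (V : Type) [Fintype V] [DecidableEq V] (Nb : V → Finset V) (D C1 M0 ρ : ℝ),
    1 ≤ D → (∀ v, ((Nb v).card : ℝ) ≤ D + 1) → 0 ≤ C1 → 1 ≤ M0 → 0 < ρ →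
    ∀ (Z U : Finset V) (μ : V → ℝ), (Z.card : ℝ) ≤ D + 1 → (U.card : ℝ) ≤ C1 * D →
      (∀ z, 0 ≤ μ z ∧ μ z ≤ M0 / D) →
      ∃ Y : Finset V, Y ⊆ U ∧ (Y.card : ℝ) ≤ 4 * M0 / ρ ∧
        ∀ B : Finset V, B ⊆ U →
          ∑ y ∈ U, dev Nb μ Z Y y B ≤ D * Real.sqrt (2 * C1 * M0 * ρ) * Real.sqrt (B.card : ℝ)

/-- POS-b: the deviation is monotone -/
def StPosB : Prop :=
  ∀ (V : Type) [Fintype V] [DecidableEq V] (Nb : V → Finset V) (Z Y : Finset V) (μ : V → ℝ),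
    ∀ (y : V) (B B' : Finset V), B ⊆ B' → dev Nb μ Z Y y B ≤ dev Nb μ Z Y y B'

/-- POS-c: product formula -/
def StPosC : Prop :=
  ∀ (V : Type) [Fintype V] [DecidableEq V] (Nb : V → Finset V) (Z Y : Finset V) (μ : V → ℝ),
    (∀ z, 0 ≤ μ z) → ∀ F : Finset V,
      ∑ s ∈ Y.powerset, |ms μ ((cls Nb Z Y s).filter (fun z => Disjoint (Nb z) F)) -
        ms μ (cls Nb Z Y s) * ∏ y ∈ F, (1 - dens Nb μ (cls Nb Z Y s) y)| ≤
      ∑ y ∈ F, dev Nb μ Z Y y (F.erase y)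

/-- POS-d: expected total deviation over the fired set -/
def StPosD : Prop :=
  ∀ (V : Type) [Fintype V] [DecidableEq V] (Nb : V → Finset V) (L : List (V → ℝ)) (b R : ℝ),
    0 ≤ b → b ≤ 1 → AdmL L b → 0 ≤ R → ∀ (U : Finset V) (g : V → Finset V → ℝ),
      (∀ y S, 0 ≤ g y S) → (∀ y S S', S ⊆ S' → g y S ≤ g y S') →
      (∀ B, B ⊆ U → ∑ y ∈ U, g y B ≤ R * Real.sqrt (B.card : ℝ)) →
      EL L (fun h => ∑ y ∈ fired Nb h ∩ U, g y ((fired Nb h ∩ U).erase y)) ≤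
        L.length * b * R * Real.sqrt (L.length * b * U.card)

/-- the positivity constant -/
noncomputable def bet (κ ε : ℝ) : ℝ := ε / 2 * Real.exp (-(8 / (κ * ε)))

/-- POS-e: positivity for one class of positive mass -/
def StPosE : Prop :=
  ∀ (V : Type) [Fintype V] [DecidableEq V] (Nb : V → Finset V) (D κ ε ζ M0 : ℝ),
    Good Nb D κ → 0 < κ → κ ≤ 1 → 0 < ε → ε < 1 → 0 < ζ → 1 ≤ M0 →
    (2 + 2 * M0 / ζ) / (κ * D) ≤ ε / 4 →
    ∀ L : List (V → ℝ), AdmL L 1 →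
      (∀ y, EL L (fun h => chi (fired Nb h) y) ≤ (1 - ε) / (κ * D)) →
      ∀ (A U : Finset V) (μ : V → ℝ), (∀ z, 0 ≤ μ z ∧ μ z ≤ M0 / D) → ζ ≤ ms μ A →
        bet κ ε ≤ EL L (fun h => ∏ y ∈ fired Nb h ∩ U, (1 - dens Nb μ A y))

/-- positivity -/
def StPos : Prop :=
  ∀ (κ ε lam C1 M0 e4 : ℝ) (k : ℕ), 0 < κ → κ ≤ 1 → 0 < ε → ε < 1 → 0 ≤ lam → 0 ≤ C1 →
    1 ≤ M0 → 0 < e4 → ∃ D0 : ℝ, 1 ≤ D0 ∧
    ∀ (V : Type) [Fintype V] [DecidableEq V] (Nb : V → Finset V) (D : ℝ), Good Nb D κ →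
      D0 ≤ D → ∀ L : List (V → ℝ), L.length = k → AdmL L (lam / D) →
      (∀ y, EL L (fun h => chi (fired Nb h) y) ≤ (1 - ε) / (κ * D)) →
      ∀ (Z U : Finset V) (μ : V → ℝ), (Z.card : ℝ) ≤ D + 1 → (U.card : ℝ) ≤ C1 * D →
        (∀ z, 0 ≤ μ z ∧ μ z ≤ M0 / D) →
        bet κ ε * ∑ z ∈ Z, μ z - e4 ≤ ∑ z ∈ Z, μ z * pr Nb L (Nb z ∩ U)

/-- POS-f: assembly -/
def StPosF : Prop := StPosA → StPosB → StPosC → StPosD → StPosE → StPos

/-! ## Section 4: main lemma -/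

def StMain : Prop :=
  ∀ (κ ε p0 lam : ℝ) (k : ℕ), 0 < κ → κ ≤ 1 → 0 < ε → ε < 1 → 0 < p0 → p0 ≤ 1 → 0 ≤ lam →
    ∃ D0 : ℝ, 1 ≤ D0 ∧
    ∀ (V : Type) [Fintype V] [DecidableEq V] (Nb : V → Finset V) (D : ℝ), Good Nb D κ →
      D0 ≤ D → ∀ L : List (V → ℝ), L.length = k → AdmL L (lam / D) →
      (∀ v, p0 ≤ pr Nb L (Nb v)) →
      (∀ y, EL L (fun h => chi (fired Nb h) y) ≤ (1 - ε) / (κ * D)) →
      ∀ x : V, ∑ z ∈ Nb x, EL L (fun h => un Nb (Nb x) h * un Nb (Nb z) h) /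
        (D * pr Nb L (Nb z)) ≤ 2 / bet κ ε * pr Nb L (Nb x)

def StMainAsm : Prop := StCov → StDet → StPos → StMain

/-! ## Section 5: the process -/

/-- PROC: one step of the process (four facts) -/
def StProc : Prop :=
  ∀ (V : Type) [Fintype V] [DecidableEq V] (Nb : V → Finset V) (L : List (V → ℝ)) (θ : V → ℝ),
    (∀ v, v ∈ Nb v) → (∀ v w, w ∈ Nb v → v ∈ Nb w) → AdmL (θ :: L) 1 →
    (∀ (h : List (Finset V)) (v : V), v ∈ alive Nb h ↔ Disjoint (Nb v) (fired Nb h)) ∧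
    (∀ v, EL (θ :: L) (fun h => chi (fired Nb h) v) ≤
      EL L (fun h => chi (fired Nb h) v) + θ v * pr Nb L (Nb v)) ∧
    (∀ v, pr Nb L (Nb v) -
        ∑ z ∈ Nb v, θ z * EL L (fun h => un Nb (Nb v) h * un Nb (Nb z) h) ≤
      pr Nb (θ :: L) (Nb v)) ∧
    (∀ v, EL L (fun h => chi (ind Nb h) v) + θ v * pr Nb L (Nb v) -
        ∑ z ∈ (Nb v).erase v, θ v * θ z * EL L (fun h => un Nb (Nb v) h * un Nb (Nb z) h) ≤
      EL (θ :: L) (fun h => chi (ind Nb h) v))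

/-- the random independent set -/
def StStar : Prop :=
  ∀ (κ ε : ℝ), 0 < κ → κ ≤ 1 → 0 < ε → ε < 1 / 4 → ∃ (K : ℕ) (lam D0 : ℝ), 0 ≤ lam ∧ 1 ≤ D0 ∧
    ∀ (V : Type) [Fintype V] [DecidableEq V] (Nb : V → Finset V) (D : ℝ), Good Nb D κ →
      D0 ≤ D → ∃ L : List (V → ℝ), L.length = K ∧ AdmL L (lam / D) ∧
        ∀ v, (1 - 2 * ε) / (κ * D) ≤ EL L (fun h => chi (ind Nb h) v)

def StStarAsm : Prop := StMain → StProc → StStar

/-! ## Section 6: batches -/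

/-- CHERN: exponential moment of the uncovered part of a set -/
def StChern : Prop :=
  ∀ (V : Type) [Fintype V] [DecidableEq V] (Nb : V → Finset V) (D lam ρ : ℝ)
    (L : List (V → ℝ)), 1 ≤ D → 0 ≤ lam → lam ≤ D → AdmL L (lam / D) → 0 ≤ ρ → ρ ≤ 1 →
    (∀ v, ρ ≤ EL L (fun h => chi (ind Nb h) v)) →
    ∀ (R : Finset V) (m : ℕ) (s : ℝ), (R.card : ℝ) ≤ D + 1 → 0 ≤ s →
      EM L m (fun H => Real.exp (s * ((R \ cover Nb H).card : ℝ))) ≤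
        Real.exp (s * ((1 - ρ) ^ m * R.card) +
          m * (2 * L.length * lam + (2 * L.length * lam) ^ 2) * s ^ 2)

/-- LLL: abstract symmetric local lemma for a positive normalised linear functional -/
def StLLL : Prop :=
  ∀ (Ω : Type) (E : (Ω → ℝ) → ℝ), (∀ f g, E (fun x => f x + g x) = E f + E g) →
    (∀ (c : ℝ) f, E (fun x => c * f x) = c * E f) → (∀ f g, (∀ x, f x ≤ g x) → E f ≤ E g) →
    E (fun _ => 1) = 1 →
    ∀ (ι : Type) [Fintype ι] [DecidableEq ι] (a : ι → Ω → ℝ) (nb : ι → Finset ι) (d : ℕ),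
      (∀ i x, a i x = 0 ∨ a i x = 1) →
      (∀ i (J : Finset ι), (∀ j ∈ J, j ∉ nb i) →
        E (fun x => a i x * ∏ j ∈ J, (1 - a j x)) = E (a i) * E (fun x => ∏ j ∈ J, (1 - a j x))) →
      1 ≤ d → (∀ i, (nb i).card ≤ d) → (∀ i, 4 * (d : ℝ) * E (a i) ≤ 1) →
      0 < E (fun x => ∏ i, (1 - a i x))

/-- balls around a vertex -/
def ball {V : Type} [DecidableEq V] (Nb : V → Finset V) : ℕ → V → Finset V
  | 0, v => {v}
  | n + 1, v => (ball Nb n v).biUnion Nb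

/-- LOCAL: locality of the independent sets, size and overlap of balls, independence -/
def StLocal : Prop :=
  ∀ (V : Type) [Fintype V] [DecidableEq V] (Nb : V → Finset V), (∀ v, v ∈ Nb v) →
    (∀ v w, w ∈ Nb v → v ∈ Nb w) →
    (∀ (h : List (Finset V)) (C : Finset V) (v : V), ball Nb h.length v ⊆ C →
      (v ∈ ind Nb h ↔ v ∈ ind Nb (rs C h))) ∧
    (∀ (n : ℕ) (d : ℝ) (v : V), (∀ w, ((Nb w).card : ℝ) ≤ d) →
      ((ball Nb n v).card : ℝ) ≤ d ^ n) ∧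
    (∀ (n m : ℕ) (u v : V), ¬ Disjoint (ball Nb n u) (ball Nb m v) → u ∈ ball Nb (n + m) v) ∧
    (∀ (L : List (V → ℝ)) (m : ℕ) (C C' : Finset V), Disjoint C C' →
      ∀ f g : List (List (Finset V)) → ℝ,
        EM L m (fun H => f (H.map (rs C)) * g (H.map (rs C'))) =
          EM L m (fun H => f (H.map (rs C))) * EM L m (fun H => g (H.map (rs C'))))

/-- NUM: choice of the numerical parameters of a batch -/
def StNum : Prop :=
  ∀ (κ ε c : ℝ) (r : ℕ), 0 < κ → κ ≤ 1 → 0 < ε → ε < 1 / 4 → 0 ≤ c →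
    ∃ (a s D0 : ℝ), 0 < a ∧ 0 < s ∧ 1 ≤ D0 ∧ ∀ D : ℝ, D0 ≤ D → ∃ m : ℕ, 1 ≤ m ∧
      0 ≤ (1 - 2 * ε) / (κ * D) ∧ (1 - 2 * ε) / (κ * D) ≤ 1 ∧
      (1 - (1 - 2 * ε) / (κ * D)) ^ m * D + a * D ≤ D - 1 ∧
      (m : ℝ) ≤ (1 + 16 * ε) * κ * (D - ((1 - (1 - 2 * ε) / (κ * D)) ^ m * D + a * D)) ∧
      16 * (D + 1) ^ (r + 2) * Real.exp (-(s * κ * a * D) + m * c * s ^ 2) ≤ 1

/-- one batch, at the level of histories -/
def StBatchH : Prop :=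
  ∀ (κ ε : ℝ), 0 < κ → κ ≤ 1 → 0 < ε → ε < 1 / 4 → ∃ (D0 : ℝ), 1 ≤ D0 ∧
    ∀ (V : Type) [Fintype V] [DecidableEq V] (Nb : V → Finset V) (D : ℝ), Good Nb D κ →
      (∀ u v, u ≠ v → ((((Nb u).erase u) ∩ ((Nb v).erase v)).card : ℝ) ≤ κ * D) → D0 ≤ D →
      ∃ (D' : ℝ) (H : List (List (Finset V))), 1 ≤ H.length ∧ 0 ≤ D' ∧ D' ≤ D - 1 ∧
        (H.length : ℝ) ≤ (1 + 16 * ε) * κ * (D - D') ∧
        (∀ v, ((((Nb v).erase v) \ cover Nb H).card : ℝ) ≤ D') ∧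
        (∀ u v, u ≠ v →
          (((((Nb u).erase u) ∩ ((Nb v).erase v)) \ cover Nb H).card : ℝ) ≤ κ * D')

def StBatchHAsm : Prop := StStar → StChern → StLLL → StLocal → StNum → StBatchH

/-- one batch: a union of few independent sets whose removal shrinks all degrees and codegrees -/
def StBatch : Prop :=
  ∀ (κ ε : ℝ), 0 < κ → κ ≤ 1 → 0 < ε → ε < 1 / 4 → ∃ (D0 : ℝ), 1 ≤ D0 ∧
    ∀ (V : Type) [Fintype V] [DecidableEq V] (G : SimpleGraph V) [DecidableRel G.Adj] (D : ℝ),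
      D0 ≤ D → (∀ v, ((G.neighborFinset v).card : ℝ) ≤ D) →
      (∀ u v, u ≠ v → ((G.neighborFinset u ∩ G.neighborFinset v).card : ℝ) ≤ κ * D) →
      ∃ (m : ℕ) (D' : ℝ) (A : Finset V) (c : V → Fin m), 0 ≤ D' ∧ D' ≤ D - 1 ∧
        (m : ℝ) ≤ (1 + 16 * ε) * κ * (D - D') ∧
        (∀ u ∈ A, ∀ v ∈ A, G.Adj u v → c u ≠ c v) ∧
        (∀ v, ((G.neighborFinset v \ A).card : ℝ) ≤ D') ∧
        (∀ u v, u ≠ v → (((G.neighborFinset u ∩ G.neighborFinset v) \ A).card : ℝ) ≤ κ * D')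

def StBatchG : Prop := StBatchH → StBatch

/-! ## Section 7: iteration -/

/-- the colouring theorem -/
def StColour : Prop :=
  ∀ (κ ε : ℝ), 0 < κ → κ ≤ 1 → 0 < ε → ∃ (C0 : ℝ), 0 ≤ C0 ∧
    ∀ (V : Type) [Fintype V] [DecidableEq V] (G : SimpleGraph V) [DecidableRel G.Adj] (D : ℝ),
      0 ≤ D → (∀ v, ((G.neighborFinset v).card : ℝ) ≤ D) →
      (∀ u v, u ≠ v → ((G.neighborFinset u ∩ G.neighborFinset v).card : ℝ) ≤ κ * D) →
      ∃ k : ℕ, G.Colorable k ∧ (k : ℝ) ≤ (1 + ε) * κ * D + C0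

def StColourAsm : Prop := StBatch → StColour

/-- the frozen statement -/
def StVu : Prop :=
  ∀ ι : ℝ, 0 < ι → ∀ σ : ℝ, 0 ≤ σ → σ ≤ 1 →
      ∃ Δ₀ : ℕ, ∀ (V : Type) [Fintype V] [DecidableEq V] (G : SimpleGraph V) [DecidableRel G.Adj],
        Δ₀ ≤ G.maxDegree →
        (∀ u v : V, u ≠ v →
          ((G.neighborFinset u ∩ G.neighborFinset v).card : ℝ) ≤ (1 - σ) * (G.maxDegree : ℝ)) →
        ∃ k : ℕ, G.Colorable k ∧ (k : ℝ) ≤ (1 - σ + ι) * (G.maxDegree : ℝ)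

def StVuAsm : Prop := StColour → StVu

end Pool.Agent.Helper69.VU
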