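import Pool.Agent.Helper69.VU.Defs

/-!
# Project VU: tools for the expectations `EB` and `EL`
-/

set_option autoImplicit false

namespace Pool.Agent.Helper69.VU

open Finset

variable {V : Type} [Fintype V] [DecidableEq V]

/-! ## `EB` -/

/-- partial weights on a set `C` -/
noncomputable def wtC (θ : V → ℝ) (C S : Finset V) : ℝ := ∏ v ∈ C, if v ∈ S then θ v else 1 - θ v

omit [Fintype V] in
lemma wtC_sum (θ : V → ℝ) (C : Finset V) : ∑ S ∈ C.powerset, wtC θ C S = 1 := by
  have h := Finset.prod_add (fun v => θ v) (fun v => 1 - θ v) C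
  have h1 : ∏ v ∈ C, (θ v + (1 - θ v)) = 1 := by
    apply Finset.prod_eq_one
    intro v _
    ring
  rw [h1] at h
  rw [h]
  apply Finset.sum_congr rfl
  intro S hS
  rw [mem_powerset] at hS
  unfold wtC
  rw [Finset.prod_ite]
  congr 1
  · apply Finset.prod_congr _ (fun _ _ => rfl)
    ext v
    simp only [mem_filter]
    exact ⟨fun h => h.2, fun h => ⟨hS h, h⟩⟩
  · apply Finset.prod_congr _ (fun _ _ => rfl)
    ext v
    simp only [mem_filter, mem_sdiff]

lemma wt_split (θ : V → ℝ) (C S S' : Finset V) (hS : S ⊆ C) (hS' : S' ⊆ Cᶜ) :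
    wt θ (S ∪ S') = wtC θ C S * wtC θ Cᶜ S' := by
  unfold wt wtC
  rw [← Finset.prod_mul_prod_compl C]
  congr 1
  · apply Finset.prod_congr rfl
    intro v hv
    have : v ∉ S' := fun h => (Finset.mem_compl.mp (hS' h)) hv
    simp [this]
  · apply Finset.prod_congr rfl
    intro v hv
    have : v ∉ S := fun h => (Finset.mem_compl.mp hv) (hS h)
    simp [this]

lemma EB_split (θ : V → ℝ) (C : Finset V) (f : Finset V → ℝ) :
    EB θ f = ∑ S ∈ C.powerset, ∑ S' ∈ Cᶜ.powerset, wtC θ C S * wtC θ Cᶜ S' * f (S ∪ S') := by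
  unfold EB
  rw [← Finset.sum_product']
  symm
  apply Finset.sum_bij' (fun p _ => p.1 ∪ p.2) (fun B _ => (B ∩ C, B ∩ Cᶜ))
  · intro p _
    exact mem_univ _
  · intro B _
    rw [mem_product, mem_powerset, mem_powerset]
    exact ⟨inter_subset_right, inter_subset_right⟩
  · rintro ⟨S, S'⟩ hp
    rw [mem_product, mem_powerset, mem_powerset] at hp
    obtain ⟨h1, h2⟩ := hp
    simp only at h1 h2 ⊢
    rw [Prod.mk.injEq]
    constructor
    · ext v
      simp only [mem_inter, mem_union]
      constructor
      · rintro ⟨h | h, hC⟩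
        · exact h
        · exact absurd hC (Finset.mem_compl.mp (h2 h))
      · intro h
        exact ⟨Or.inl h, h1 h⟩
    · ext v
      simp only [mem_inter, mem_union]
      constructor
      · rintro ⟨h | h, hC⟩
        · exact absurd (h1 h) (Finset.mem_compl.mp hC)
        · exact h
      · intro h
        exact ⟨Or.inr h, h2 h⟩
  · intro B _
    simp only
    rw [← Finset.inter_union_distrib_left, Finset.union_compl, Finset.inter_univ]
  · rintro ⟨S, S'⟩ hp
    rw [mem_product, mem_powerset, mem_powerset] at hp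
    obtain ⟨h1, h2⟩ := hp
    rw [wt_split θ C S S' h1 h2]

lemma EB_const (θ : V → ℝ) (c : ℝ) : EB θ (fun _ => c) = c := by
  rw [EB_split θ ∅]
  have h := wtC_sum θ (∅ᶜ : Finset V)
  simp only [powerset_empty, sum_singleton]
  have h0 : wtC θ ∅ (∅ : Finset V) = 1 := by simp [wtC]
  simp only [h0, one_mul]
  rw [← Finset.sum_mul, h, one_mul]

lemma EB_add (θ : V → ℝ) (f g : Finset V → ℝ) :
    EB θ (fun B => f B + g B) = EB θ f + EB θ g := by
  unfold EB
  rw [← Finset.sum_add_distrib]
  exact Finset.sum_congr rfl (fun B _ => by ring)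

lemma EB_mul_left (θ : V → ℝ) (c : ℝ) (f : Finset V → ℝ) :
    EB θ (fun B => c * f B) = c * EB θ f := by
  unfold EB
  rw [Finset.mul_sum]
  exact Finset.sum_congr rfl (fun B _ => by ring)

lemma EB_mul_right (θ : V → ℝ) (c : ℝ) (f : Finset V → ℝ) :
    EB θ (fun B => f B * c) = EB θ f * c := by
  unfold EB
  rw [Finset.sum_mul]
  exact Finset.sum_congr rfl (fun B _ => by ring)

lemma EB_sub (θ : V → ℝ) (f g : Finset V → ℝ) :
    EB θ (fun B => f B - g B) = EB θ f - EB θ g := by
  unfold EB
  rw [← Finset.sum_sub_distrib]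
  exact Finset.sum_congr rfl (fun B _ => by ring)

lemma EB_sum {ι : Type} (θ : V → ℝ) (s : Finset ι) (f : ι → Finset V → ℝ) :
    EB θ (fun B => ∑ i ∈ s, f i B) = ∑ i ∈ s, EB θ (f i) := by
  unfold EB
  rw [Finset.sum_comm]
  exact Finset.sum_congr rfl (fun B _ => by rw [Finset.mul_sum])

lemma wt_nonneg (θ : V → ℝ) (hθ : ∀ v, 0 ≤ θ v ∧ θ v ≤ 1) (B : Finset V) : 0 ≤ wt θ B := by
  apply Finset.prod_nonneg
  intro v _
  split_ifs
  · exact (hθ v).1
  · linarith [(hθ v).2]

lemma EB_mono (θ : V → ℝ) (hθ : ∀ v, 0 ≤ θ v ∧ θ v ≤ 1) (f g : Finset V → ℝ)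
    (h : ∀ B, f B ≤ g B) : EB θ f ≤ EB θ g :=
  Finset.sum_le_sum (fun B _ => mul_le_mul_of_nonneg_left (h B) (wt_nonneg θ hθ B))

lemma EB_nonneg (θ : V → ℝ) (hθ : ∀ v, 0 ≤ θ v ∧ θ v ≤ 1) (f : Finset V → ℝ)
    (h : ∀ B, 0 ≤ f B) : 0 ≤ EB θ f :=
  Finset.sum_nonneg (fun B _ => mul_nonneg (wt_nonneg θ hθ B) (h B))

lemma EB_le_const (θ : V → ℝ) (hθ : ∀ v, 0 ≤ θ v ∧ θ v ≤ 1) (f : Finset V → ℝ) (c : ℝ)
    (h : ∀ B, f B ≤ c) : EB θ f ≤ c := by
  calc EB θ f ≤ EB θ (fun _ => c) := EB_mono θ hθ _ _ h
    _ = c := EB_const θ c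

lemma EB_abs_le (θ : V → ℝ) (hθ : ∀ v, 0 ≤ θ v ∧ θ v ≤ 1) (f : Finset V → ℝ) :
    |EB θ f| ≤ EB θ (fun B => |f B|) := by
  rw [abs_le]
  constructor
  · have : EB θ (fun B => -1 * |f B|) ≤ EB θ f :=
      EB_mono θ hθ _ _ (fun B => by linarith [neg_abs_le (f B)])
    rw [EB_mul_left] at this
    linarith
  · exact EB_mono θ hθ _ _ (fun B => le_abs_self _)

/-- the marginal on `C` -/
lemma EB_marg (θ : V → ℝ) (C : Finset V) (f : Finset V → ℝ) :
    EB θ (fun B => f (B ∩ C)) = ∑ S ∈ C.powerset, wtC θ C S * f S := by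
  rw [EB_split θ C]
  apply Finset.sum_congr rfl
  intro S hS
  rw [mem_powerset] at hS
  have : ∀ S' ∈ Cᶜ.powerset, wtC θ C S * wtC θ Cᶜ S' * f ((S ∪ S') ∩ C) =
      wtC θ Cᶜ S' * (wtC θ C S * f S) := by
    intro S' hS'
    rw [mem_powerset] at hS'
    have h1 : (S ∪ S') ∩ C = S := by
      ext v
      simp only [mem_inter, mem_union]
      constructor
      · rintro ⟨h | h, hC⟩
        · exact h
        · exact absurd hC (Finset.mem_compl.mp (hS' h))
      · intro h
        exact ⟨Or.inl h, hS h⟩
    rw [h1]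
    ring
  rw [Finset.sum_congr rfl this, ← Finset.sum_mul, wtC_sum, one_mul]

/-- independence of disjoint parts of the random set -/
lemma EB_indep (θ : V → ℝ) (C C' : Finset V) (hd : Disjoint C C') (f g : Finset V → ℝ) :
    EB θ (fun B => f (B ∩ C) * g (B ∩ C')) =
      EB θ (fun B => f (B ∩ C)) * EB θ (fun B => g (B ∩ C')) := by
  have hsub : C' ⊆ Cᶜ := by
    intro v hv
    rw [Finset.mem_compl]
    exact fun h => Finset.disjoint_left.mp hd h hv
  have h1 : EB θ (fun B => g (B ∩ C')) = ∑ S' ∈ Cᶜ.powerset, wtC θ Cᶜ S' * g (S' ∩ C') := by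
    have := EB_marg θ Cᶜ (fun S => g (S ∩ C'))
    rw [← this]
    congr 1
    funext B
    congr 1
    ext v
    simp only [mem_inter]
    constructor
    · rintro ⟨h, h'⟩
      exact ⟨⟨h, hsub h'⟩, h'⟩
    · rintro ⟨⟨h, _⟩, h'⟩
      exact ⟨h, h'⟩
  rw [h1, EB_marg θ C f, EB_split θ C, Finset.sum_mul_sum]
  apply Finset.sum_congr rfl
  intro S hS
  apply Finset.sum_congr rfl
  intro S' hS'
  rw [mem_powerset] at hS hS'
  have e1 : (S ∪ S') ∩ C = S := by
    ext v
    simp only [mem_inter, mem_union]
    constructor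
    · rintro ⟨h | h, hC⟩
      · exact h
      · exact absurd hC (Finset.mem_compl.mp (hS' h))
    · intro h
      exact ⟨Or.inl h, hS h⟩
  have e2 : (S ∪ S') ∩ C' = S' ∩ C' := by
    ext v
    simp only [mem_inter, mem_union]
    constructor
    · rintro ⟨h | h, hC⟩
      · exact absurd (hS h) (Finset.mem_compl.mp (hsub hC))
      · exact ⟨h, hC⟩
    · rintro ⟨h, hC⟩
      exact ⟨Or.inr h, hC⟩
  rw [e1, e2]
  ring

lemma EB_mem (θ : V → ℝ) (v : V) : EB θ (fun B => if v ∈ B then 1 else 0) = θ v := by
  have h := EB_marg θ {v} (fun S => if v ∈ S then (1 : ℝ) else 0)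
  have h1 : (fun B : Finset V => if v ∈ B then (1 : ℝ) else 0) =
      (fun B => if v ∈ B ∩ {v} then (1 : ℝ) else 0) := by
    funext B
    simp
  rw [h1, h]
  have : ({v} : Finset V).powerset = {∅, {v}} := by
    ext S
    simp [Finset.subset_singleton_iff]
  rw [this, Finset.sum_pair (by
    intro h
    exact Finset.singleton_ne_empty v h.symm)]
  simp [wtC]

/-- membership of `v` is independent from the rest of the random set -/
lemma EB_mem_indep (θ : V → ℝ) (v : V) (g : Finset V → ℝ) :
    EB θ (fun B => (if v ∈ B then 1 else 0) * g (B.erase v)) =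
      θ v * EB θ (fun B => g (B.erase v)) := by
  have h := EB_indep θ {v} {v}ᶜ (by
    rw [Finset.disjoint_left]
    intro a ha
    rw [Finset.mem_compl]
    exact fun h => h ha) (fun S => if v ∈ S then (1 : ℝ) else 0) g
  have e1 : ∀ B : Finset V, B ∩ {v}ᶜ = B.erase v := by
    intro B
    ext w
    simp only [mem_inter, mem_compl, mem_singleton, mem_erase]
    tauto
  have e2 : ∀ B : Finset V, (if v ∈ B ∩ {v} then (1 : ℝ) else 0) = if v ∈ B then 1 else 0 := by
    intro B
    simp
  simp only [e1, e2] at h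
  rw [h, EB_mem]

lemma EB_mem2 (θ : V → ℝ) (v w : V) (hvw : v ≠ w) :
    EB θ (fun B => (if v ∈ B then 1 else 0) * (if w ∈ B then 1 else 0)) = θ v * θ w := by
  have h := EB_mem_indep θ v (fun B => if w ∈ B then (1 : ℝ) else 0)
  have e : ∀ B : Finset V, (if w ∈ B.erase v then (1 : ℝ) else 0) = if w ∈ B then 1 else 0 := by
    intro B
    simp [Ne.symm hvw]
  simp only [e] at h
  rw [h, EB_mem]

/-! ## `EL` -/

lemma EL_const (L : List (V → ℝ)) (c : ℝ) : EL L (fun _ => c) = c := by
  induction L with
  | nil => rfl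
  | cons θ L ih =>
    show EL L (fun h => EB θ (fun _ => c)) = c
    simp only [EB_const]
    exact ih

lemma EL_congr (L : List (V → ℝ)) (f g : List (Finset V) → ℝ)
    (h : ∀ x, x.length = L.length → f x = g x) : EL L f = EL L g := by
  induction L generalizing f g with
  | nil => exact h [] rfl
  | cons θ L ih =>
    apply ih
    intro x hx
    congr 1
    funext B
    exact h _ (by simp [hx])

lemma EL_add (L : List (V → ℝ)) (f g : List (Finset V) → ℝ) :
    EL L (fun h => f h + g h) = EL L f + EL L g := by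
  induction L generalizing f g with
  | nil => rfl
  | cons θ L ih =>
    show EL L (fun h => EB θ (fun B => f (B :: h) + g (B :: h))) = _
    simp only [EB_add]
    exact ih _ _

lemma EL_sub (L : List (V → ℝ)) (f g : List (Finset V) → ℝ) :
    EL L (fun h => f h - g h) = EL L f - EL L g := by
  induction L generalizing f g with
  | nil => rfl
  | cons θ L ih =>
    show EL L (fun h => EB θ (fun B => f (B :: h) - g (B :: h))) = _
    simp only [EB_sub]
    exact ih _ _

lemma EL_mul_left (L : List (V → ℝ)) (c : ℝ) (f : List (Finset V) → ℝ) :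
    EL L (fun h => c * f h) = c * EL L f := by
  induction L generalizing f with
  | nil => rfl
  | cons θ L ih =>
    show EL L (fun h => EB θ (fun B => c * f (B :: h))) = _
    simp only [EB_mul_left]
    exact ih _

lemma EL_mul_right (L : List (V → ℝ)) (c : ℝ) (f : List (Finset V) → ℝ) :
    EL L (fun h => f h * c) = EL L f * c := by
  have : (fun h => f h * c) = (fun h => c * f h) := by
    funext h
    ring
  rw [this, EL_mul_left]
  ring

lemma EL_sum {ι : Type} (L : List (V → ℝ)) (s : Finset ι) (f : ι → List (Finset V) → ℝ) :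
    EL L (fun h => ∑ i ∈ s, f i h) = ∑ i ∈ s, EL L (f i) := by
  induction L generalizing f with
  | nil => rfl
  | cons θ L ih =>
    show EL L (fun h => EB θ (fun B => ∑ i ∈ s, f i (B :: h))) = _
    simp only [EB_sum]
    exact ih _

lemma EL_mono (L : List (V → ℝ)) (hL : AdmL L 1) (f g : List (Finset V) → ℝ)
    (h : ∀ x, x.length = L.length → f x ≤ g x) : EL L f ≤ EL L g := by
  induction L generalizing f g with
  | nil => exact h [] rfl
  | cons θ L ih =>
    apply ih (fun θ' h' => hL θ' (List.mem_cons_of_mem _ h'))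
    intro x hx
    exact EB_mono θ (hL θ List.mem_cons_self) _ _ (fun B => h _ (by simp [hx]))

lemma EL_nonneg (L : List (V → ℝ)) (hL : AdmL L 1) (f : List (Finset V) → ℝ)
    (h : ∀ x, x.length = L.length → 0 ≤ f x) : 0 ≤ EL L f := by
  have := EL_mono L hL (fun _ => 0) f h
  rwa [EL_const] at this

lemma EL_le_const (L : List (V → ℝ)) (hL : AdmL L 1) (f : List (Finset V) → ℝ) (c : ℝ)
    (h : ∀ x, x.length = L.length → f x ≤ c) : EL L f ≤ c := by
  have := EL_mono L hL f (fun _ => c) h
  rwa [EL_const] at this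

lemma EL_abs_le (L : List (V → ℝ)) (hL : AdmL L 1) (f : List (Finset V) → ℝ) :
    |EL L f| ≤ EL L (fun h => |f h|) := by
  rw [abs_le]
  constructor
  · have : EL L (fun h => -1 * |f h|) ≤ EL L f :=
      EL_mono L hL _ _ (fun x _ => by linarith [neg_abs_le (f x)])
    rw [EL_mul_left] at this
    linarith
  · exact EL_mono L hL _ _ (fun x _ => le_abs_self _)

/-- Cauchy-Schwarz -/
lemma EL_sq_le (L : List (V → ℝ)) (hL : AdmL L 1) (f g : List (Finset V) → ℝ) :
    (EL L (fun h => f h * g h)) ^ 2 ≤ EL L (fun h => f h ^ 2) * EL L (fun h => g h ^ 2) := by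
  set a := EL L (fun h => f h ^ 2) with ha
  set b := EL L (fun h => f h * g h) with hb
  set c := EL L (fun h => g h ^ 2) with hc
  have key : ∀ t : ℝ, 0 ≤ a + t * (2 * b) + t ^ 2 * c := by
    intro t
    have h0 : 0 ≤ EL L (fun h => (f h + t * g h) ^ 2) :=
      EL_nonneg L hL _ (fun x _ => sq_nonneg _)
    have h1 : EL L (fun h => (f h + t * g h) ^ 2) = a + t * (2 * b) + t ^ 2 * c := by
      have : (fun h => (f h + t * g h) ^ 2) =
          (fun h => (f h ^ 2 + t * (2 * (f h * g h))) + t ^ 2 * g h ^ 2) := by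
        funext h
        ring
      rw [this, EL_add, EL_add, EL_mul_left, EL_mul_left, EL_mul_left]
    linarith
  have ha0 : 0 ≤ a := EL_nonneg L hL _ (fun x _ => sq_nonneg _)
  have hc0 : 0 ≤ c := EL_nonneg L hL _ (fun x _ => sq_nonneg _)
  rcases hc0.lt_or_eq with hc1 | hc1
  · have h := key (-b / c)
    have h2 : a + -b / c * (2 * b) + (-b / c) ^ 2 * c = a - b ^ 2 / c := by
      field_simp
      ring
    rw [h2] at h
    have h3 : b ^ 2 / c ≤ a := by linarith
    rwa [div_le_iff₀ hc1] at h3
  · rw [← hc1]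
    have hb0 : b = 0 := by
      by_contra hne
      have h := key (-(a + 1) / (2 * b))
      rw [← hc1] at h
      have h2 : a + -(a + 1) / (2 * b) * (2 * b) + (-(a + 1) / (2 * b)) ^ 2 * 0 = -1 := by
        field_simp
        ring
      rw [h2] at h
      linarith
    rw [hb0]
    simp

/-- variance -/
noncomputable def Var (L : List (V → ℝ)) (f : List (Finset V) → ℝ) : ℝ :=
  EL L (fun h => f h ^ 2) - (EL L f) ^ 2

lemma Var_eq (L : List (V → ℝ)) (f : List (Finset V) → ℝ) :
    Var L f = EL L (fun h => (f h - EL L f) ^ 2) := by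
  set m := EL L f with hm
  have : (fun h => (f h - m) ^ 2) = (fun h => (f h ^ 2 + (-2 * m) * f h) + m ^ 2) := by
    funext h
    ring
  rw [this, EL_add, EL_add, EL_mul_left, EL_const, Var, ← hm]
  ring

lemma Var_nonneg (L : List (V → ℝ)) (hL : AdmL L 1) (f : List (Finset V) → ℝ) :
    0 ≤ Var L f := by
  rw [Var_eq]
  exact EL_nonneg L hL _ (fun x _ => sq_nonneg _)

/-- covariance with a `[0,1]`-valued function is at most the standard deviation -/
lemma EL_mul_le_of_var (L : List (V → ℝ)) (hL : AdmL L 1) (f g : List (Finset V) → ℝ)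
    (hf0 : ∀ x, 0 ≤ f x) (hf1 : ∀ x, f x ≤ 1) :
    EL L (fun h => f h * g h) ≤ EL L f * EL L g + Real.sqrt (Var L g) := by
  set m := EL L g with hm
  have h1 : EL L (fun h => f h * (g h - m)) = EL L (fun h => f h * g h) - EL L f * m := by
    have : (fun h => f h * (g h - m)) = (fun h => f h * g h - f h * m) := by
      funext h
      ring
    rw [this, EL_sub, EL_mul_right]
  have h2 := EL_sq_le L hL f (fun h => g h - m)
  have h3 : EL L (fun h => f h ^ 2) ≤ 1 := by
    apply EL_le_const L hL
    intro x _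
    have := hf0 x
    have := hf1 x
    nlinarith
  have h4 : EL L (fun h => (g h - m) ^ 2) = Var L g := (Var_eq L g).symm
  have h5 : (EL L (fun h => f h * (g h - m))) ^ 2 ≤ Var L g := by
    refine h2.trans ?_
    rw [h4]
    have := Var_nonneg L hL g
    have h6 : EL L (fun h => f h ^ 2) * Var L g ≤ 1 * Var L g :=
      mul_le_mul_of_nonneg_right h3 this
    linarith
  have h6 : EL L (fun h => f h * (g h - m)) ≤ Real.sqrt (Var L g) := by
    apply Real.le_sqrt_of_sq_le h5
  linarith

/-- restriction of a history to a set -/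
def rs (C : Finset V) (h : List (Finset V)) : List (Finset V) := h.map (fun B => B ∩ C)

/-- independence of disjoint parts of the history -/
lemma EL_indep (L : List (V → ℝ)) (C C' : Finset V) (hd : Disjoint C C')
    (f g : List (Finset V) → ℝ) :
    EL L (fun h => f (rs C h) * g (rs C' h)) =
      EL L (fun h => f (rs C h)) * EL L (fun h => g (rs C' h)) := by
  induction L generalizing f g with
  | nil => rfl
  | cons θ L ih =>
    show EL L (fun h => EB θ (fun B => f ((B ∩ C) :: rs C h) * g ((B ∩ C') :: rs C' h))) =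
      EL L (fun h => EB θ (fun B => f ((B ∩ C) :: rs C h))) *
      EL L (fun h => EB θ (fun B => g ((B ∩ C') :: rs C' h)))
    rw [← ih (fun h => EB θ (fun B => f ((B ∩ C) :: h))) (fun h => EB θ (fun B => g ((B ∩ C') :: h)))]
    congr 1
    funext h
    exact EB_indep θ C C' hd (fun S => f (S :: rs C h)) (fun S => g (S :: rs C' h))

/-- marginalisation: the first (= most recent) step does not influence earlier functions -/
lemma EL_cons_of_tail (θ : V → ℝ) (L : List (V → ℝ)) (f : List (Finset V) → ℝ) :
    EL (θ :: L) (fun h => f h.tail) = EL L f := by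
  show EL L (fun h => EB θ (fun _ => f h)) = EL L f
  simp only [EB_const]

omit [Fintype V] in
lemma mem_act_iff (v : V) (h : List (Finset V)) : v ∈ act h ↔ ∃ B ∈ h, v ∈ B := by
  induction h with
  | nil => simp [act]
  | cons B h ih => simp [act, ih]

/-- if every inclusion probability is at most `b` then a vertex is ever included with
probability at most `length * b`, independently of the other vertices -/
lemma EL_act_indep (L : List (V → ℝ)) (b : ℝ) (hb : b ≤ 1) (hL : AdmL L b) (v : V)
    (g : Finset V → ℝ) (hg : ∀ S, 0 ≤ g S) :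
    EL L (fun h => (if v ∈ act h then 1 else 0) * g ((act h).erase v)) ≤
      (L.length * b) * EL L (fun h => g ((act h).erase v)) := by
  have hL1 : AdmL L 1 := fun θ hθ w => ⟨(hL θ hθ w).1, ((hL θ hθ w).2).trans hb⟩
  -- general statement with an extra set
  have gen : ∀ (L : List (V → ℝ)), AdmL L b → AdmL L 1 → ∀ (g : Finset V → ℝ), (∀ S, 0 ≤ g S) →
      EL L (fun h => (if v ∈ act h then 1 else 0) * g ((act h).erase v)) ≤
      (L.length * b) * EL L (fun h => g ((act h).erase v)) := by
    intro L
    induction L with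
    | nil =>
      intro _ _ g hg
      simp [EL, act]
    | cons θ L ih =>
      intro hL hL1 g hg
      have hθ := hL θ List.mem_cons_self
      have hθ1 := hL1 θ List.mem_cons_self
      have hL' : AdmL L b := fun θ' h' => hL θ' (List.mem_cons_of_mem _ h')
      have hL1' : AdmL L 1 := fun θ' h' => hL1 θ' (List.mem_cons_of_mem _ h')
      -- split the membership
      have step1 : EL (θ :: L) (fun h => (if v ∈ act h then 1 else 0) * g ((act h).erase v)) ≤
          EL L (fun h => EB θ (fun B => (if v ∈ B then 1 else 0) * g ((B.erase v) ∪ (act h).erase v))) +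
          EL L (fun h => (if v ∈ act h then 1 else 0) *
            EB θ (fun B => g ((B.erase v) ∪ (act h).erase v))) := by
        rw [← EL_add]
        apply EL_mono L hL1'
        intro x _
        rw [← EB_mul_left, ← EB_add]
        apply EB_mono θ hθ1
        intro B
        have e : (act (B :: x)).erase v = (B.erase v) ∪ (act x).erase v := by
          rw [act, Finset.erase_union_distrib]
        show (if v ∈ act (B :: x) then (1 : ℝ) else 0) * g ((act (B :: x)).erase v) ≤ _
        rw [e]
        have hg0 := hg ((B.erase v) ∪ (act x).erase v)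
        by_cases h1 : v ∈ B
        · by_cases h2 : v ∈ act x
          · simp [act, h1, h2, hg0]
          · simp [act, h1, h2]
        · by_cases h2 : v ∈ act x
          · simp [act, h1, h2]
          · simp [act, h1, h2]
      have step2 : EL L (fun h => EB θ (fun B => (if v ∈ B then 1 else 0) *
          g ((B.erase v) ∪ (act h).erase v))) ≤
          b * EL L (fun h => EB θ (fun B => g ((B.erase v) ∪ (act h).erase v))) := by
        rw [← EL_mul_left]
        apply EL_mono L hL1'
        intro x _
        rw [EB_mem_indep θ v (fun S => g (S ∪ (act x).erase v))]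
        apply mul_le_mul_of_nonneg_right (hθ v).2
        exact EB_nonneg θ hθ1 _ (fun B => hg _)
      have step3 : EL L (fun h => (if v ∈ act h then 1 else 0) *
            EB θ (fun B => g ((B.erase v) ∪ (act h).erase v))) ≤
          (L.length * b) * EL L (fun h => EB θ (fun B => g ((B.erase v) ∪ (act h).erase v))) := by
        exact ih hL' hL1' (fun S => EB θ (fun B => g ((B.erase v) ∪ S)))
          (fun S => EB_nonneg θ hθ1 _ (fun B => hg _))
      have e4 : EL (θ :: L) (fun h => g ((act h).erase v)) =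
          EL L (fun h => EB θ (fun B => g ((B.erase v) ∪ (act h).erase v))) := by
        show EL L (fun h => EB θ (fun B => g ((act (B :: h)).erase v))) = _
        congr 1
        funext h
        congr 1
        funext B
        rw [act, Finset.erase_union_distrib]
      rw [e4]
      have : ((θ :: L).length : ℝ) * b = b + L.length * b := by
        rw [List.length_cons]
        push_cast
        ring
      rw [this]
      calc _ ≤ _ := step1
        _ ≤ _ := add_le_add step2 step3
        _ = _ := by ring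
  exact gen L hL hL1 g hg

/-! ## `EM` -/

lemma EM_const (L : List (V → ℝ)) (m : ℕ) (c : ℝ) : EM L m (fun _ => c) = c := by
  induction m with
  | zero => rfl
  | succ m ih =>
    show EM L m (fun _ => EL L (fun _ => c)) = c
    simp only [EL_const]
    exact ih

lemma EM_congr (L : List (V → ℝ)) (m : ℕ) (f g : List (List (Finset V)) → ℝ)
    (h : ∀ H, H.length = m → (∀ x ∈ H, x.length = L.length) → f H = g H) :
    EM L m f = EM L m g := by
  induction m generalizing f g with
  | zero => exact h [] rfl (by simp)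
  | succ m ih =>
    apply ih
    intro H hH hx
    apply EL_congr
    intro x hxl
    apply h
    · simp [hH]
    · intro y hy
      rcases List.mem_cons.mp hy with rfl | hy
      · exact hxl
      · exact hx y hy

lemma EM_add (L : List (V → ℝ)) (m : ℕ) (f g : List (List (Finset V)) → ℝ) :
    EM L m (fun H => f H + g H) = EM L m f + EM L m g := by
  induction m generalizing f g with
  | zero => rfl
  | succ m ih =>
    show EM L m (fun H => EL L (fun h => f (h :: H) + g (h :: H))) = _
    simp only [EL_add]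
    exact ih _ _

lemma EM_mul_left (L : List (V → ℝ)) (m : ℕ) (c : ℝ) (f : List (List (Finset V)) → ℝ) :
    EM L m (fun H => c * f H) = c * EM L m f := by
  induction m generalizing f with
  | zero => rfl
  | succ m ih =>
    show EM L m (fun H => EL L (fun h => c * f (h :: H))) = _
    simp only [EL_mul_left]
    exact ih _

lemma EM_sum {ι : Type} (L : List (V → ℝ)) (m : ℕ) (s : Finset ι)
    (f : ι → List (List (Finset V)) → ℝ) :
    EM L m (fun H => ∑ i ∈ s, f i H) = ∑ i ∈ s, EM L m (f i) := by
  induction m generalizing f with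
  | zero => rfl
  | succ m ih =>
    show EM L m (fun H => EL L (fun h => ∑ i ∈ s, f i (h :: H))) = _
    simp only [EL_sum]
    exact ih _

lemma EM_mono (L : List (V → ℝ)) (hL : AdmL L 1) (m : ℕ) (f g : List (List (Finset V)) → ℝ)
    (h : ∀ H, H.length = m → (∀ x ∈ H, x.length = L.length) → f H ≤ g H) :
    EM L m f ≤ EM L m g := by
  induction m generalizing f g with
  | zero => exact h [] rfl (by simp)
  | succ m ih =>
    apply ih
    intro H hH hx
    apply EL_mono L hL
    intro x hxl
    apply h
    · simp [hH]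
    · intro y hy
      rcases List.mem_cons.mp hy with rfl | hy
      · exact hxl
      · exact hx y hy

/-- a function with positive expectation is positive at some admissible outcome -/
lemma EM_exists_pos (L : List (V → ℝ)) (hL : AdmL L 1) (m : ℕ) (f : List (List (Finset V)) → ℝ)
    (h : 0 < EM L m f) : ∃ H, H.length = m ∧ (∀ x ∈ H, x.length = L.length) ∧ 0 < f H := by
  by_contra hcon
  push Not at hcon
  have := EM_mono L hL m f (fun _ => 0) hcon
  rw [EM_const] at this
  linarith

end Pool.Agent.Helper69.VU
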